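import Pool.Agent.EGH.Grow

set_option autoImplicit false
open MvPolynomial Matrix

namespace Pool.Agent.EGH

universe u

theorem egh3 (hreg : T_REG.{u}) (hasm : T_ASM.{u}) (hg : T_GROWTH.{u}) :
    ∀ (K : Type u) [Field K] (I : Ideal (MvPolynomial (Fin 3) K))
      (a : Fin 3 → ℕ) (f : Fin 3 → MvPolynomial (Fin 3) K),
      (∀ p ∈ I, ∀ d : ℕ, MvPolynomial.homogeneousComponent d p ∈ I) →
      Monotone a →
      (∀ i, 2 ≤ a i) →
      (∀ i, (f i).IsHomogeneous (a i)) →
      (∀ i, f i ∈ I) →
      RingTheory.Sequence.IsRegular (MvPolynomial (Fin 3) K) (List.ofFn f) →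
      ∃ J : Ideal (MvPolynomial (Fin 3) K),
        (∃ S : Set (Fin 3 →₀ ℕ),
            J = Ideal.span ((fun s => (MvPolynomial.monomial s (1 : K))) '' S)) ∧
        (∀ m m' : Fin 3 →₀ ℕ, (∑ i, m i) = (∑ i, m' i) →
            (∃ j : Fin 3, (∀ k, k < j → m k = m' k) ∧ m j < m' j) →
            MvPolynomial.monomial m (1 : K) ∈ J →
            MvPolynomial.monomial m' (1 : K) ∈ J) ∧
        ∀ d : ℕ,
          Module.finrank K
              ↥(MvPolynomial.homogeneousSubmodule (Fin 3) K d ⊓
                  Submodule.restrictScalars K I) =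
            Module.finrank K
              ↥(MvPolynomial.homogeneousSubmodule (Fin 3) K d ⊓
                  Submodule.restrictScalars K
                    (Ideal.span (Set.range fun i : Fin 3 =>
                        (MvPolynomial.X i : MvPolynomial (Fin 3) K) ^ a i) ⊔ J)) := by
  intro K _ I a f hI hmono h2 hhom hfI hr
  have hf : CI f a := hreg K f a h2 hhom hr
  have h01 : a 0 ≤ a 1 := hmono (by decide)
  have h12 : a 1 ≤ a 2 := hmono (by decide)
  exact hasm K f a hf h01 h12 (fun d => hg K f a hf h01 h12 d) I hI hfI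

end Pool.Agent.EGH
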