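import Pool.Agent.EGH.Targets

set_option autoImplicit false
open MvPolynomial

/-!
T_ASM: growth in all degrees gives the lex-plus-powers ideal.
-/

namespace Pool.Agent.EGH

universe u

namespace ASM_

/-- the triple of an exponent -/
def tr (m : Fin 3 →₀ ℕ) : Mon := (m 0, m 1, m 2)

lemma degree_eq3 (m : Fin 3 →₀ ℕ) : m.degree = m 0 + m 1 + m 2 := by
  rw [Finsupp.degree_eq_sum, Fin.sum_univ_three]

lemma mem_std {a b c d : ℕ} {x : Mon} :
    x ∈ Std a b c d ↔ x.1 < a ∧ x.2.1 < b ∧ x.2.2 < c ∧ x.1 + x.2.1 + x.2.2 = d := by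
  simp only [Std, Finset.mem_filter, Finset.mem_product, Finset.mem_range]
  tauto

/-- the monomials of `L` -/
def Mset (a : Fin 3 → ℕ) (S : ℕ → Finset Mon) : Set (Fin 3 →₀ ℕ) :=
  {m | ∀ x ∈ Std (a 0) (a 1) (a 2) m.degree, lexge x (tr m) → x ∈ S m.degree}

lemma step {a : Fin 3 → ℕ} {S : ℕ → Finset Mon}
    (hS : ∀ d, shadow (a 0) (a 1) (a 2) d (S d) ⊆ S (d + 1)) {m : Fin 3 →₀ ℕ}
    (hm : m ∈ Mset a S) (k : Fin 3) : m + Finsupp.single k 1 ∈ Mset a S := by
  intro x hx hlex
  have hdeg : (m + Finsupp.single k 1).degree = m.degree + 1 := by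
    rw [map_add, Finsupp.degree_single]
  rw [hdeg] at hx ⊢
  obtain ⟨x0, x1, x2⟩ := x
  have hd := degree_eq3 m
  rw [mem_std] at hx
  simp only at hx
  obtain ⟨h0, h1, h2, h3⟩ := hx
  have hlex' : m 0 < x0 ∨ (x0 = m 0 ∧ m 1 ≤ x1) := by
    unfold lexge tr at hlex
    simp only [Finsupp.add_apply, Finsupp.single_apply] at hlex
    fin_cases k <;> simp at hlex <;> omega
  have key : ∃ y ∈ Std (a 0) (a 1) (a 2) m.degree, lexge y (tr m) ∧ y ≤ (x0, x1, x2) := by
    by_cases c2 : 1 ≤ x2
    · refine ⟨(x0, x1, x2 - 1), ?_, ?_, ?_⟩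
      · rw [mem_std]
        simp only
        omega
      · unfold lexge tr
        simp only
        omega
      · simp only [Prod.mk_le_mk]
        omega
    · by_cases c1 : 1 ≤ x1
      · refine ⟨(x0, x1 - 1, 0), ?_, ?_, ?_⟩
        · rw [mem_std]
          simp only
          omega
        · unfold lexge tr
          simp only
          omega
        · simp only [Prod.mk_le_mk]
          omega
      · refine ⟨(x0 - 1, 0, 0), ?_, ?_, ?_⟩
        · rw [mem_std]
          simp only
          omega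
        · unfold lexge tr
          simp only
          omega
        · simp only [Prod.mk_le_mk]
          omega
  obtain ⟨y, hy1, hy2, hy3⟩ := key
  refine hS _ ?_
  unfold shadow
  rw [Finset.mem_filter]
  refine ⟨?_, y, hm y hy1 hy2, hy3⟩
  rw [mem_std]
  exact ⟨h0, h1, h2, h3⟩

lemma up_closed {a : Fin 3 → ℕ} {S : ℕ → Finset Mon}
    (hS : ∀ d, shadow (a 0) (a 1) (a 2) d (S d) ⊆ S (d + 1)) (t : Fin 3 →₀ ℕ) :
    ∀ m ∈ Mset a S, m + t ∈ Mset a S := by
  induction t using Finsupp.induction_linear with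
  | zero => intro m hm; simpa using hm
  | add f g hf hg =>
    intro m hm
    rw [← add_assoc]
    exact hg _ (hf _ hm)
  | single k n =>
    induction n with
    | zero => intro m hm; simpa using hm
    | succ n ih =>
      intro m hm
      rw [Finsupp.single_add, ← add_assoc]
      exact step hS (ih m hm) k

lemma up_closed' {a : Fin 3 → ℕ} {S : ℕ → Finset Mon}
    (hS : ∀ d, shadow (a 0) (a 1) (a 2) d (S d) ⊆ S (d + 1)) {m n : Fin 3 →₀ ℕ}
    (hm : m ∈ Mset a S) (h : m ≤ n) : n ∈ Mset a S := by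
  obtain ⟨t, rfl⟩ := exists_add_of_le h
  exact up_closed hS t m hm

lemma lexge_trans {x y z : Mon} (h1 : lexge x y) (h2 : lexge y z) : lexge x z := by
  unfold lexge at *
  omega

lemma lex_closed {a : Fin 3 → ℕ} {S : ℕ → Finset Mon} {m m' : Fin 3 →₀ ℕ}
    (hs : (∑ i, m i) = ∑ i, m' i)
    (hj : ∃ j : Fin 3, (∀ k, k < j → m k = m' k) ∧ m j < m' j) (hm : m ∈ Mset a S) :
    m' ∈ Mset a S := by
  have hd : m.degree = m'.degree := by
    rw [Finsupp.degree_eq_sum, Finsupp.degree_eq_sum, hs]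
  have hl : lexge (tr m') (tr m) := by
    obtain ⟨j, hj1, hj2⟩ := hj
    unfold lexge tr
    simp only
    fin_cases j
    · left
      exact hj2
    · right
      exact ⟨(hj1 0 (by decide)).symm, hj2.le⟩
    · right
      exact ⟨(hj1 0 (by decide)).symm, (hj1 1 (by decide)).le⟩
  intro x hx hlex
  rw [← hd] at hx ⊢
  exact hm x hx (lexge_trans hlex hl)

lemma mem_M_iff {a : Fin 3 → ℕ} {S : ℕ → Finset Mon}
    (hseg : ∀ d, IsSeg (a 0) (a 1) (a 2) d (S d)) {m : Fin 3 →₀ ℕ} {d : ℕ} (hd : m.degree = d)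
    (hstd : tr m ∈ Std (a 0) (a 1) (a 2) d) : m ∈ Mset a S ↔ tr m ∈ S d := by
  subst hd
  constructor
  · intro h
    refine h _ hstd ?_
    unfold lexge
    omega
  · intro h x hx hlex
    exact (hseg _).2 _ h x hx hlex

section

variable {K : Type u} [Field K]

lemma mem_rd {d : ℕ} {p : P K} : p ∈ Rd K d ↔ (p.support : Set (Fin 3 →₀ ℕ)) ⊆ {m | m.degree = d} := by
  rw [Rd, homogeneousSubmodule_eq_finsupp_supported]
  rfl

/-- exponents of degree `d` -/
def Dd (d : ℕ) : Set (Fin 3 →₀ ℕ) := {m | m.degree = d}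

lemma finite_Dd (d : ℕ) : (Dd d).Finite := by
  refine Set.Finite.subset (Set.finite_Iic
    (Finsupp.equivFunOnFinite.symm (fun _ => d) : Fin 3 →₀ ℕ)) ?_
  intro m hm
  have h := degree_eq3 m
  rw [show m.degree = d from hm] at h
  intro i
  simp only [Finsupp.equivFunOnFinite_symm_apply_apply]
  fin_cases i <;> simp <;> omega

lemma finrank_restrict (A : Set (Fin 3 →₀ ℕ)) :
    Module.finrank K (restrictSupport K A) = A.ncard := by
  rw [Module.finrank_eq_nat_card_basis (basisRestrictSupport K A)]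
  rfl

lemma rd_eq (d : ℕ) : Rd K d = restrictSupport K (Dd d) := by
  ext p
  rw [mem_rd, mem_restrictSupport_iff]
  rfl

lemma inf_eq (N : Set (Fin 3 →₀ ℕ)) (d : ℕ) :
    Rd K d ⊓ Submodule.restrictScalars K (Ideal.span ((fun s => (monomial s (1 : K))) '' N)) =
      restrictSupport K {m | m.degree = d ∧ ∃ s ∈ N, s ≤ m} := by
  ext p
  rw [Submodule.mem_inf, mem_rd, mem_restrictSupport_iff, Submodule.restrictScalars_mem,
    mem_ideal_span_monomial_image]
  constructor
  · rintro ⟨h1, h2⟩ m hm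
    exact ⟨h1 hm, h2 m hm⟩
  · intro h
    exact ⟨fun m hm => (h hm).1, fun m hm => (h hm).2⟩

lemma ideal_eq (a : Fin 3 → ℕ) (M : Set (Fin 3 →₀ ℕ)) :
    Ideal.span (Set.range fun i : Fin 3 => (X i : P K) ^ a i) ⊔
      Ideal.span ((fun s => (monomial s (1 : K))) '' M) =
    Ideal.span ((fun s => (monomial s (1 : K))) ''
      (Set.range (fun i : Fin 3 => Finsupp.single i (a i)) ∪ M)) := by
  rw [Set.image_union, Ideal.span_union]
  congr 2
  ext p
  simp only [Set.mem_range, Set.mem_image, exists_exists_eq_and, X_pow_eq_monomial]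

lemma count {a : Fin 3 → ℕ} {S : ℕ → Finset Mon}
    (hseg : ∀ d, IsSeg (a 0) (a 1) (a 2) d (S d))
    (hS : ∀ d, shadow (a 0) (a 1) (a 2) d (S d) ⊆ S (d + 1)) (d : ℕ) :
    ({m | m.degree = d ∧ ∃ s ∈ Set.range (fun i : Fin 3 => Finsupp.single i (a i)) ∪ Mset a S,
        s ≤ m} : Set (Fin 3 →₀ ℕ)).ncard + (Std (a 0) (a 1) (a 2) d).card =
      (Dd d).ncard + (S d).card := by
  set A : Set (Fin 3 →₀ ℕ) := {m | m.degree = d ∧
    ∃ s ∈ Set.range (fun i : Fin 3 => Finsupp.single i (a i)) ∪ Mset a S, s ≤ m} with hA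
  have hAD : A ⊆ Dd d := fun m hm => hm.1
  have h1 : (Dd d \ A).ncard + A.ncard = (Dd d).ncard :=
    Set.ncard_sdiff_add_ncard_of_subset hAD (finite_Dd d)
  have h2 : (Dd d \ A).ncard = (Std (a 0) (a 1) (a 2) d \ S d).card := by
    rw [← Set.ncard_coe_finset]
    refine Set.ncard_congr (fun m _ => tr m) ?_ ?_ ?_
    · rintro m ⟨hm1, hm2⟩
      have hmd : m.degree = d := hm1
      have h3 := degree_eq3 m
      have hlt : ∀ i, m i < a i := by
        intro i
        by_contra hcon
        refine hm2 ⟨hm1, Finsupp.single i (a i), Or.inl ⟨i, rfl⟩, ?_⟩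
        rw [Finsupp.single_le_iff]
        omega
      have hstd : tr m ∈ Std (a 0) (a 1) (a 2) d := by
        rw [mem_std]
        exact ⟨hlt 0, hlt 1, hlt 2, by unfold tr; simp only; omega⟩
      rw [Finset.mem_coe, Finset.mem_sdiff]
      refine ⟨hstd, fun hcon => hm2 ⟨hm1, m, Or.inr ?_, le_rfl⟩⟩
      exact (mem_M_iff hseg hmd hstd).mpr hcon
    · intro m m' _ _ h
      unfold tr at h
      simp only [Prod.mk.injEq] at h
      ext i
      fin_cases i
      · exact h.1
      · exact h.2.1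
      · exact h.2.2
    · rintro ⟨x0, x1, x2⟩ hx
      rw [Finset.mem_coe, Finset.mem_sdiff] at hx
      obtain ⟨hx1, hx2⟩ := hx
      have htr : tr (Finsupp.equivFunOnFinite.symm ![x0, x1, x2]) = (x0, x1, x2) := by
        simp [tr]
      have hx3 := mem_std.mp hx1
      simp only at hx3
      have hdeg : (Finsupp.equivFunOnFinite.symm ![x0, x1, x2] : Fin 3 →₀ ℕ).degree = d := by
        rw [degree_eq3]
        simp
        omega
      refine ⟨Finsupp.equivFunOnFinite.symm ![x0, x1, x2], ⟨hdeg, ?_⟩, htr⟩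
      rintro ⟨_, s, hs | hs, hle⟩
      · obtain ⟨i, rfl⟩ := hs
        simp only at hle
        rw [Finsupp.single_le_iff] at hle
        fin_cases i <;> simp at hle <;> omega
      · have := up_closed' hS hs hle
        rw [mem_M_iff hseg hdeg (by rw [htr]; exact hx1), htr] at this
        exact hx2 this
  have h3 : (Std (a 0) (a 1) (a 2) d \ S d).card + (S d).card =
      (Std (a 0) (a 1) (a 2) d).card :=
    Finset.card_sdiff_add_card_eq_card (hseg d).1
  omega

end

end ASM_

theorem t_asm (h1 : T_D1.{u}) (h2 : N_EX) (h3 : N_CH) (h4 : N_SHS) (h5 : T_DIMR.{u}) :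
    T_ASM.{u} := by
  classical
  intro K _ f a hf ha01 ha12 hG I hIh hfI
  have hfin : ∀ d, Module.Finite K (Rd K d) := fun d => (h5 K d).1
  set W : ℕ → Submodule K (P K) := fun d => Rd K d ⊓ Submodule.restrictScalars K I with hW
  have hWle : ∀ d, W d ≤ Rd K d := fun d => inf_le_left
  have hWfin : ∀ d, Module.Finite K (W d) := fun d =>
    Submodule.finiteDimensional_of_le (hWle d)
  have hJI : J f ≤ I := by
    unfold J
    rw [Ideal.span_le]
    rintro _ ⟨i, rfl⟩
    exact hfI i
  have hJW : ∀ d, Jd f d ≤ W d := by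
    intro d p hp
    exact ⟨hp.1, hJI hp.2⟩
  have hmono : ∀ d, Module.finrank K (Jd f d) ≤ Module.finrank K (W d) := fun d =>
    Submodule.finrank_mono (hJW d)
  have hmono2 : ∀ d, Module.finrank K (W d) ≤ Module.finrank K (Rd K d) := fun d =>
    Submodule.finrank_mono (hWle d)
  have hex : ∀ d, ∃ S : Finset Mon, IsSeg (a 0) (a 1) (a 2) d S ∧
      S.card = Module.finrank K (W d) - Module.finrank K (Jd f d) := by
    intro d
    refine h2 _ _ _ _ _ ?_
    have := h1 K f a hf d
    have := hmono2 d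
    omega
  choose S hseg hcard using hex
  have hup : ∀ d, up f d (W d) ≤ W (d + 1) := by
    intro d
    unfold up
    refine sup_le ?_ (hJW _)
    rw [Submodule.mul_le]
    rintro l hl w ⟨hw1, hw2⟩
    refine ⟨?_, I.mul_mem_left _ hw2⟩
    have := (show l.IsHomogeneous 1 from hl).mul (show w.IsHomogeneous d from hw1)
    rw [add_comm] at this
    exact this
  have hS : ∀ d, shadow (a 0) (a 1) (a 2) d (S d) ⊆ S (d + 1) := by
    intro d
    refine h3 _ _ _ _ _ _ (h4 _ _ _ _ _ (hseg d)) (hseg (d + 1)) ?_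
    have e1 := hG d (W d) (hJW d) (hWle d) (S d) (hseg d) (by
      have := hcard d
      have := hmono d
      omega)
    have e2 : Module.finrank K (up f d (W d)) ≤ Module.finrank K (W (d + 1)) :=
      Submodule.finrank_mono (hup d)
    have e3 := hcard (d + 1)
    omega
  refine ⟨Ideal.span ((fun s => (monomial s (1 : K))) '' (ASM_.Mset a S)), ⟨_, rfl⟩, ?_, ?_⟩
  · intro m m' hs hj hm
    have hmem : ∀ n : Fin 3 →₀ ℕ, monomial n (1 : K) ∈
        Ideal.span ((fun s => (monomial s (1 : K))) '' (ASM_.Mset a S)) ↔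
        n ∈ ASM_.Mset a S := by
      intro n
      rw [mem_ideal_span_monomial_image, support_monomial, if_neg one_ne_zero]
      simp only [Finset.mem_singleton, forall_eq]
      constructor
      · rintro ⟨s, hs, hle⟩
        exact ASM_.up_closed' hS hs hle
      · intro hn
        exact ⟨n, hn, le_rfl⟩
    rw [hmem] at hm ⊢
    exact ASM_.lex_closed hs hj hm
  · intro d
    rw [ASM_.ideal_eq, ASM_.inf_eq, ASM_.finrank_restrict]
    have h6 := ASM_.count hseg hS d
    have h7 := h1 K f a hf d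
    rw [ASM_.rd_eq, ASM_.finrank_restrict] at h7
    have h8 := hcard d
    have h9 := hmono d
    have h10 : Module.finrank K (W d) = Module.finrank K ↥(MvPolynomial.homogeneousSubmodule (Fin 3) K d ⊓
          Submodule.restrictScalars K I) := rfl
    omega

end Pool.Agent.EGH
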