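import Pool.Agent.EGH.Targets

set_option autoImplicit false
open MvPolynomial

/-!
T_AV1: prime avoidance modulo one form.
-/

namespace Pool.Agent.EGH

universe u

noncomputable section

namespace AV1

/-- a vector space over an infinite field is not a union of a finite family of proper
subspaces -/
theorem exists_notMem {K E ι : Type*} [Field K] [Infinite K] [AddCommGroup E] [Module K E]
    [Finite ι] (p : ι → Submodule K E) (hp : ∀ i, p i ≠ ⊤) : ∃ x, ∀ i, x ∉ p i := by
  by_contra h
  push Not at h
  have hcov : ⋃ i, (p i : Set E) = Set.univ := by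
    rw [Set.eq_univ_iff_forall]
    intro x
    rw [Set.mem_iUnion]
    exact h x
  obtain ⟨i, hi⟩ := Subspace.exists_eq_top_of_iUnion_eq_univ hcov
  exact hp i hi

end AV1

open AV1 in
theorem t_av1 : T_AV1.{u} := by
  classical
  intro K _ _ f0 h0 V hV
  -- the finite set of factors
  let s := (UniqueFactorizationMonoid.factors f0).toFinset
  let W : s → Submodule K V := fun π =>
    ((Ideal.span {(π : P K)}).restrictScalars K).comap V.subtype
  have hW : ∀ π : s, W π ≠ ⊤ := by
    intro π htop
    have hmem : (π : P K) ∈ UniqueFactorizationMonoid.factors f0 := Multiset.mem_toFinset.1 π.2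
    obtain ⟨h, hhV, hh⟩ := hV π (UniqueFactorizationMonoid.irreducible_of_factor _ hmem)
      (UniqueFactorizationMonoid.dvd_of_mem_factors hmem)
    apply hh
    have h1 : (⟨h, hhV⟩ : V) ∈ W π := by rw [htop]; exact Submodule.mem_top
    exact Ideal.mem_span_singleton.1 h1
  obtain ⟨h, hh⟩ := exists_notMem W hW
  refine ⟨h, h.2, fun p q hpq => ?_⟩
  have hrel : IsRelPrime f0 (h : P K) := by
    rw [UniqueFactorizationMonoid.isRelPrime_iff_no_prime_factors h0]
    intro d hd0 hdh hd
    obtain ⟨π, hπ, hdπ⟩ := UniqueFactorizationMonoid.exists_mem_factors_of_dvd h0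
      hd.irreducible hd0
    apply hh ⟨π, Multiset.mem_toFinset.2 hπ⟩
    show (h : P K) ∈ Ideal.span {π}
    rw [Ideal.mem_span_singleton]
    exact hdπ.symm.dvd.trans hdh
  have hdvd : f0 ∣ p := by
    apply hrel.dvd_of_dvd_mul_right (z := (h : P K))
    rw [hpq]
    exact dvd_mul_left _ _
  obtain ⟨r, hr⟩ := hdvd
  exact ⟨r, by rw [hr, mul_comm]⟩

end

end Pool.Agent.EGH
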