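import Pool.Agent.EGH.Targets

set_option autoImplicit false
open MvPolynomial

namespace Pool.Agent.EGH

universe u

/-- D5. prime avoidance modulo two coprime forms. -/
theorem t_av2 (hdep : T_DEP.{u}) : T_AV2.{u} := by
  intro K _ _ f0 f1 e0 e1 he0 he1 hf0 hf1 hne hreg V hV
  classical
  set I : Ideal (P K) := Ideal.span {f0, f1} with hI
  have : Module.Finite (P K) (P K ⧸ I) := Module.Finite.of_surjective I.mkQ I.mkQ_surjective
  have hfin : (associatedPrimes (P K) (P K ⧸ I)).Finite := associatedPrimes.finite (P K) (P K ⧸ I)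
  -- every associated prime misses an element of `V`
  have key : ∀ Q ∈ associatedPrimes (P K) (P K ⧸ I), ∃ h ∈ V, h ∉ Q := by
    intro Q hQ
    have hQ' : IsAssociatedPrime Q (P K ⧸ I) := hQ
    rw [isAssociatedPrime_iff] at hQ'
    obtain ⟨hprime, x, hx⟩ := hQ'
    obtain ⟨p, rfl⟩ := I.mkQ_surjective x
    have hmem : ∀ r : P K, r ∈ Q ↔ r * p ∈ I := by
      intro r
      rw [hx, Submodule.mem_colon_singleton, Submodule.mem_bot, ← map_smul,
        Submodule.mkQ_apply, Submodule.Quotient.mk_eq_zero, smul_eq_mul]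
    refine hV Q hprime ?_ ?_ ?_
    · rw [hmem]
      exact I.mul_mem_right _ (Ideal.subset_span (by simp))
    · rw [hmem]
      exact I.mul_mem_right _ (Ideal.subset_span (by simp))
    · by_contra hcon
      push Not at hcon
      have hp : p ∈ I := hdep K f0 f1 hne hreg p (fun i => (hmem _).1 (hcon i))
      apply hprime.ne_top
      rw [Ideal.eq_top_iff_one, hmem, one_mul]
      exact hp
  -- avoidance
  let sub : Ideal (P K) → Submodule K V := fun Q =>
    (Submodule.restrictScalars K Q).comap V.subtype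
  let s : Finset (Submodule K V) := hfin.toFinset.image sub
  have htop : (⊤ : Submodule K V) ∉ s := by
    intro h
    obtain ⟨Q, hQ, hQt⟩ := Finset.mem_image.1 h
    obtain ⟨h, hhV, hhQ⟩ := key Q (hfin.mem_toFinset.1 hQ)
    apply hhQ
    have : (⟨h, hhV⟩ : V) ∈ sub Q := by rw [hQt]; trivial
    exact this
  have hcov := Subspace.biUnion_ne_univ_of_top_notMem htop
  obtain ⟨h, hh⟩ := (Set.ne_univ_iff_exists_notMem _).1 hcov
  refine ⟨h, h.2, ?_⟩
  intro p q r hpqr
  have hphI : p * (h : P K) ∈ I := by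
    rw [hpqr]
    exact I.add_mem (I.mul_mem_left _ (Ideal.subset_span (by simp)))
      (I.mul_mem_left _ (Ideal.subset_span (by simp)))
  have hpI : p ∈ I := by
    by_contra hpI
    have h1 : (h : P K) ∈ ⋃ p ∈ associatedPrimes (P K) (P K ⧸ I), (p : Set (P K)) := by
      rw [biUnion_associatedPrimes_eq_zero_divisors]
      refine ⟨I.mkQ p, ?_, ?_⟩
      · rw [Ne, Submodule.mkQ_apply, Submodule.Quotient.mk_eq_zero]
        exact hpI
      · rw [← map_smul, Submodule.mkQ_apply, Submodule.Quotient.mk_eq_zero, smul_eq_mul, mul_comm]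
        exact hphI
    rw [Set.mem_iUnion₂] at h1
    obtain ⟨Q, hQ, hhQ⟩ := h1
    apply hh
    rw [Set.mem_iUnion₂]
    refine ⟨sub Q, Finset.mem_image_of_mem _ (hfin.mem_toFinset.2 hQ), ?_⟩
    exact hhQ
  rw [hI, Ideal.mem_span_pair] at hpI
  obtain ⟨a, b, hab⟩ := hpI
  exact ⟨a, b, hab.symm⟩

end Pool.Agent.EGH
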