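import Pool.Agent.EGH.PPDIM

set_option autoImplicit false
open MvPolynomial Matrix

namespace Pool.Agent.EGH

universe u

theorem t_bas (hfin : T_DIMR.{u}) : T_BAS.{u} := by
  intro K _ f d W hJW hWR
  have hW : Module.Finite K W := fin_le hfin hWR
  -- complement of `Jd`
  obtain ⟨C', hC'⟩ := Submodule.exists_isCompl (Jd f d)
  obtain ⟨C, hCdef⟩ : ∃ C : Submodule K (P K), C = W ⊓ C' := ⟨_, rfl⟩
  have hCW : C ≤ W := by rw [hCdef]; exact inf_le_left
  have hinf : Jd f d ⊓ C = ⊥ := by
    rw [eq_bot_iff, ← hC'.inf_eq_bot, hCdef]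
    exact le_inf inf_le_left (inf_le_right.trans inf_le_right)
  have hsup : W = Jd f d ⊔ C := by
    apply le_antisymm
    · intro x hx
      have hx' : x ∈ Jd f d ⊔ C' := by rw [hC'.sup_eq_top]; trivial
      obtain ⟨y, hy, z, hz, hyz⟩ := Submodule.mem_sup.mp hx'
      rw [← hyz]
      refine Submodule.add_mem_sup hy ?_
      rw [hCdef]
      refine ⟨?_, hz⟩
      have : z = x - y := by rw [← hyz]; ring
      rw [this]
      exact W.sub_mem hx (hJW hy)
    · exact sup_le hJW hCW
  have hCfin : Module.Finite K C := fin_le hfin (hCW.trans hWR)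
  let b : Module.Basis (Fin (Module.finrank K C)) K C := Module.finBasis K C
  have hspanC : Submodule.span K (Set.range fun i => (b i : P K)) = C := by
    have h1 : Set.range (fun i => (b i : P K)) = C.subtype '' Set.range b := by
      rw [← Set.range_comp]
      rfl
    rw [h1, ← Submodule.map_span, b.span_eq, Submodule.map_top, Submodule.range_subtype]
  have hg : BasisMod f d W (fun i => (b i : P K)) := by
    refine ⟨fun j => hWR (hCW (b j).2), fun c hc => ?_, ?_⟩
    · have h1 : (∑ j, c j • (b j : P K)) = ((∑ j, c j • b j : C) : P K) := by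
        simp
      rw [h1] at hc
      have h2 : ((∑ j, c j • b j : C) : P K) ∈ Jd f d :=
        ⟨hWR (hCW (∑ j, c j • b j : C).2), hc⟩
      have h3 : ((∑ j, c j • b j : C) : P K) ∈ (⊥ : Submodule K (P K)) := by
        rw [← hinf]
        exact ⟨h2, (∑ j, c j • b j : C).2⟩
      rw [Submodule.mem_bot] at h3
      have h4 : (∑ j, c j • b j : C) = 0 := by
        apply Subtype.ext
        exact h3
      have h5 := Fintype.linearIndependent_iff.mp b.linearIndependent c h4
      funext i
      exact h5 i
    · rw [hspanC]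
      exact hsup
  exact ⟨_, _, hg, hg.rank hfin⟩

end Pool.Agent.EGH
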