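import Pool.Agent.EGH.Targets

set_option autoImplicit false
open MvPolynomial

/-!
T_BC1: base change of a homogeneous regular sequence along a field extension.
-/

namespace Pool.Agent.EGH

universe u

noncomputable section

namespace BC1

variable {K L : Type u} [Field K] [Field L] [Algebra K L]

/-- apply a functional to the coefficients -/
def cf (l : L →ₗ[K] K) (p : P L) : P K := ∑ m ∈ p.support, monomial m (l (coeff m p))

theorem coeff_cf (l : L →ₗ[K] K) (p : P L) (m : Fin 3 →₀ ℕ) :
    coeff m (cf l p) = l (coeff m p) := by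
  classical
  unfold cf
  rw [coeff_sum]
  simp only [coeff_monomial]
  rw [Finset.sum_ite_eq' p.support m (fun m => l (coeff m p))]
  split_ifs with hm
  · rfl
  · rw [notMem_support_iff.mp hm, map_zero]

theorem cf_add (l : L →ₗ[K] K) (p q : P L) : cf l (p + q) = cf l p + cf l q := by
  ext m
  rw [coeff_cf, coeff_add, coeff_add, coeff_cf, coeff_cf, map_add]

theorem cf_mul (l : L →ₗ[K] K) (p : P L) (r : P K) :
    cf l (p * MvPolynomial.map (algebraMap K L) r) = cf l p * r := by
  classical
  ext m
  rw [coeff_cf, coeff_mul, coeff_mul, map_sum]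
  refine Finset.sum_congr rfl fun x _ => ?_
  rw [coeff_map, coeff_cf, mul_comm (coeff x.1 p), ← Algebra.smul_def, map_smul, smul_eq_mul,
    mul_comm]

/-- every polynomial over `L` is a combination of polynomials over `K` -/
theorem decomp {ι : Type*} (B : Module.Basis ι K L) (p : P L) : ∃ s : Finset ι,
    p = ∑ i ∈ s, C (B i) * MvPolynomial.map (algebraMap K L) (cf (B.coord i) p) := by
  classical
  refine ⟨p.support.biUnion fun m => (B.repr (coeff m p)).support, ?_⟩
  ext m
  rw [coeff_sum]
  simp only [coeff_C_mul, coeff_map, coeff_cf, Module.Basis.coord_apply]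
  have hsub : (B.repr (coeff m p)).support ⊆
      p.support.biUnion fun m => (B.repr (coeff m p)).support := by
    by_cases hm : m ∈ p.support
    · exact Finset.subset_biUnion_of_mem (fun m => (B.repr (coeff m p)).support) hm
    · rw [notMem_support_iff.mp hm, map_zero, Finsupp.support_zero]
      exact Finset.empty_subset _
  have h := B.linearCombination_repr (coeff m p)
  rw [Finsupp.linearCombination_apply, Finsupp.sum_of_support_subset _ hsub
    (fun i (a : K) => a • B i) (fun i _ => zero_smul K (B i))] at h
  conv_lhs => rw [← h]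
  refine Finset.sum_congr rfl fun i _ => ?_
  rw [Algebra.smul_def, mul_comm]

end BC1

open BC1 in
theorem t_bc1 : T_BC1.{u} := by
  intro K L _ _ _ f a hf
  let B := Module.Basis.ofVectorSpace K L
  refine ⟨hf.pos, fun i => (hf.hom i).map _, ?_, ?_, ?_⟩
  · intro h
    apply hf.ne
    apply MvPolynomial.map_injective (algebraMap K L) (algebraMap K L).injective
    rw [h, map_zero]
  · intro p q h
    obtain ⟨s, hs⟩ := decomp B p
    have h1 : ∀ i, ∃ r, cf (B.coord i) p = r * f 0 := by
      intro i
      apply hf.reg1 _ (cf (B.coord i) q)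
      rw [← cf_mul, ← cf_mul, h]
    choose r hr using h1
    refine ⟨∑ i ∈ s, C (B i) * MvPolynomial.map (algebraMap K L) (r i), ?_⟩
    rw [Finset.sum_mul]
    conv_lhs => rw [hs]
    refine Finset.sum_congr rfl fun i _ => ?_
    rw [hr i, map_mul, mul_assoc]
  · intro p q r h
    obtain ⟨s, hs⟩ := decomp B p
    have h1 : ∀ i, ∃ q' r', cf (B.coord i) p = q' * f 0 + r' * f 1 := by
      intro i
      apply hf.reg2 _ (cf (B.coord i) q) (cf (B.coord i) r)
      rw [← cf_mul, ← cf_mul, ← cf_mul, h, cf_add]
    choose q' r' hr using h1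
    refine ⟨∑ i ∈ s, C (B i) * MvPolynomial.map (algebraMap K L) (q' i),
      ∑ i ∈ s, C (B i) * MvPolynomial.map (algebraMap K L) (r' i), ?_⟩
    rw [Finset.sum_mul, Finset.sum_mul, ← Finset.sum_add_distrib]
    conv_lhs => rw [hs]
    refine Finset.sum_congr rfl fun i _ => ?_
    rw [hr i, map_add, map_mul, map_mul]
    ring

end

end Pool.Agent.EGH
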