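import Mathlib

set_option autoImplicit false
open MvPolynomial

/-!
A divisor of a nonzero homogeneous polynomial is homogeneous.
-/

namespace Pool.Agent.EGH.HomDvd

universe u v

noncomputable section

variable {σ : Type v} {R : Type u} [CommRing R]

/-- `X i ↦ X i * T` -/
def phi (σ : Type v) (R : Type u) [CommRing R] :
    MvPolynomial σ R →ₐ[R] Polynomial (MvPolynomial σ R) :=
  aeval fun i => Polynomial.C (X i) * Polynomial.X

theorem phi_monomial (s : σ →₀ ℕ) (c : R) :
    phi σ R (monomial s c) = Polynomial.monomial s.degree (monomial s c) := by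
  have h1 : (s.prod fun i k => (Polynomial.C (X i : MvPolynomial σ R) * Polynomial.X) ^ k) =
      Polynomial.C (s.prod fun i k => (X i : MvPolynomial σ R) ^ k) * Polynomial.X ^ s.degree := by
    unfold Finsupp.prod
    rw [map_prod, Finsupp.degree_apply, ← Finset.prod_pow_eq_pow_sum, ← Finset.prod_mul_distrib]
    refine Finset.prod_congr rfl fun i _ => ?_
    simp only
    rw [mul_pow, map_pow]
  unfold phi
  rw [aeval_monomial, h1, ← Polynomial.C_mul_X_pow_eq_monomial, monomial_eq]
  rw [show (algebraMap R (Polynomial (MvPolynomial σ R))) c = Polynomial.C (C c) from rfl,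
    Polynomial.C_mul]
  ring

theorem phi_coeff (p : MvPolynomial σ R) (k : ℕ) :
    (phi σ R p).coeff k = homogeneousComponent k p := by
  induction p using MvPolynomial.induction_on' with
  | monomial s c =>
    rw [phi_monomial, Polynomial.coeff_monomial]
    have h : (monomial s c : MvPolynomial σ R) ∈ homogeneousSubmodule σ R s.degree :=
      isHomogeneous_monomial c rfl
    rw [homogeneousComponent_of_mem h]
    split_ifs with h1 h2 h2
    · rfl
    · exact absurd h1.symm h2
    · exact absurd h2.symm h1
    · rfl
  | add p q hp hq =>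
    rw [map_add, Polynomial.coeff_add, hp, hq, map_add]

/-- A divisor of a nonzero homogeneous polynomial over a domain is homogeneous. -/
theorem homogeneous_of_mul [IsDomain R] {p q h : MvPolynomial σ R} {n : ℕ} (hpq : p * q = h)
    (hh : h.IsHomogeneous n) (h0 : h ≠ 0) : ∃ k, k ≤ n ∧ p.IsHomogeneous k := by
  have hp0 : p ≠ 0 := by
    rintro rfl
    exact h0 (by rw [← hpq, zero_mul])
  have hq0 : q ≠ 0 := by
    rintro rfl
    exact h0 (by rw [← hpq, mul_zero])
  have hne : ∀ {r : MvPolynomial σ R}, r ≠ 0 → phi σ R r ≠ 0 := by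
    intro r hr h1
    apply hr
    rw [← sum_homogeneousComponent r]
    refine Finset.sum_eq_zero fun k _ => ?_
    rw [← phi_coeff, h1, Polynomial.coeff_zero]
  have hprod : phi σ R p * phi σ R q = Polynomial.monomial n h := by
    rw [← map_mul, hpq]
    ext1 k
    rw [phi_coeff, Polynomial.coeff_monomial, homogeneousComponent_of_mem hh]
    split_ifs with h1 h2 h2
    · rfl
    · exact absurd h1.symm h2
    · exact absurd h2.symm h1
    · rfl
  have hd : (phi σ R p).natDegree + (phi σ R q).natDegree = n := by
    rw [← Polynomial.natDegree_mul (hne hp0) (hne hq0), hprod, Polynomial.natDegree_monomial_eq n h0]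
  have ht : (phi σ R p).natTrailingDegree + (phi σ R q).natTrailingDegree = n := by
    rw [← Polynomial.natTrailingDegree_mul (hne hp0) (hne hq0), hprod,
      Polynomial.natTrailingDegree_monomial h0]
  have hp1 := Polynomial.natTrailingDegree_le_natDegree (phi σ R p)
  have hq1 := Polynomial.natTrailingDegree_le_natDegree (phi σ R q)
  refine ⟨(phi σ R p).natDegree, by omega, ?_⟩
  rw [IsHomogeneous]
  intro s hs
  have h2 : (phi σ R p).coeff s.degree ≠ 0 := by
    rw [phi_coeff]
    intro h3
    apply hs
    have h4 := congrArg (coeff s) h3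
    rw [coeff_homogeneousComponent, if_pos rfl, coeff_zero] at h4
    exact h4
  have h5 := Polynomial.le_natDegree_of_ne_zero h2
  have h6 := Polynomial.natTrailingDegree_le_of_ne_zero h2
  have h7 : Finsupp.weight 1 s = s.degree := by
    rw [Finsupp.degree_eq_weight_one]
    rfl
  rw [h7]
  omega

theorem homogeneous_of_dvd [IsDomain R] {p h : MvPolynomial σ R} {n : ℕ} (hpq : p ∣ h)
    (hh : h.IsHomogeneous n) (h0 : h ≠ 0) : ∃ k, k ≤ n ∧ p.IsHomogeneous k := by
  obtain ⟨q, hq⟩ := hpq
  exact homogeneous_of_mul hq.symm hh h0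

end

end Pool.Agent.EGH.HomDvd
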