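import Pool.Agent.EGH.Targets
import Pool.Agent.EGH.HomDvd

set_option autoImplicit false
open MvPolynomial Matrix

/-!
EGH-C1A: a homogeneous relation if the rank of the linear parts drops.
-/

namespace Pool.Agent.EGH

universe u

noncomputable section

namespace C1A

variable {K : Type u} [Field K]

/-- component of a product with a linear form -/
theorem comp_mul {r p : P K} (hr : r.IsHomogeneous 1) (m : ℕ) :
    homogeneousComponent (m + 1) (r * p) = r * homogeneousComponent m p := by
  have h1 : HomDvd.phi (Fin 3) K r = Polynomial.monomial 1 r := by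
    ext1 k
    rw [HomDvd.phi_coeff, Polynomial.coeff_monomial, homogeneousComponent_of_mem hr]
    split_ifs with h1 h2 h2
    · rfl
    · exact absurd h1.symm h2
    · exact absurd h2.symm h1
    · rfl
  rw [← HomDvd.phi_coeff, map_mul, h1, Polynomial.coeff_monomial_mul, HomDvd.phi_coeff]

/-- if the vectors span, the determinant of some `v` of them is not zero -/
theorem tor_of_span {f : Fin 3 → P K} {a : Fin 3 → ℕ} {d v : ℕ} {g : Fin v → P K}
    (h : Submodule.span (FractionRing (P K))
      {x : Fin v → FractionRing (P K) | ∃ τ ∈ Sig f a d g,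
        x = fun i => algebraMap (P K) (FractionRing (P K)) (τ.1 i)} = ⊤) : Tor f a d g := by
  set F := FractionRing (P K) with hF
  set S : Set (Fin v → F) := {x | ∃ τ ∈ Sig f a d g, x = fun i => algebraMap (P K) F (τ.1 i)}
    with hS
  obtain ⟨b, hbS, hspan, hli⟩ := exists_linearIndependent F S
  rw [h] at hspan
  have hb : ⊤ ≤ Submodule.span F (Set.range (Subtype.val : b → (Fin v → F))) := by
    rw [Subtype.range_coe, hspan]
  set B := Module.Basis.mk hli hb with hB
  set e : Fin v ≃ b := (Pi.basisFun F (Fin v)).indexEquiv B with he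
  have hmem : ∀ k : Fin v, ∃ τ ∈ Sig f a d g,
      ((e k : b) : Fin v → F) = fun i => algebraMap (P K) F (τ.1 i) := fun k => hbS (e k).2
  choose t ht ht' using hmem
  refine ⟨t, ht, ?_⟩
  intro hdet
  have hli2 : LinearIndependent F (fun k : Fin v => ((e k : b) : Fin v → F)) :=
    hli.comp e e.injective
  set A : Matrix (Fin v) (Fin v) F := Matrix.of fun k => ((e k : b) : Fin v → F) with hA
  have hrow : LinearIndependent F A.row := hli2
  rw [Matrix.linearIndependent_rows_iff_isUnit, Matrix.isUnit_iff_isUnit_det] at hrow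
  have hAt : A = (Matrix.of fun k i => (t k).1 i).map (algebraMap (P K) F) := by
    ext k i
    rw [hA, Matrix.map_apply, Matrix.of_apply, Matrix.of_apply, ht' k]
  have h1 : A.det = algebraMap (P K) F (Matrix.of fun k i => (t k).1 i).det := by
    rw [hAt]
    exact (RingHom.map_det (algebraMap (P K) F) _).symm
  rw [h1, hdet, map_zero] at hrow
  exact not_isUnit_zero hrow

end C1A

open C1A in
theorem t_c1a : T_C1a.{u} := by
  intro K _ f a d v g hTor
  set F := FractionRing (P K) with hF
  set S : Set (Fin v → F) := {x | ∃ τ ∈ Sig f a d g, x = fun i => algebraMap (P K) F (τ.1 i)}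
    with hS
  have hne : Submodule.span F S ≠ ⊤ := fun h => hTor (tor_of_span h)
  obtain ⟨φ, hφ0, hφ⟩ := Submodule.exists_le_ker_of_lt_top _ (lt_top_iff_ne_top.mpr hne)
  -- coordinates
  set β : Fin v → F := fun j => φ (Pi.single j 1) with hβ
  have hφβ : ∀ x : Fin v → F, φ x = ∑ j, x j * β j := by
    intro x
    conv_lhs => rw [← Finset.univ_sum_single x]
    rw [map_sum]
    refine Finset.sum_congr rfl fun j _ => ?_
    have h1 : (Pi.single j (x j) : Fin v → F) = x j • Pi.single j 1 := by
      rw [← Pi.single_smul, smul_eq_mul, mul_one]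
    rw [h1, map_smul, smul_eq_mul]
  have hβ0 : ∃ j, β j ≠ 0 := by
    by_contra hcon
    push Not at hcon
    apply hφ0
    refine LinearMap.ext fun x => ?_
    rw [hφβ x]
    simp [hcon]
  -- clear denominators
  obtain ⟨b, hb⟩ := IsLocalization.exist_integer_multiples_of_finite (nonZeroDivisors (P K)) β
  choose γ hγ using hb
  have hb0 : (b : P K) ≠ 0 := nonZeroDivisors.ne_zero b.2
  have hinj : Function.Injective (algebraMap (P K) F) := IsFractionRing.injective (P K) F
  have hγ' : ∀ j, algebraMap (P K) F (γ j) = algebraMap (P K) F b * β j := by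
    intro j
    rw [hγ j]
    exact Algebra.smul_def _ _
  obtain ⟨j₀, hj₀⟩ := hβ0
  have hγ0 : γ j₀ ≠ 0 := by
    intro h0
    have h1 := hγ' j₀
    rw [h0, map_zero] at h1
    rcases mul_eq_zero.mp h1.symm with h2 | h2
    · rw [map_eq_zero_iff _ hinj] at h2
      exact hb0 h2
    · exact hj₀ h2
  have hrel : ∀ τ ∈ Sig f a d g, ∑ j, τ.1 j * γ j = 0 := by
    intro τ hτ
    apply hinj
    rw [map_sum, map_zero]
    have h1 : φ (fun i => algebraMap (P K) F (τ.1 i)) = 0 :=
      LinearMap.mem_ker.mp (hφ (Submodule.subset_span ⟨τ, hτ, rfl⟩))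
    rw [hφβ] at h1
    have h2 : ∑ j, algebraMap (P K) F (τ.1 j * γ j) =
        algebraMap (P K) F b * ∑ j, algebraMap (P K) F (τ.1 j) * β j := by
      rw [Finset.mul_sum]
      refine Finset.sum_congr rfl fun j _ => ?_
      rw [map_mul, hγ' j]
      ring
    rw [h2, h1, mul_zero]
  -- a nonzero component
  obtain ⟨m, hm⟩ : ∃ m, homogeneousComponent m (γ j₀) ≠ 0 := by
    by_contra hcon
    push Not at hcon
    apply hγ0
    rw [← sum_homogeneousComponent (γ j₀)]
    exact Finset.sum_eq_zero fun k _ => hcon k
  refine ⟨m, fun j => homogeneousComponent m (γ j), fun j => ?_, ?_, ?_⟩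
  · exact homogeneousComponent_isHomogeneous m (γ j)
  · intro h
    exact hm (congrFun h j₀)
  · intro τ hτ
    have h1 := congrArg (homogeneousComponent (m + 1)) (hrel τ hτ)
    rw [map_sum, map_zero] at h1
    rw [← h1]
    exact Finset.sum_congr rfl fun j _ => (comp_mul (hτ.1 j) m).symm

end

end Pool.Agent.EGH
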