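import Pool.Agent.EGH.Targets

set_option autoImplicit false
open MvPolynomial Matrix

namespace Pool.Agent.EGH

universe u

namespace C1B_

variable {K : Type u} [Field K]

lemma mul_R1 {d : ℕ} {l w : P K} (hl : l ∈ Rd K 1) (hw : w ∈ Rd K d) :
    l * w ∈ Rd K (d + 1) := by
  rw [mem_homogeneousSubmodule] at *
  have := hl.mul hw
  rwa [add_comm] at this

lemma R1_mul_Jd (f : Fin 3 → P K) (d : ℕ) : Rd K 1 * Jd f d ≤ Jd f (d + 1) := by
  rw [Submodule.mul_le]
  intro l hl w hw
  refine ⟨mul_R1 hl hw.1, ?_⟩
  exact (J f).mul_mem_left l hw.2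

lemma mem_R1_mul_span {v : ℕ} (g : Fin v → P K) (x : P K)
    (hx : x ∈ Rd K 1 * Submodule.span K (Set.range g)) :
    ∃ r : Fin v → P K, (∀ j, r j ∈ Rd K 1) ∧ x = ∑ j, r j * g j := by
  refine Submodule.mul_induction_on hx ?_ ?_
  · intro l hl w hw
    obtain ⟨c, rfl⟩ := (Submodule.mem_span_range_iff_exists_fun K).1 hw
    refine ⟨fun j => c j • l, fun j => Submodule.smul_mem _ _ hl, ?_⟩
    rw [Finset.mul_sum]
    refine Finset.sum_congr rfl fun j _ => ?_
    simp only [mul_smul_comm, smul_mul_assoc]
  · rintro x y ⟨r, hr, rfl⟩ ⟨s, hs, rfl⟩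
    refine ⟨fun j => r j + s j, fun j => Submodule.add_mem _ (hr j) (hs j), ?_⟩
    simp only [add_mul, Finset.sum_add_distrib]

/-- the graph -/
def G (f : Fin 3 → P K) (d : ℕ) {v : ℕ} (g α : Fin v → P K) : Submodule K (P K × P K) where
  carrier := {x | ∃ r : Fin v → P K, (∀ j, r j ∈ Rd K 1) ∧ ∃ z ∈ Jd f (d + 1),
    x.1 = ∑ j, r j * g j + z ∧ x.2 = ∑ j, r j * α j}
  add_mem' := by
    rintro x y ⟨r, hr, z, hz, h1, h2⟩ ⟨r', hr', z', hz', h1', h2'⟩
    refine ⟨fun j => r j + r' j, fun j => Submodule.add_mem _ (hr j) (hr' j), z + z',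
      Submodule.add_mem _ hz hz', ?_, ?_⟩
    · simp only [Prod.fst_add, h1, h1', add_mul, Finset.sum_add_distrib]; ring
    · simp only [Prod.snd_add, h2, h2', add_mul, Finset.sum_add_distrib]
  zero_mem' := by
    refine ⟨fun _ => 0, fun _ => Submodule.zero_mem _, 0, Submodule.zero_mem _, ?_, ?_⟩ <;> simp
  smul_mem' := by
    rintro c x ⟨r, hr, z, hz, h1, h2⟩
    refine ⟨fun j => c • r j, fun j => Submodule.smul_mem _ _ (hr j), c • z,
      Submodule.smul_mem _ _ hz, ?_, ?_⟩
    · simp only [Prod.smul_fst, h1, smul_mul_assoc, ← Finset.smul_sum, smul_add]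
    · simp only [Prod.smul_snd, h2, smul_mul_assoc, ← Finset.smul_sum]

end C1B_

open C1B_ in
theorem t_c1b (hJD : T_JD.{u}) (hD : T_DIMR.{u}) : T_C1b.{u} := by
  intro K _ f a hf d v g W hW m α hα hα0 hS
  have hfin : ∀ d, Module.Finite K (Rd K d) := fun d => (hD K d).1
  have hfle : ∀ (e : ℕ) (U : Submodule K (P K)), U ≤ Rd K e → Module.Finite K U := by
    intro e U hU
    haveI := hfin e
    exact Submodule.finiteDimensional_of_le hU
  have hJdle : ∀ e, Jd f e ≤ Rd K e := fun e => inf_le_left
  -- the two combination maps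
  let φ : (Fin v → K) →ₗ[K] P K := Fintype.linearCombination K g
  let ψ : (Fin v → K) →ₗ[K] P K := Fintype.linearCombination K α
  have hφ : ∀ c, φ c = ∑ j, c j • g j := fun c => Fintype.linearCombination_apply K g c
  have hψ : ∀ c, ψ c = ∑ j, c j • α j := fun c => Fintype.linearCombination_apply K α c
  have hφr : LinearMap.range φ = Submodule.span K (Set.range g) :=
    Fintype.range_linearCombination K g
  have hψr : LinearMap.range ψ = Submodule.span K (Set.range α) :=
    Fintype.range_linearCombination K α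
  have hφJ : ∀ c, φ c ∈ J f → c = 0 := fun c hc => hW.ind c (by rwa [hφ] at hc)
  have hφinj : Function.Injective φ := by
    rw [← LinearMap.ker_eq_bot, LinearMap.ker_eq_bot']
    intro c hc
    exact hφJ c (by rw [hc]; exact Ideal.zero_mem _)
  have hgspan : Submodule.span K (Set.range g) ≤ Rd K d := by
    rw [Submodule.span_le]
    rintro _ ⟨j, rfl⟩
    exact hW.mem j
  have hVle : Submodule.span K (Set.range α) ≤ Rd K m := by
    rw [Submodule.span_le]
    rintro _ ⟨j, rfl⟩
    exact hα j
  have hWle : W ≤ Rd K d := by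
    rw [hW.span]
    exact sup_le (hJdle d) hgspan
  let W1 : Submodule K (P K) := (LinearMap.ker ψ).map φ
  have hW1span : W1 ≤ Submodule.span K (Set.range g) := by
    rw [← hφr]
    exact LinearMap.map_le_range
  let W0 : Submodule K (P K) := Jd f d ⊔ W1
  have hW0W : W0 ≤ W := by
    rw [hW.span]
    exact sup_le_sup_left hW1span _
  -- dimension formula for sums with `Jd`
  have hdim : ∀ N : Submodule K (Fin v → K),
      Module.finrank K ↥(Jd f d ⊔ N.map φ) = Module.finrank K (Jd f d) + Module.finrank K N := by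
    intro N
    have hNle : N.map φ ≤ Rd K d := (LinearMap.map_le_range.trans (le_of_eq hφr)).trans hgspan
    haveI := hfle d _ (hJdle d)
    haveI := hfle d _ hNle
    have h := Submodule.finrank_sup_add_finrank_inf_eq (Jd f d) (N.map φ)
    have hbot : Jd f d ⊓ N.map φ = ⊥ := by
      rw [eq_bot_iff]
      rintro x ⟨hx1, hx2⟩
      obtain ⟨c, _, rfl⟩ := hx2
      have := hφJ c hx1.2
      rw [this, map_zero]
      exact Submodule.zero_mem _
    rw [hbot, finrank_bot, add_zero] at h
    rw [h]
    congr 1
    exact (Submodule.equivMapOfInjective φ hφinj N).finrank_eq.symm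
  refine ⟨W0, Submodule.span K (Set.range α), le_sup_left, hW0W, hVle, ?_, ?_, ?_⟩
  · intro h0
    apply hα0
    funext j
    have : α j ∈ (⊥ : Submodule K (P K)) := h0 ▸ Submodule.subset_span ⟨j, rfl⟩
    simpa using this
  · have h1 := hdim (LinearMap.ker ψ)
    have h2 := hdim ⊤
    rw [Submodule.map_top, hφr, ← hW.span, finrank_top, Module.finrank_fin_fun] at h2
    have h3 := LinearMap.finrank_range_add_finrank_ker ψ
    rw [hψr, Module.finrank_fin_fun] at h3
    change Module.finrank K ↥(Jd f d ⊔ (LinearMap.ker ψ).map φ) + _ = _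
    omega
  · -- the growth inequality
    have hupW : ∀ x, x ∈ up f d W → ∃ r : Fin v → P K, (∀ j, r j ∈ Rd K 1) ∧
        ∃ z ∈ Jd f (d + 1), x = ∑ j, r j * g j + z := by
      intro x hx
      unfold up at hx
      rw [hW.span, Submodule.mul_sup] at hx
      have hle : Rd K 1 * Jd f d ⊔ Rd K 1 * Submodule.span K (Set.range g) ⊔ Jd f (d + 1) ≤
          Rd K 1 * Submodule.span K (Set.range g) ⊔ Jd f (d + 1) :=
        sup_le (sup_le ((R1_mul_Jd f d).trans le_sup_right) le_sup_left) le_sup_right
      obtain ⟨y, hy, z, hz, rfl⟩ := Submodule.mem_sup.1 (hle hx)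
      obtain ⟨r, hr, rfl⟩ := mem_R1_mul_span g y hy
      exact ⟨r, hr, z, hz, rfl⟩
    have hupW' : ∀ (r : Fin v → P K), (∀ j, r j ∈ Rd K 1) → ∀ z ∈ Jd f (d + 1),
        ∑ j, r j * g j + z ∈ up f d W := by
      intro r hr z hz
      refine Submodule.add_mem _ (Submodule.mem_sup_left (Submodule.sum_mem _ fun j _ => ?_))
        (Submodule.mem_sup_right hz)
      refine Submodule.mul_mem_mul (hr j) ?_
      rw [hW.span]
      exact Submodule.mem_sup_right (Submodule.subset_span ⟨j, rfl⟩)
    have huple : up f d W ≤ Rd K (d + 1) := by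
      refine sup_le ?_ (hJdle _)
      rw [Submodule.mul_le]
      intro l hl w hw
      exact mul_R1 hl (hWle hw)
    haveI hupfin : Module.Finite K (up f d W) := hfle _ _ huple
    -- key: if `∑ r g ∈ J` then `∑ r α = 0`
    have hkey : ∀ (r : Fin v → P K), (∀ j, r j ∈ Rd K 1) → ∑ j, r j * g j ∈ J f →
        ∑ j, r j * α j = 0 := by
      intro r hr hJ
      have hmem : ∑ j, r j * g j ∈ Jd f (d + 1) :=
        ⟨Submodule.sum_mem _ fun j _ => mul_R1 (hr j) (hW.mem j), hJ⟩
      obtain ⟨y, hy, he⟩ := (hJD K f a hf.hom (d + 1) _).1 hmem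
      exact hS (r, y) ⟨hr, hy, he⟩
    let Gr := G f d g α
    let F1 : Gr →ₗ[K] up f d W := LinearMap.codRestrict _ ((LinearMap.fst K (P K) (P K)).comp
      Gr.subtype) (by
        rintro ⟨x, r, hr, z, hz, h1, h2⟩
        change x.1 ∈ up f d W
        rw [h1]
        exact hupW' r hr z hz)
    have hF1inj : Function.Injective F1 := by
      rw [← LinearMap.ker_eq_bot, LinearMap.ker_eq_bot']
      rintro ⟨x, r, hr, z, hz, h1, h2⟩ h0
      have h0' : x.1 = 0 := congrArg Subtype.val h0
      have hJ : ∑ j, r j * g j ∈ J f := by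
        have : ∑ j, r j * g j = -z := by
          rw [h0'] at h1
          exact eq_neg_of_add_eq_zero_left h1.symm
        rw [this]
        exact neg_mem hz.2
      have h3 := hkey r hr hJ
      rw [h3] at h2
      apply Subtype.ext
      exact Prod.ext h0' h2
    have hF1surj : Function.Surjective F1 := by
      rintro ⟨x, hx⟩
      obtain ⟨r, hr, z, hz, rfl⟩ := hupW x hx
      refine ⟨⟨(∑ j, r j * g j + z, ∑ j, r j * α j), r, hr, z, hz, rfl, rfl⟩, ?_⟩
      apply Subtype.ext
      rfl
    let E1 := LinearEquiv.ofBijective F1 ⟨hF1inj, hF1surj⟩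
    haveI hGfin : Module.Finite K Gr := Module.Finite.equiv E1.symm
    have hE1 : Module.finrank K Gr = Module.finrank K (up f d W) := E1.finrank_eq
    let F2 : Gr →ₗ[K] P K := (LinearMap.snd K (P K) (P K)).comp Gr.subtype
    have hF2 : ∀ x : Gr, F2 x = x.1.2 := fun x => rfl
    have hrn := LinearMap.finrank_range_add_finrank_ker F2
    have hrange : (Rd K 1 * Submodule.span K (Set.range α) : Submodule K (P K)) ≤
        LinearMap.range F2 := by
      intro y hy
      obtain ⟨r, hr, rfl⟩ := mem_R1_mul_span α y hy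
      exact ⟨⟨(∑ j, r j * g j + 0, ∑ j, r j * α j), r, hr, 0, Submodule.zero_mem _, rfl, rfl⟩, rfl⟩
    have hr2 : Module.finrank K (Rd K 1 * Submodule.span K (Set.range α) : Submodule K (P K)) ≤
        Module.finrank K (LinearMap.range F2) := by
      haveI : Module.Finite K (LinearMap.range F2) := Module.Finite.range F2
      exact Submodule.finrank_mono hrange
    have hW0G : ∀ x ∈ up f d W0, (x, (0 : P K)) ∈ Gr := by
      intro x hx
      change x ∈ Rd K 1 * (Jd f d ⊔ W1) ⊔ Jd f (d + 1) at hx
      rw [Submodule.mul_sup] at hx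
      have hle : Rd K 1 * Jd f d ⊔ Rd K 1 * W1 ⊔ Jd f (d + 1) ≤
          Rd K 1 * W1 ⊔ Jd f (d + 1) :=
        sup_le (sup_le ((R1_mul_Jd f d).trans le_sup_right) le_sup_left) le_sup_right
      obtain ⟨y, hy, z, hz, rfl⟩ := Submodule.mem_sup.1 (hle hx)
      have hz' : (z, (0 : P K)) ∈ Gr :=
        ⟨fun _ => 0, fun _ => Submodule.zero_mem _, z, hz, by simp, by simp⟩
      have hy' : (y, (0 : P K)) ∈ Gr := by
        refine Submodule.mul_induction_on hy ?_ ?_
        · intro l hl w hw
          obtain ⟨c, hc, rfl⟩ := hw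
          have hc0 : ∑ j, c j • α j = 0 := by
            rw [← hψ]
            exact hc
          refine ⟨fun j => c j • l, fun j => Submodule.smul_mem _ _ hl, 0,
            Submodule.zero_mem _, ?_, ?_⟩
          · change l * φ c = _
            rw [hφ, Finset.mul_sum, add_zero]
            refine Finset.sum_congr rfl fun j _ => ?_
            simp only [mul_smul_comm, smul_mul_assoc]
          · change (0 : P K) = _
            have : ∑ j, (c j • l) * α j = l * ∑ j, c j • α j := by
              rw [Finset.mul_sum]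
              refine Finset.sum_congr rfl fun j _ => ?_
              simp only [mul_smul_comm, smul_mul_assoc]
            rw [this, hc0, mul_zero]
        · intro x y hx hy
          have := Submodule.add_mem _ hx hy
          simpa using this
      have := Submodule.add_mem _ hy' hz'
      simpa using this
    have hker : Module.finrank K (up f d W0) ≤ Module.finrank K (LinearMap.ker F2) := by
      let F3 : up f d W0 →ₗ[K] LinearMap.ker F2 :=
        { toFun := fun x => ⟨⟨(x.1, 0), hW0G x.1 x.2⟩, rfl⟩
          map_add' := by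
            intro x y
            apply Subtype.ext
            apply Subtype.ext
            apply Prod.ext
            · rfl
            · simp
          map_smul' := by
            intro c x
            apply Subtype.ext
            apply Subtype.ext
            apply Prod.ext
            · rfl
            · simp }
      have hF3 : Function.Injective F3 := by
        intro x y hxy
        apply Subtype.ext
        exact congrArg (fun z => z.1.1.1) hxy
      exact LinearMap.finrank_le_finrank_of_injective hF3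
    omega

end Pool.Agent.EGH
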