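import Pool.Agent.EGH.Targets
import Pool.Agent.EGH.HomDvd

set_option autoImplicit false
open MvPolynomial Matrix

/-!
EGH-C2A: the common divisor `g0` of the minors.
-/

namespace Pool.Agent.EGH

universe u

noncomputable section

namespace C2A

variable {K : Type u} [Field K]

/-- the two properties (i), (ii) -/
def Good (f : Fin 3 → P K) (a : Fin 3 → ℕ) (d : ℕ) {v : ℕ} (g : Fin v → P K) (g0 : P K)
    (Q : Fin v → Fin 3 → P K) : Prop :=
  (∀ i, g0 * g i = ∑ k, Q i k * f k) ∧
    (∀ τ ∈ Sig f a d g, ∀ k, g0 * τ.2 k = ∑ i, τ.1 i * Q i k)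

/-- the starting pair -/
theorem start {f : Fin 3 → P K} {a : Fin 3 → ℕ} {d v : ℕ} {g : Fin v → P K}
    (hN : NV0 f a d g) (t : Fin v → Mv K v) (ht : ∀ k, t k ∈ Sig f a d g) :
    Good f a d g (Matrix.of fun k i => (t k).1 i).det
      (fun j i => ∑ k, (Matrix.of fun k i => (t k).1 i).adjugate j k * (t k).2 i) := by
  set R : Matrix (Fin v) (Fin v) (P K) := Matrix.of fun k i => (t k).1 i with hR
  have hadj : ∀ j l, ∑ k, R.adjugate j k * (t k).1 l = if j = l then R.det else 0 := by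
    intro j l
    have h := congrFun (congrFun (Matrix.adjugate_mul R) j) l
    rw [Matrix.mul_apply, Matrix.smul_apply, Matrix.one_apply] at h
    rw [smul_eq_mul, mul_ite, mul_one, mul_zero] at h
    exact h
  constructor
  · intro j
    have h1 : R.det * g j = ∑ l, (∑ k, R.adjugate j k * (t k).1 l) * g l := by
      simp only [hadj, ite_mul, zero_mul, Finset.sum_ite_eq, Finset.mem_univ, if_true]
    rw [h1]
    simp only [Finset.sum_mul]
    rw [Finset.sum_comm]
    rw [Finset.sum_comm (s := Finset.univ (α := Fin 3))]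
    refine Finset.sum_congr rfl fun k _ => ?_
    have h2 := (ht k).2.2
    calc ∑ l, R.adjugate j k * (t k).1 l * g l = R.adjugate j k * ∑ l, (t k).1 l * g l := by
          rw [Finset.mul_sum]
          exact Finset.sum_congr rfl fun l _ => by ring
      _ = R.adjugate j k * ∑ i, (t k).2 i * f i := by rw [h2]
      _ = _ := by
          rw [Finset.mul_sum]
          exact Finset.sum_congr rfl fun l _ => by ring
  · intro τ hτ i
    set x : Mv K v := R.det • τ - ∑ k, (∑ j, τ.1 j * R.adjugate j k) • t k with hx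
    have hxs : x ∈ Submodule.span (P K) (Sig f a d g : Set (Mv K v)) := by
      refine Submodule.sub_mem _ (Submodule.smul_mem _ _ (Submodule.subset_span hτ)) ?_
      exact Submodule.sum_mem _ fun k _ => Submodule.smul_mem _ _ (Submodule.subset_span (ht k))
    have hx1 : x.1 = 0 := by
      funext l
      have e1 : x.1 l = R.det * τ.1 l - ∑ k, (∑ j, τ.1 j * R.adjugate j k) * (t k).1 l := by
        rw [hx]
        simp only [Prod.fst_sub, Prod.smul_fst, Pi.sub_apply, Pi.smul_apply, smul_eq_mul,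
          Prod.fst_sum, Finset.sum_apply]
      rw [e1]
      have e2 : ∑ k, (∑ j, τ.1 j * R.adjugate j k) * (t k).1 l =
          ∑ j, τ.1 j * ∑ k, R.adjugate j k * (t k).1 l := by
        simp only [Finset.sum_mul, Finset.mul_sum]
        rw [Finset.sum_comm]
        exact Finset.sum_congr rfl fun j _ => Finset.sum_congr rfl fun k _ => by ring
      rw [e2]
      simp only [hadj, mul_ite, mul_zero, Finset.sum_ite_eq', Finset.mem_univ, if_true]
      rw [Pi.zero_apply]
      ring
    have hx2 := congrFun (hN x hxs hx1) i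
    have e1 : x.2 i = R.det * τ.2 i - ∑ k, (∑ j, τ.1 j * R.adjugate j k) * (t k).2 i := by
      rw [hx]
      simp only [Prod.snd_sub, Prod.smul_snd, Pi.sub_apply, Pi.smul_apply, smul_eq_mul,
        Prod.snd_sum, Finset.sum_apply]
    rw [e1, Pi.zero_apply, sub_eq_zero] at hx2
    rw [hx2]
    simp only [Finset.sum_mul, Finset.mul_sum]
    rw [Finset.sum_comm]
    exact Finset.sum_congr rfl fun j _ => Finset.sum_congr rfl fun k _ => by ring

/-- cancellation of a common factor -/
theorem cancel {f : Fin 3 → P K} {a : Fin 3 → ℕ} {d v : ℕ} {g : Fin v → P K}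
    {g0 π : P K} (hπ : π ≠ 0) {Q : Fin v → Fin 3 → P K}
    (h : Good f a d g (π * g0) (fun i k => π * Q i k)) : Good f a d g g0 Q := by
  constructor
  · intro i
    have h1 := h.1 i
    have h2 : ∑ k, π * Q i k * f k = π * ∑ k, Q i k * f k := by
      rw [Finset.mul_sum]
      exact Finset.sum_congr rfl fun k _ => by ring
    rw [h2, mul_assoc] at h1
    exact mul_left_cancel₀ hπ h1
  · intro τ hτ k
    have h1 := h.2 τ hτ k
    have h2 : ∑ i, τ.1 i * (π * Q i k) = π * ∑ i, τ.1 i * Q i k := by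
      rw [Finset.mul_sum]
      exact Finset.sum_congr rfl fun k _ => by ring
    rw [h2, mul_assoc] at h1
    exact mul_left_cancel₀ hπ h1

/-- a pair without a common irreducible factor -/
theorem primitive {f : Fin 3 → P K} {a : Fin 3 → ℕ} {d v : ℕ} {g : Fin v → P K}
    {m : P K} (hm : m ≠ 0) {Q : Fin v → Fin 3 → P K} (h : Good f a d g m Q) :
    ∃ (g0 : P K) (Q : Fin v → Fin 3 → P K), g0 ≠ 0 ∧ Good f a d g g0 Q ∧
      ∀ π : P K, Irreducible π → π ∣ g0 → ∃ i k, ¬ π ∣ Q i k := by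
  obtain ⟨g0, ⟨hg0, Q0, hQ0⟩, hmin⟩ :=
    (wellFounded_dvdNotUnit (α := P K)).has_min
      {g0 | g0 ≠ 0 ∧ ∃ Q : Fin v → Fin 3 → P K, Good f a d g g0 Q} ⟨m, hm, Q, h⟩
  refine ⟨g0, Q0, hg0, hQ0, ?_⟩
  intro π hπ hdvd
  by_contra hcon
  push Not at hcon
  obtain ⟨g1, hg1⟩ := hdvd
  choose Q1 hQ1 using hcon
  have hπ0 : π ≠ 0 := hπ.ne_zero
  have hg1' : g1 ≠ 0 := by
    rintro rfl
    exact hg0 (by rw [hg1, mul_zero])
  have hgood : Good f a d g g1 Q1 := by
    apply cancel hπ0
    have e1 : (fun i k => π * Q1 i k) = Q0 := by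
      funext i k
      exact (hQ1 i k).symm
    rw [e1, ← hg1]
    exact hQ0
  refine hmin g1 ⟨hg1', Q1, hgood⟩ ⟨hg1', π, hπ.not_isUnit, ?_⟩
  rw [hg1, mul_comm]

/-- coprimality lemma -/
theorem dvd_of_forall {ι : Type} {g0 μ : P K} (hg0 : g0 ≠ 0) {q : ι → P K}
    (hprim : ∀ π : P K, Irreducible π → π ∣ g0 → ∃ i, ¬ π ∣ q i)
    (h : ∀ i, g0 ∣ μ * q i) : g0 ∣ μ := by
  have key : ∀ e : P K, e ∣ g0 → e ∣ μ := by
    intro e
    induction e using WfDvdMonoid.induction_on_irreducible with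
    | zero =>
      intro h0
      exact absurd (zero_dvd_iff.mp h0) hg0
    | unit u hu =>
      intro _
      exact hu.dvd
    | mul a π _ hπ ih =>
      intro hdvd
      obtain ⟨μ', hμ'⟩ := ih ((dvd_mul_left a π).trans hdvd)
      obtain ⟨i, hi⟩ := hprim π hπ ((dvd_mul_right π a).trans hdvd)
      have h1 : π * a ∣ μ * q i := hdvd.trans (h i)
      have ha : a ≠ 0 := by
        rintro rfl
        rw [mul_zero, zero_dvd_iff] at hdvd
        exact hg0 hdvd
      have h2 : π ∣ μ' * q i := by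
        rw [hμ', mul_comm π a, mul_assoc] at h1
        exact (mul_dvd_mul_iff_left ha).mp h1
      rcases hπ.prime.dvd_or_dvd h2 with h3 | h3
      · rw [hμ', mul_comm π a]
        exact mul_dvd_mul_left a h3
      · exact absurd h3 hi
  exact key g0 dvd_rfl

/-- (iii) -/
theorem dvd_det {f : Fin 3 → P K} {a : Fin 3 → ℕ} {d v : ℕ} {g : Fin v → P K} {g0 : P K}
    (hg0 : g0 ≠ 0) {Q : Fin v → Fin 3 → P K} (h : Good f a d g g0 Q)
    (hprim : ∀ π : P K, Irreducible π → π ∣ g0 → ∃ i k, ¬ π ∣ Q i k)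
    (t : Fin v → Mv K v) (ht : ∀ k, t k ∈ Sig f a d g) :
    g0 ∣ (Matrix.of fun k i => (t k).1 i).det := by
  set R : Matrix (Fin v) (Fin v) (P K) := Matrix.of fun k i => (t k).1 i with hR
  refine dvd_of_forall (ι := Fin v × Fin 3) hg0 (q := fun x => Q x.1 x.2) ?_ ?_
  · intro π hπ hd
    obtain ⟨i, k, hik⟩ := hprim π hπ hd
    exact ⟨(i, k), hik⟩
  · rintro ⟨j, i⟩
    have hadj : ∀ l, ∑ k, R.adjugate j k * (t k).1 l = if j = l then R.det else 0 := by
      intro l
      have h := congrFun (congrFun (Matrix.adjugate_mul R) j) l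
      rw [Matrix.mul_apply, Matrix.smul_apply, Matrix.one_apply] at h
      rw [smul_eq_mul, mul_ite, mul_one, mul_zero] at h
      exact h
    have h1 : R.det * Q j i = ∑ k, R.adjugate j k * ∑ l, (t k).1 l * Q l i := by
      have e1 : ∑ k, R.adjugate j k * ∑ l, (t k).1 l * Q l i =
          ∑ l, (∑ k, R.adjugate j k * (t k).1 l) * Q l i := by
        simp only [Finset.sum_mul, Finset.mul_sum]
        rw [Finset.sum_comm]
        exact Finset.sum_congr rfl fun j _ => Finset.sum_congr rfl fun k _ => by ring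
      rw [e1]
      simp only [hadj, ite_mul, zero_mul, Finset.sum_ite_eq, Finset.mem_univ, if_true]
    have h2 : ∀ k, ∑ l, (t k).1 l * Q l i = g0 * (t k).2 i := fun k => (h.2 (t k) (ht k) i).symm
    rw [h1]
    simp only [h2]
    refine Finset.dvd_sum fun k _ => ?_
    exact Dvd.dvd.mul_left (dvd_mul_right g0 _) _

/-- the determinant is homogeneous of degree `v` -/
theorem det_hom {v : ℕ} (R : Matrix (Fin v) (Fin v) (P K))
    (hR : ∀ i j, (R i j).IsHomogeneous 1) : R.det.IsHomogeneous v := by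
  rw [Matrix.det_apply']
  refine IsHomogeneous.sum _ _ _ fun σ _ => ?_
  have h1 : (∏ i, R (σ i) i).IsHomogeneous v := by
    have := IsHomogeneous.prod Finset.univ (fun i => R (σ i) i) (fun _ => 1)
      (fun i _ => hR (σ i) i)
    simpa using this
  have h2 : ((((Equiv.Perm.sign σ : ℤˣ) : ℤ) : P K)).IsHomogeneous 0 := by
    have := isHomogeneous_C (Fin 3) (((Equiv.Perm.sign σ : ℤˣ) : ℤ) : K)
    rwa [map_intCast] at this
  have h3 := h2.mul h1
  rwa [zero_add] at h3

end C2A

open C2A in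
theorem t_c2a : T_C2a.{u} := by
  intro K _ f a hCI d v g W hB hv hTor hN
  obtain ⟨t, ht, hdet⟩ := hTor
  obtain ⟨g0, Q, hg0, hgood, hprim⟩ := primitive hdet (start hN t ht)
  have hdvd : ∀ t : Fin v → Mv K v, (∀ k, t k ∈ Sig f a d g) →
      g0 ∣ (Matrix.of fun k i => (t k).1 i).det := dvd_det hg0 hgood hprim
  have hhom : (Matrix.of fun k i => (t k).1 i).det.IsHomogeneous v :=
    det_hom _ fun i j => (ht i).1 j
  obtain ⟨j, -, hj⟩ := HomDvd.homogeneous_of_dvd (hdvd t ht) hhom hdet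
  refine ⟨j, g0, Q, ?_, hg0, hj, hgood.1, hgood.2, hdvd⟩
  by_contra hj0
  have hj00 : j = 0 := by omega
  subst hj00
  -- `g0` is a nonzero constant
  obtain ⟨c, hc⟩ : ∃ c : K, g0 = C c := by
    refine ⟨coeff 0 g0, ?_⟩
    exact (totalDegree_eq_zero_iff_eq_C).mp (Nat.le_zero.mp hj.totalDegree_le)
  have hc0 : c ≠ 0 := by
    rintro rfl
    exact hg0 (by rw [hc, map_zero])
  set i₀ : Fin v := ⟨0, hv⟩ with hi₀
  have h1 : g i₀ ∈ J f := by
    have e1 : g i₀ = C c⁻¹ * (g0 * g i₀) := by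
      rw [hc, ← mul_assoc, ← C_mul, inv_mul_cancel₀ hc0, C_1, one_mul]
    rw [e1, hgood.1 i₀]
    refine Ideal.mul_mem_left _ _ (Ideal.sum_mem _ fun k _ => Ideal.mul_mem_left _ _ ?_)
    exact Ideal.subset_span (Set.mem_range_self k)
  have h2 := hB.ind (Pi.single i₀ 1) (by
    rw [Finset.sum_eq_single i₀]
    · rw [Pi.single_eq_same, one_smul]
      exact h1
    · intro b _ hb
      rw [Pi.single_eq_of_ne hb, zero_smul]
    · intro h
      exact absurd (Finset.mem_univ _) h)
  have h3 := congrFun h2 i₀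
  rw [Pi.single_eq_same, Pi.zero_apply] at h3
  exact one_ne_zero h3

end

end Pool.Agent.EGH
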