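import Pool.Agent.EGH.Targets

set_option autoImplicit false
open MvPolynomial Matrix

namespace Pool.Agent.EGH

universe u

namespace PPID_

open Polynomial

/-- coefficient `n` of all entries -/
noncomputable def cf (K : Type u) [Field K] (v n : ℕ) : (Fin v → Polynomial K) →ₗ[K] (Fin v → K) :=
  LinearMap.pi fun i => (Polynomial.lcoeff K n) ∘ₗ LinearMap.proj i

lemma cf_apply {K : Type u} [Field K] {v n : ℕ} (s : Fin v → Polynomial K) (i : Fin v) :
    cf K v n s i = (s i).coeff n := rfl

lemma eq_of_natDegree {K : Type u} [Field K] (p : Polynomial K) (h : p.natDegree ≤ 1) :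
    p = Polynomial.C (p.coeff 0) + Polynomial.X * Polynomial.C (p.coeff 1) := by
  rw [add_comm, mul_comm]
  exact Polynomial.eq_X_add_C_of_natDegree_le_one h

lemma ext01 {K : Type u} [Field K] {v : ℕ} {s : Fin v → Polynomial K}
    (hs : ∀ i, (s i).natDegree ≤ 1) (h0 : cf K v 0 s = 0) (h1 : cf K v 1 s = 0) : s = 0 := by
  funext i
  have a0 : (s i).coeff 0 = 0 := congrFun h0 i
  have a1 : (s i).coeff 1 = 0 := congrFun h1 i
  rw [eq_of_natDegree (s i) (hs i), a0, a1]
  simp

end PPID_

open PPID_ in
theorem t_pid : T_PID.{u} := by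
  intro K _ v S γ hγ hdeg hev hdet
  classical
  -- evaluation
  set ev : S →ₗ[K] (Fin v → K) := (cf K v 0) ∘ₗ S.subtype with hevdef
  set c1 : S →ₗ[K] (Fin v → K) := (cf K v 1) ∘ₗ S.subtype with hc1def
  have hinj : Function.Injective (ev.prod c1) := by
    rw [← LinearMap.ker_eq_bot, LinearMap.ker_eq_bot']
    intro m hm
    have h0 : ev m = 0 := congrArg Prod.fst hm
    have h1 : c1 m = 0 := congrArg Prod.snd hm
    apply Subtype.ext
    exact ext01 (hdeg m.1 m.2) h0 h1
  have hfin : Module.Finite K S := Module.Finite.of_injective (ev.prod c1) hinj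
  have hsurj : Function.Surjective ev := by
    intro c
    obtain ⟨s, hs, hsc⟩ := hev c
    refine ⟨⟨s, hs⟩, ?_⟩
    funext i
    rw [← hsc i]
    change (s i).coeff 0 = _
    exact Polynomial.coeff_zero_eq_eval_zero _
  have hrk := LinearMap.finrank_range_add_finrank_ker ev
  rw [LinearMap.range_eq_top.mpr hsurj, finrank_top, Module.finrank_fin_fun] at hrk
  set N : Submodule K (Fin v → K) := (LinearMap.ker ev).map c1 with hN
  have hNk : Module.finrank K N = Module.finrank K (LinearMap.ker ev) := by
    have hi : Function.Injective (c1.domRestrict (LinearMap.ker ev)) := by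
      refine (injective_iff_map_eq_zero _).mpr ?_
      intro m hm
      apply Subtype.ext
      have h1 : c1 m = 0 := hm
      have h0 : ev m = 0 := m.2
      have h2 : (ev.prod c1) (m : S) = (ev.prod c1) 0 := by
        rw [map_zero]
        exact Prod.ext h0 h1
      exact hinj h2
    rw [hN, ← LinearMap.range_domRestrict]
    exact LinearMap.finrank_range_of_inj hi
  obtain ⟨Cc, hC⟩ := Submodule.exists_isCompl N
  have hCk : Module.finrank K N + Module.finrank K Cc = v := by
    rw [Submodule.finrank_add_eq_of_isCompl hC, Module.finrank_fin_fun]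
  -- the rows
  have hrow : ∀ k : Fin v, ∃ t : Fin v → Polynomial K, t ∈ S ∧ cf K v 0 t = Pi.single k 1 ∧
      cf K v 1 t ∈ Cc := by
    intro k
    obtain ⟨t, ht⟩ := hsurj (Pi.single k 1)
    have hmem : c1 t ∈ N ⊔ Cc := by rw [hC.sup_eq_top]; trivial
    obtain ⟨n, hn, b, hb, hnb⟩ := Submodule.mem_sup.mp hmem
    obtain ⟨w, hw, hwn⟩ := hn
    refine ⟨((t - w : S) : Fin v → Polynomial K), (t - w).2, ?_, ?_⟩
    · have : ev (t - w) = Pi.single k 1 := by
        rw [map_sub, ht, LinearMap.mem_ker.mp hw, sub_zero]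
      exact this
    · have : c1 (t - w) = b := by
        rw [map_sub, hwn, ← hnb]; abel
      have h2 : cf K v 1 ((t - w : S) : Fin v → Polynomial K) = b := this
      rw [h2]; exact hb
  choose t htS ht0 ht1 using hrow
  -- the factorization
  set c := Module.finrank K Cc with hc
  let bas : Module.Basis (Fin c) K Cc := Module.finBasis K Cc
  let P : Matrix (Fin v) (Fin c) K := Matrix.of fun k j => bas.repr ⟨cf K v 1 (t k), ht1 k⟩ j
  let Q : Matrix (Fin c) (Fin v) K := Matrix.of fun j i => (bas j : Fin v → K) i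
  have hPQ : ∀ k i, (t k i).coeff 1 = (P * Q) k i := by
    intro k i
    have h := bas.sum_repr ⟨cf K v 1 (t k), ht1 k⟩
    have h2 := congrArg (fun x : Cc => (x : Fin v → K) i) h
    simp only [Submodule.coe_sum, Submodule.coe_smul, Finset.sum_apply, Pi.smul_apply,
      smul_eq_mul] at h2
    rw [Matrix.mul_apply]
    exact h2.symm
  have hT : Matrix.of t = 1 + ((Polynomial.X : Polynomial K) • P.map Polynomial.C) * Q.map Polynomial.C := by
    ext1 k i
    rw [Matrix.smul_mul, ← Matrix.map_mul, Matrix.add_apply, Matrix.smul_apply, Matrix.map_apply,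
      ← hPQ, smul_eq_mul]
    have h0 : (t k i).coeff 0 = (Pi.single k 1 : Fin v → K) i := congrFun (ht0 k) i
    change t k i = _
    conv_lhs => rw [eq_of_natDegree (t k i) (hdeg _ (htS k) i), h0]
    congr 1
    by_cases h : k = i
    · subst h; simp
    · rw [Matrix.one_apply_ne h, Pi.single_eq_of_ne (Ne.symm h), map_zero]
  have hd := hdet t htS
  have hne : (Matrix.of t).det ≠ 0 := by
    intro h0
    have := congrArg (Polynomial.eval 0) h0
    rw [Polynomial.eval_zero, ← Polynomial.coe_evalRingHom, RingHom.map_det] at this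
    have h1 : (Polynomial.evalRingHom (0 : K)).mapMatrix (Matrix.of t) = 1 := by
      ext1 k i
      rw [RingHom.mapMatrix_apply, Matrix.map_apply, Matrix.of_apply, Polynomial.coe_evalRingHom,
        ← Polynomial.coeff_zero_eq_eval_zero]
      have h0 : (t k i).coeff 0 = (Pi.single k 1 : Fin v → K) i := congrFun (ht0 k) i
      rw [h0]
      by_cases h : k = i
      · subst h; simp
      · rw [Matrix.one_apply_ne h, Pi.single_eq_of_ne (Ne.symm h)]
    rw [h1, Matrix.det_one] at this
    exact one_ne_zero this
  have hle : (Matrix.of t).det.natDegree ≤ c := by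
    rw [hT, Matrix.det_one_add_mul_comm, Matrix.mul_smul, ← Matrix.map_mul, add_comm]
    have h1 : (1 : Matrix (Fin c) (Fin c) (Polynomial K)) = (1 : Matrix (Fin c) (Fin c) K).map Polynomial.C := by
      rw [Matrix.map_one] <;> simp
    rw [h1]
    refine (Polynomial.natDegree_det_X_add_C_le _ _).trans ?_
    rw [Fintype.card_fin]
  have := Polynomial.natDegree_le_of_dvd hd hne
  omega

end Pool.Agent.EGH
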