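import Pool.Agent.EGH.Targets
import Pool.Agent.EGH.PPID

set_option autoImplicit false
open MvPolynomial Matrix

namespace Pool.Agent.EGH

universe u

namespace C2B_

variable {K : Type u} [Field K]

/-- restriction to the line `p + s q` -/
noncomputable def ln (p q : Fin 3 → K) : P K →ₐ[K] Polynomial K :=
  MvPolynomial.aeval fun k => Polynomial.C (p k) + Polynomial.C (q k) * Polynomial.X

lemma ln_eq (p q : Fin 3 → K) (w : P K) : ln p q w = ∑ d ∈ w.support,
    Polynomial.C (w.coeff d) * ∏ i, (Polynomial.C (p i) + Polynomial.C (q i) * Polynomial.X) ^ d i := by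
  rw [ln, MvPolynomial.aeval_def, MvPolynomial.eval₂_eq']
  rfl

lemma eval_ln (p q : Fin 3 → K) (w : P K) : (ln p q w).eval 0 = MvPolynomial.eval p w := by
  rw [ln_eq, Polynomial.eval_finsetSum, MvPolynomial.eval_eq']
  refine Finset.sum_congr rfl fun d _ => ?_
  rw [Polynomial.eval_mul, Polynomial.eval_C, Polynomial.eval_prod]
  congr 1
  refine Finset.prod_congr rfl fun i _ => ?_
  simp

lemma prod_deg (p q : Fin 3 → K) (d : Fin 3 → ℕ) (s : Finset (Fin 3)) :
    (∏ i ∈ s, (Polynomial.C (p i) + Polynomial.C (q i) * Polynomial.X) ^ d i).natDegree ≤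
      ∑ i ∈ s, d i ∧
    (∏ i ∈ s, (Polynomial.C (p i) + Polynomial.C (q i) * Polynomial.X) ^ d i).coeff (∑ i ∈ s, d i) =
      ∏ i ∈ s, q i ^ d i := by
  classical
  induction s using Finset.induction_on with
  | empty => simp
  | insert i s hi ih =>
    rw [Finset.prod_insert hi, Finset.sum_insert hi, Finset.prod_insert hi]
    have h1 : (Polynomial.C (p i) + Polynomial.C (q i) * Polynomial.X).natDegree ≤ 1 := by
      rw [add_comm]
      exact Polynomial.natDegree_linear_le
    have h2 : ((Polynomial.C (p i) + Polynomial.C (q i) * Polynomial.X) ^ d i).natDegree ≤ d i := by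
      have := Polynomial.natDegree_pow_le_of_le (d i) h1
      simpa using this
    refine ⟨Polynomial.natDegree_mul_le_of_le h2 ih.1, ?_⟩
    rw [Polynomial.coeff_mul_add_eq_of_natDegree_le h2 ih.1, ih.2]
    have h3 := Polynomial.coeff_pow_of_natDegree_le (m := d i) h1
    rw [mul_one] at h3
    rw [h3]
    simp

lemma deg_eq {j : ℕ} {w : P K} (hw : w ∈ Rd K j) {d : Fin 3 →₀ ℕ} (hd : d ∈ w.support) :
    ∑ i, d i = j := by
  have h : w.IsHomogeneous j := hw
  have h2 := h (MvPolynomial.mem_support_iff.mp hd)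
  change Finsupp.weight (fun _ => 1) d = j at h2
  rw [← Finsupp.degree_eq_weight_one] at h2
  rw [← h2, Finsupp.degree_eq_sum]

lemma natDegree_ln (p q : Fin 3 → K) (j : ℕ) (w : P K) (hw : w ∈ Rd K j) :
    (ln p q w).natDegree ≤ j := by
  rw [ln_eq]
  refine Polynomial.natDegree_sum_le_of_forall_le _ _ fun d hd => ?_
  refine (Polynomial.natDegree_C_mul_le _ _).trans ?_
  have := (prod_deg p q d Finset.univ).1
  rwa [deg_eq hw hd] at this

lemma coeff_ln (p q : Fin 3 → K) (j : ℕ) (w : P K) (hw : w ∈ Rd K j) :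
    (ln p q w).coeff j = MvPolynomial.eval q w := by
  rw [ln_eq, Polynomial.finsetSum_coeff, MvPolynomial.eval_eq']
  refine Finset.sum_congr rfl fun d hd => ?_
  rw [Polynomial.coeff_C_mul]
  have := (prod_deg p q d Finset.univ).2
  rw [deg_eq hw hd] at this
  rw [this]

lemma lin_form (w : P K) (hw : w ∈ Rd K 1) : ∃ c : Fin 3 → K, ∑ k, c k • (X k : P K) = w := by
  rw [Rd, MvPolynomial.homogeneousSubmodule_one_eq_span_X] at hw
  exact (Submodule.mem_span_range_iff_exists_fun K).mp hw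

/-- a linear form -/
noncomputable def lf (n : Fin 3 → K) : P K := ∑ k, C (n k) * X k

lemma lf_mem (n : Fin 3 → K) : lf n ∈ Rd K 1 := by
  refine Submodule.sum_mem _ fun k _ => ?_
  change (C (n k) * X k : P K).IsHomogeneous 1
  exact (MvPolynomial.isHomogeneous_X K k).C_mul (n k)

lemma lf_coeff (n : Fin 3 → K) (i : Fin 3) : (lf n).coeff (Finsupp.single i 1) = n i := by
  classical
  rw [lf, MvPolynomial.coeff_sum, Finset.sum_eq_single i]
  · rw [MvPolynomial.coeff_C_mul, MvPolynomial.coeff_X]; simp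
  · intro k _ hk
    rw [MvPolynomial.coeff_C_mul, MvPolynomial.coeff_X, if_neg, mul_zero]
    rwa [Finsupp.single_left_inj Nat.one_ne_zero]
  · intro h; exact absurd (Finset.mem_univ _) h

lemma lf_ne (n : Fin 3 → K) (h : n 2 ≠ 0) : lf n ≠ 0 := by
  intro h0
  have := lf_coeff n 2
  rw [h0, MvPolynomial.coeff_zero] at this
  exact h this.symm

lemma lf_prime (n : Fin 3 → K) (h : n 2 ≠ 0) : Prime (lf n) := by
  apply Irreducible.prime
  apply MvPolynomial.irreducible_of_totalDegree_eq_one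
  · exact MvPolynomial.IsHomogeneous.totalDegree (lf_mem n) (lf_ne n h)
  · intro x hx
    have := hx (Finsupp.single 2 1)
    rw [lf_coeff] at this
    rw [isUnit_iff_ne_zero]
    rintro rfl
    exact h (zero_dvd_iff.mp this)

lemma lf_dvd (p q : Fin 3 → K) (h : p 0 * q 1 - p 1 * q 0 ≠ 0) (w : P K) (hw : w ∈ Rd K 1)
    (h1 : MvPolynomial.eval p w = 0) (h2 : MvPolynomial.eval q w = 0) : lf (p ⨯₃ q) ∣ w := by
  obtain ⟨c, rfl⟩ := lin_form w hw
  simp only [Fin.sum_univ_three, map_add, MvPolynomial.smul_eval, MvPolynomial.eval_X] at h1 h2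
  have hc : (p ⨯₃ q) 2 = p 0 * q 1 - p 1 * q 0 := by
    simp [cross_apply]
  have hc0 : (p ⨯₃ q) 0 = p 1 * q 2 - p 2 * q 1 := by
    simp [cross_apply]
  have hc1 : (p ⨯₃ q) 1 = p 2 * q 0 - p 0 * q 2 := by
    simp [cross_apply]
  refine ⟨C (c 2 / (p 0 * q 1 - p 1 * q 0)), ?_⟩
  have e0 : c 0 = (p 1 * q 2 - p 2 * q 1) * (c 2 / (p 0 * q 1 - p 1 * q 0)) := by
    rw [← mul_div_assoc, eq_div_iff h]
    linear_combination (q 1) * h1 - (p 1) * h2
  have e1 : c 1 = (p 2 * q 0 - p 0 * q 2) * (c 2 / (p 0 * q 1 - p 1 * q 0)) := by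
    rw [← mul_div_assoc, eq_div_iff h]
    linear_combination (p 0) * h2 - (q 0) * h1
  have e2 : c 2 = (p 0 * q 1 - p 1 * q 0) * (c 2 / (p 0 * q 1 - p 1 * q 0)) := by
    rw [← mul_div_assoc, eq_div_iff h]
    ring
  rw [lf, Fin.sum_univ_three, Fin.sum_univ_three, hc, hc0, hc1]
  set r := c 2 / (p 0 * q 1 - p 1 * q 0) with hr
  rw [e0, e1]
  conv_lhs => rw [e2]
  simp only [MvPolynomial.smul_eq_C_mul, map_mul]
  ring

lemma lf_eval (p q : Fin 3 → K) : MvPolynomial.eval q (lf (p ⨯₃ q)) = 0 := by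
  simp [lf, Fin.sum_univ_three, cross_apply]
  ring

lemma exists_point [Infinite K] (w : P K) (hw : w ≠ 0) : ∃ p : Fin 3 → K,
    MvPolynomial.eval p w ≠ 0 := by
  by_contra h
  push Not at h
  apply hw
  apply MvPolynomial.funext
  intro x
  rw [h x, map_zero]

/-- restriction of the linear parts -/
noncomputable def Phi (p q : Fin 3 → K) (v : ℕ) : Mv K v →ₗ[K] (Fin v → Polynomial K) :=
  LinearMap.pi fun i => (ln p q).toLinearMap ∘ₗ (LinearMap.proj i) ∘ₗ (LinearMap.fst K _ _)

lemma Phi_apply (p q : Fin 3 → K) (v : ℕ) (τ : Mv K v) (i : Fin v) :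
    Phi p q v τ i = ln p q (τ.1 i) := rfl

end C2B_

open C2B_ in
theorem t_c2b (hN : T_NODIV.{u}) : T_C2b.{u} := by
  intro K _ _ f a hf h01 h12 d hd v g W hg hv htor j g0 Q hg0 hg0j hQ hdet
  obtain ⟨t, ht, hdne⟩ := htor
  set m := (Matrix.of fun k j => (t k).1 j).det with hm
  obtain ⟨p, hp⟩ := exists_point (m * X 0) (mul_ne_zero hdne (MvPolynomial.X_ne_zero 0))
  rw [map_mul, MvPolynomial.eval_X] at hp
  have hmp : MvPolynomial.eval p m ≠ 0 := left_ne_zero_of_mul hp
  have hp0 : p 0 ≠ 0 := right_ne_zero_of_mul hp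
  have hM : (C (p 0) * X 1 - C (p 1) * X 0 : P K) ≠ 0 := by
    intro h
    have := congrArg (MvPolynomial.eval (Pi.single 1 1 : Fin 3 → K)) h
    simp at this
    exact hp0 this
  obtain ⟨q, hq⟩ := exists_point (g0 * (C (p 0) * X 1 - C (p 1) * X 0)) (mul_ne_zero hg0 hM)
  rw [map_mul] at hq
  have hgq : MvPolynomial.eval q g0 ≠ 0 := left_ne_zero_of_mul hq
  have hpq : p 0 * q 1 - p 1 * q 0 ≠ 0 := by
    have := right_ne_zero_of_mul hq
    simpa using this
  set S : Submodule K (Fin v → Polynomial K) := (Sig f a d g).map (Phi p q v) with hS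
  -- the polynomial
  have hγc : (ln p q g0).coeff j ≠ 0 := by
    rw [coeff_ln p q j g0 hg0j]; exact hgq
  have hγ : ln p q g0 ≠ 0 := by
    intro h; rw [h, Polynomial.coeff_zero] at hγc; exact hγc rfl
  have hγd : j ≤ (ln p q g0).natDegree := Polynomial.le_natDegree_of_ne_zero hγc
  -- injectivity
  have hc2 : (p ⨯₃ q) 2 ≠ 0 := by
    simpa [cross_apply] using hpq
  have hinj : Function.Injective ((Phi p q v).domRestrict (Sig f a d g)) := by
    refine (injective_iff_map_eq_zero _).mpr ?_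
    intro τ hτ
    apply Subtype.ext
    have h0 : ∀ i, ln p q (τ.1.1 i) = 0 := fun i => congrFun hτ i
    have hdv : ∀ i, lf (p ⨯₃ q) ∣ τ.1.1 i := by
      intro i
      have hmem : τ.1.1 i ∈ Rd K 1 := τ.2.1 i
      apply lf_dvd p q hpq _ hmem
      · rw [← eval_ln p q, h0 i, Polynomial.eval_zero]
      · rw [← coeff_ln p q 1 _ hmem, h0 i, Polynomial.coeff_zero]
    refine hN K f a hf h01 h12 d hd v g W hg τ.1 τ.2 (lf (p ⨯₃ q)) (lf_mem _) (lf_ne _ hc2) hdv ?_
    intro k
    have hdk : lf (p ⨯₃ q) ∣ g0 * τ.1.2 k := by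
      rw [hQ τ.1 τ.2 k]
      exact Finset.dvd_sum fun i _ => (hdv i).mul_right _
    rcases (lf_prime _ hc2).dvd_or_dvd hdk with h | h
    · exfalso
      obtain ⟨w, hw⟩ := h
      apply hgq
      rw [hw, map_mul, lf_eval, zero_mul]
    · exact h
  have hfr : Module.finrank K S = Module.finrank K (Sig f a d g) := by
    rw [hS, ← LinearMap.range_domRestrict]
    exact LinearMap.finrank_range_of_inj hinj
  have key := t_pid K v S (ln p q g0) hγ ?_ ?_ ?_
  · rw [hfr] at key
    omega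
  · rintro s ⟨τ, hτ, rfl⟩ i
    rw [Phi_apply]
    exact natDegree_ln p q 1 _ (hτ.1 i)
  · intro c
    set M : Matrix (Fin v) (Fin v) K := Matrix.of fun k j => MvPolynomial.eval p ((t k).1 j) with hMdef
    have hMdet : M.det ≠ 0 := by
      have : M = (MvPolynomial.eval p).mapMatrix (Matrix.of fun k j => (t k).1 j) := rfl
      rw [this, ← RingHom.map_det]
      exact hmp
    set b : Fin v → K := c ᵥ* M⁻¹ with hb
    have hbM : b ᵥ* M = c := by
      rw [hb, Matrix.vecMul_vecMul, Matrix.nonsing_inv_mul _ (isUnit_iff_ne_zero.mpr hMdet),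
        Matrix.vecMul_one]
    refine ⟨Phi p q v (∑ k, b k • t k), ⟨_, ?_, rfl⟩, ?_⟩
    · exact Submodule.sum_mem _ fun k _ => Submodule.smul_mem _ _ (ht k)
    · intro i
      rw [Phi_apply, eval_ln]
      have h1 : (∑ k, b k • t k : Mv K v).1 i = ∑ k, b k • (t k).1 i := by
        rw [Prod.fst_sum, Finset.sum_apply]
        rfl
      rw [h1, map_sum, ← hbM]
      simp only [MvPolynomial.smul_eval]
      rfl
  · intro t' ht'
    choose τ hτ hτt using ht'
    have h1 : Matrix.of t' = (ln p q).toRingHom.mapMatrix (Matrix.of fun k i => (τ k).1 i) := by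
      ext1 k i
      rw [RingHom.mapMatrix_apply, Matrix.map_apply, Matrix.of_apply, Matrix.of_apply, ← hτt k]
      rfl
    rw [h1, ← RingHom.map_det]
    exact map_dvd (ln p q).toRingHom (hdet τ hτ)

end Pool.Agent.EGH
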