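import Pool.Agent.EGH.Targets

set_option autoImplicit false
open MvPolynomial Matrix

namespace Pool.Agent.EGH

universe u

theorem case2_zero (K : Type u) [Field K] (f : Fin 3 → P K) (d : ℕ) (g : Fin 0 → P K)
    (W : Submodule K (P K)) (hg : BasisMod f d W g) : up f d W = Jd f (d + 1) := by
  have hW : W = Jd f d := by
    rw [hg.span, Set.range_eq_empty, Submodule.span_empty, sup_bot_eq]
  unfold up
  rw [hW]
  apply sup_eq_right.2
  rw [Submodule.mul_le]
  intro x hx y hy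
  obtain ⟨hy1, hy2⟩ := Submodule.mem_inf.1 hy
  refine Submodule.mem_inf.2 ⟨?_, ?_⟩
  · rw [mem_homogeneousSubmodule] at hx hy1 ⊢
    have := hx.mul hy1
    rwa [add_comm] at this
  · exact Ideal.mul_mem_left (J f) x hy2

theorem t_case2 (hS : T_SIGMA.{u}) (ha : T_C2a.{u}) (hb : T_C2b.{u}) (hp : T_PDIM.{u})
    (h2 : N2) (h3 : N3) : T_CASE2.{u} := by
  intro K _ _ f a hf h01 h12 d hd1 hd2 hd3 v g W hg hT hN S hSeg hcard
  rcases Nat.eq_zero_or_pos v with hv | hv
  · subst hv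
    rw [case2_zero K f d g W hg]
    have hS0 : S = ∅ := Finset.card_eq_zero.1 hcard
    have hsh : shadow (a 0) (a 1) (a 2) d S = ∅ := by
      rw [hS0]
      unfold shadow
      simp
    rw [hsh, Finset.card_empty, zero_add]
  · obtain ⟨j, g0, Q, hj, hg0, hg0d, hQ1, hQ2, hQ3⟩ := ha K f a hf d v g W hg hv hT hN
    have h4 := hb K f a hf h01 h12 d hd2 v g W hg hv hT j g0 Q hg0 hg0d hQ2 hQ3
    have h5 := (hS K f a hf h01 h12 d hd2 v g W hg).2
    have hJ : ∀ i, g0 * g i ∈ J f := by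
      intro i
      rw [hQ1 i]
      exact Ideal.sum_mem _ fun k _ =>
        Ideal.mul_mem_left _ _ (Ideal.subset_span (Set.mem_range_self k))
    obtain ⟨e, he⟩ : ∃ e, d + e + 3 = a 0 + a 1 + a 2 := ⟨a 0 + a 1 + a 2 - d - 3, by omega⟩
    have h6 := hp K f a hf h01 h12 d e he v g W hg j g0 hj hg0 hg0d hJ
    have ha0 := hf.pos 0
    rcases Nat.lt_or_ge j (a 0) with hja | hja
    · have h7 := h2 (a 0) (a 1) (a 2) d e j ha0 h01 h12 hd1 hd2 he hja S hSeg (by omega)
      omega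
    · have h7 := h3 (a 0) (a 1) (a 2) d ha0 h01 h12 hd1 hd2 S hSeg
      omega

end Pool.Agent.EGH
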