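import Pool.Agent.EGH.Targets

set_option autoImplicit false
open MvPolynomial Matrix

namespace Pool.Agent.EGH

universe u

section
variable {K : Type u} [Field K]

lemma Rm_mul {i m k : ℕ} {u p : P K} (hu : u ∈ Rd K i) (hp : p ∈ Rm K m k) :
    u * p ∈ Rm K (m + i) k := by
  unfold Rm at hp ⊢
  split_ifs at hp with h
  · rw [if_pos (by omega)]
    have : m + i - k = i + (m - k) := by omega
    rw [this]
    exact IsHomogeneous.mul hu hp
  · rw [Submodule.mem_bot] at hp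
    subst hp
    rw [mul_zero]
    exact Submodule.zero_mem _

/-- every element of the `P`-span of `Sig` is a syzygy -/
lemma span_Sig_rel {f : Fin 3 → P K} {a : Fin 3 → ℕ} {d v : ℕ} {g : Fin v → P K}
    {x : Mv K v} (hx : x ∈ Submodule.span (P K) (Sig f a d g : Set (Mv K v))) :
    ∑ j, x.1 j * g j = ∑ k, x.2 k * f k := by
  induction hx using Submodule.span_induction with
  | mem x h => exact h.2.2
  | zero => simp
  | add x y _ _ hx hy =>
    simp only [Prod.fst_add, Prod.snd_add, Pi.add_apply, add_mul, Finset.sum_add_distrib, hx, hy]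
  | smul c x _ hx =>
    simp only [Prod.smul_fst, Prod.smul_snd, Pi.smul_apply, smul_eq_mul, mul_assoc,
      ← Finset.mul_sum, hx]

lemma Mi_le_span {f : Fin 3 → P K} {a : Fin 3 → ℕ} {d v : ℕ} {g : Fin v → P K} {i : ℕ}
    {x : Mv K v} (hx : x ∈ Mi i (Sig f a d g)) :
    x ∈ Submodule.span (P K) (Sig f a d g : Set (Mv K v)) := by
  unfold Mi at hx
  induction hx using Submodule.span_induction with
  | mem x h =>
    obtain ⟨u, _, τ, hτ, rfl⟩ := h
    exact Submodule.smul_mem _ _ (Submodule.subset_span hτ)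
  | zero => exact Submodule.zero_mem _
  | add x y _ _ hx hy => exact Submodule.add_mem _ hx hy
  | smul c x _ hx =>
    rw [← algebraMap_smul (P K) c x]
    exact Submodule.smul_mem _ _ hx

lemma Mi_deg {f : Fin 3 → P K} {a : Fin 3 → ℕ} {d v : ℕ} {g : Fin v → P K} {i : ℕ}
    {x : Mv K v} (hx : x ∈ Mi i (Sig f a d g)) :
    (∀ j, x.1 j ∈ Rd K (i + 1)) ∧ (∀ k, x.2 k ∈ Rm K (d + 1 + i) (a k)) := by
  unfold Mi at hx
  induction hx using Submodule.span_induction with
  | mem x h =>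
    obtain ⟨u, hu, τ, hτ, rfl⟩ := h
    refine ⟨fun j => ?_, fun k => ?_⟩
    · exact IsHomogeneous.mul hu (hτ.1 j)
    · exact Rm_mul hu (hτ.2.1 k)
  | zero => exact ⟨fun j => Submodule.zero_mem _, fun k => Submodule.zero_mem _⟩
  | add x y _ _ hx hy =>
    exact ⟨fun j => Submodule.add_mem _ (hx.1 j) (hy.1 j),
      fun k => Submodule.add_mem _ (hx.2 k) (hy.2 k)⟩
  | smul c x _ hx =>
    exact ⟨fun j => Submodule.smul_mem _ c (hx.1 j), fun k => Submodule.smul_mem _ c (hx.2 k)⟩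

end

/-- the final comparison -/
lemma case3_arith (σ v A B d ρ : ℕ) (hρ : v + 1 ≤ ρ) (hAB : d + 2 ≤ A + B)
    (h : ∀ i N : ℕ, N + A + B = d + 1 + i →
      2 * (i + 1) * σ + ρ * (i * (i + 1)) ≤ v * ((i + 2) * (i + 3)) + (N + 1) * (N + 2)) :
    σ + A + B ≤ 2 * v + d + 2 := by
  by_contra hcon
  push Not at hcon
  obtain ⟨n0, hn0⟩ : ∃ n0, A + B = d + 1 + n0 := ⟨A + B - (d + 1), by omega⟩
  have hn1 : 1 ≤ n0 := by omega
  have hσ : 2 * v + 2 ≤ σ + n0 := by omega
  -- choose `i` large, `i = N + n0`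
  have h1 := h (6 * v + n0 * n0 + n0 + 1 + n0) (6 * v + n0 * n0 + n0 + 1) (by omega)
  set N := 6 * v + n0 * n0 + n0 + 1 with hN
  have h2 : (v + 1) * ((N + n0) * (N + n0 + 1)) ≤ ρ * ((N + n0) * (N + n0 + 1)) :=
    Nat.mul_le_mul_right _ hρ
  have h3 : 2 * (N + n0 + 1) * (2 * v + 2) ≤ 2 * (N + n0 + 1) * (σ + n0) :=
    Nat.mul_le_mul_left _ hσ
  nlinarith [h1, h2, h3, hN, hn1]

theorem t_case3 (hpair : T_PAIR.{u}) (hgen : T_GEN.{u}) (hlb : T_LB.{u}) (hub : T_UB.{u})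
    (hnd : T_NODIV.{u}) (hsig : T_SIGMA.{u}) : T_CASE3.{u} := by
  intro K _ _ f a hf h01 h12 d d' hdb hdd v v' g g' W W' hg hg' hgg hT hnv hnv'
  have hfin := (hsig K f a hf h01 h12 d hdb v g W hg).1
  obtain ⟨p, hp, hrk⟩ := hgen K f a d v g hfin hT hnv
  unfold NV0 at hnv'
  push Not at hnv'
  obtain ⟨x', hx', hx'1, hx'2⟩ := hnv'
  apply case3_arith (Module.finrank K (Sig f a d g)) v (a 0) (a 1) d _ hrk (by omega)
  intro i N hN
  have hL := hlb K v (Sig f a d g) hfin p hp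
    (fun τ hτ l hl hl0 h1 h2 => hnd K f a hf h01 h12 d hdb v g W hg τ hτ l hl hl0 h1 h2) i
  have hU := hub K f a hf h01 h12 v i (d + 1 + i) N hN (Mi i (Sig f a d g))
    (fun x hx => (Mi_deg hx).1) (fun x hx => (Mi_deg hx).2) x'.2 hx'2
    (fun x hx hx1 => by
      refine ⟨?_, ?_⟩
      · have := span_Sig_rel (Mi_le_span hx)
        rw [← this, hx1]
        simp
      · exact hpair K f a hf d d' hdd v v' g g' hg.mem hg'.mem hgg x (Mi_le_span hx) hx1
          x' hx' hx'1)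
  exact hL.trans hU

end Pool.Agent.EGH
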