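import Pool.Agent.EGH.Targets

set_option autoImplicit false

/-!
# EGH in three variables: chain, existence, symmetry of segments
-/

namespace Pool.Agent.EGH

namespace Ces

theorem lexge_total (m m' : Mon) : lexge m m' ∨ lexge m' m := by
  unfold lexge
  omega

theorem mem_Std {a b c d : ℕ} {m : Mon} : m ∈ Std a b c d ↔
    (m.1 < a ∧ m.2.1 < b ∧ m.2.2 < c) ∧ m.1 + m.2.1 + m.2.2 = d := by
  unfold Std
  simp only [Finset.mem_filter, Finset.mem_product, Finset.mem_range]

end Ces

theorem n_ch : N_CH := by
  intro a b c d S T hS hT hcard m hm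
  by_contra hmT
  have h1 : T ⊆ S.erase m := by
    intro t ht
    rw [Finset.mem_erase]
    refine ⟨fun h => hmT (h ▸ ht), ?_⟩
    rcases Ces.lexge_total m t with h | h
    · exact absurd (hT.2 t ht m (hS.1 hm) h) hmT
    · exact hS.2 m hm t (hT.1 ht) h
  have h2 := Finset.card_le_card h1
  rw [Finset.card_erase_of_mem hm] at h2
  have h3 := Finset.card_pos.mpr ⟨m, hm⟩
  omega

theorem n_ex : N_EX := by
  intro a b c d k
  induction k with
  | zero =>
    intro _
    exact ⟨∅, ⟨Finset.empty_subset _, fun m hm => absurd hm (Finset.notMem_empty m)⟩, rfl⟩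
  | succ k ih =>
    intro hk
    obtain ⟨S, hS, hSk⟩ := ih (by omega)
    have hne : (Std a b c d \ S).Nonempty := by
      rw [← Finset.card_pos, Finset.card_sdiff_of_subset hS.1]
      omega
    obtain ⟨x, hx, hmax⟩ := Finset.exists_max_image (Std a b c d \ S)
      (fun m => toLex (m.1, m.2.1)) hne
    rw [Finset.mem_sdiff] at hx
    refine ⟨insert x S, ⟨?_, ?_⟩, ?_⟩
    · intro y hy
      rcases Finset.mem_insert.mp hy with h | h
      · rw [h]
        exact hx.1
      · exact hS.1 h
    · intro m hm m' hm' hge
      rcases Finset.mem_insert.mp hm with h | h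
      · subst h
        by_cases hS' : m' ∈ S
        · exact Finset.mem_insert_of_mem hS'
        · have h1 := hmax m' (Finset.mem_sdiff.mpr ⟨hm', hS'⟩)
          rw [Prod.Lex.toLex_le_toLex] at h1
          rw [Finset.mem_insert]
          left
          have h2 := Ces.mem_Std.mp hm'
          have h3 := Ces.mem_Std.mp hx.1
          unfold lexge at hge
          obtain ⟨x1, x2, x3⟩ := m
          obtain ⟨y1, y2, y3⟩ := m'
          simp only at h1 h2 h3 hge
          have h4 : y1 = x1 := by omega
          have h5 : y2 = x2 := by omega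
          have h6 : y3 = x3 := by omega
          rw [h4, h5, h6]
      · exact Finset.mem_insert_of_mem (hS.2 m h m' hm' hge)
    · rw [Finset.card_insert_of_notMem hx.2, hSk]

theorem n_sym : N_SYM := by
  intro a b c d e h
  refine Finset.card_nbij' (fun m => (a - 1 - m.1, b - 1 - m.2.1, c - 1 - m.2.2))
    (fun m => (a - 1 - m.1, b - 1 - m.2.1, c - 1 - m.2.2)) ?_ ?_ ?_ ?_
  · intro m hm
    have h1 := Ces.mem_Std.mp hm
    refine Ces.mem_Std.mpr ?_
    simp only
    omega
  · intro m hm
    have h1 := Ces.mem_Std.mp hm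
    refine Ces.mem_Std.mpr ?_
    simp only
    omega
  · intro m hm
    have h1 := Ces.mem_Std.mp hm
    obtain ⟨x1, x2, x3⟩ := m
    simp only at h1 ⊢
    refine Prod.ext ?_ (Prod.ext ?_ ?_)
    · simp only
      omega
    · simp only
      omega
    · simp only
      omega
  · intro m hm
    have h1 := Ces.mem_Std.mp hm
    obtain ⟨x1, x2, x3⟩ := m
    simp only at h1 ⊢
    refine Prod.ext ?_ (Prod.ext ?_ ?_)
    · simp only
      omega
    · simp only
      omega
    · simp only
      omega

end Pool.Agent.EGH
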