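import Pool.Agent.EGH.Targets

set_option autoImplicit false
open MvPolynomial Matrix

namespace Pool.Agent.EGH

universe u

theorem t_d1 (hk : T_KOSZ.{u}) (hm : T_MONCI.{u}) (hd : T_MONDIM.{u}) : T_D1.{u} := by
  intro K _ f a hf d
  have h1 := hk K f a hf d
  have h2 := hk K _ a (hm K a hf.pos) d
  have h3 := hd K a d
  omega

theorem std_trunc (a b c d e : ℕ) (he : e ≤ d + 1) :
    Std (min a (d + 2)) (min b (d + 2)) (min c (d + 2)) e = Std a b c e := by
  ext ⟨i, j, k⟩
  simp only [Std, Finset.mem_filter, Finset.mem_product, Finset.mem_range]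
  omega

theorem n_trunc : N_TRUNC := by
  intro a b c d
  refine ⟨fun e he => std_trunc a b c d e he, fun S => ?_, fun S => ?_⟩
  · simp only [IsSeg, std_trunc a b c d d (by omega)]
  · simp only [shadow, std_trunc a b c d (d + 1) le_rfl]

theorem n5 : N5 := by
  intro a b c d hab hc S hS
  have hinj : (shadow a b c d S).card ≤ (S.image (fun m : Mon => (m.1, m.2.1, m.2.2 + 1))).card := by
    apply Finset.card_le_card
    rintro ⟨i, j, k⟩ hx
    simp only [shadow, Std, Finset.mem_filter, Finset.mem_product, Finset.mem_range] at hx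
    obtain ⟨⟨⟨hi, hj, hk⟩, hs⟩, n, hn, hle⟩ := hx
    have hnS := hS.1 hn
    obtain ⟨n1, n2, n3⟩ := n
    simp only [Std, Finset.mem_filter, Finset.mem_product, Finset.mem_range] at hnS
    simp only [Prod.mk_le_mk] at hle
    obtain ⟨⟨g1, g2, g3⟩, g4⟩ := hnS
    obtain ⟨l1, l2, l3⟩ := hle
    rw [Finset.mem_image]
    refine ⟨(i, j, k - 1), ?_, ?_⟩
    · refine hS.2 _ hn (i, j, k - 1) ?_ ?_
      · simp only [Std, Finset.mem_filter, Finset.mem_product, Finset.mem_range]
        omega
      · simp only [lexge]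
        omega
    · simp only [Prod.mk.injEq, true_and]
      omega
  exact hinj.trans Finset.card_image_le

end Pool.Agent.EGH
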