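import Pool.Agent.EGH.Targets

set_option autoImplicit false
open MvPolynomial Matrix

/-!
T_DEP: depth lemma for two coprime forms.
-/

namespace Pool.Agent.EGH

universe u

theorem t_dep (hK1 : T_K1.{u}) (hK2 : T_K2.{u}) (hM : T_MONCI.{u}) : T_DEP.{u} := by
  intro K _ f0 f1 hf0 hreg p hp
  have hCI : CI (fun i => (X i : P K)) (fun _ => 1) := by
    have := hM K (fun _ => 1) (fun _ => le_rfl)
    simpa only [pow_one] using this
  have hp' : ∀ i : Fin 3, ∃ α β : P K, α * f0 + β * f1 = X i * p := fun i =>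
    Ideal.mem_span_pair.1 (hp i)
  choose α β hαβ using hp'
  -- products of the vector of variables
  have hA0 : (X 1 * β 2 - X 2 * β 1) * f1 = -(X 1 * α 2 - X 2 * α 1) * f0 := by
    linear_combination (X 1 : P K) * hαβ 2 - (X 2 : P K) * hαβ 1
  have hA1 : (X 2 * β 0 - X 0 * β 2) * f1 = -(X 2 * α 0 - X 0 * α 2) * f0 := by
    linear_combination (X 2 : P K) * hαβ 0 - (X 0 : P K) * hαβ 2
  have hA2 : (X 0 * β 1 - X 1 * β 0) * f1 = -(X 0 * α 1 - X 1 * α 0) * f0 := by
    linear_combination (X 0 : P K) * hαβ 1 - (X 1 : P K) * hαβ 0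
  obtain ⟨ε0, hε0⟩ := hreg _ _ hA0
  obtain ⟨ε1, hε1⟩ := hreg _ _ hA1
  obtain ⟨ε2, hε2⟩ := hreg _ _ hA2
  have hB0 : X 1 * α 2 - X 2 * α 1 = -ε0 * f1 := by
    apply mul_right_cancel₀ hf0
    linear_combination hA0 - f1 * hε0
  have hB1 : X 2 * α 0 - X 0 * α 2 = -ε1 * f1 := by
    apply mul_right_cancel₀ hf0
    linear_combination hA1 - f1 * hε1
  have hB2 : X 0 * α 1 - X 1 * α 0 = -ε2 * f1 := by
    apply mul_right_cancel₀ hf0
    linear_combination hA2 - f1 * hε2
  have hdot : ε0 * X 0 + ε1 * X 1 + ε2 * X 2 = (0 : P K) := by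
    apply mul_right_cancel₀ hf0
    linear_combination -(X 0 : P K) * hε0 - (X 1 : P K) * hε1 - (X 2 : P K) * hε2
  obtain ⟨δ, hδ⟩ := (hK1 K _ _ hCI).1 ![ε0, ε1, ε2] (by
    rw [Fin.sum_univ_three]
    simpa using hdot)
  have hδ0 : ε0 = X 1 * δ 2 - X 2 * δ 1 := by
    have := congrFun hδ 0
    simpa [cross_apply] using this
  have hδ1 : ε1 = X 2 * δ 0 - X 0 * δ 2 := by
    have := congrFun hδ 1
    simpa [cross_apply] using this
  have hδ2 : ε2 = X 0 * δ 1 - X 1 * δ 0 := by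
    have := congrFun hδ 2
    simpa [cross_apply] using this
  obtain ⟨η, hη⟩ := (hK2 K _ _ hCI).1 (fun i => β i - f0 * δ i) (by
    rw [cross_apply]
    ext1 i
    fin_cases i
    · simp
      linear_combination hε0 + f0 * hδ0
    · simp
      linear_combination hε1 + f0 * hδ1
    · simp
      linear_combination hε2 + f0 * hδ2)
  obtain ⟨θ, hθ⟩ := (hK2 K _ _ hCI).1 (fun i => α i + f1 * δ i) (by
    rw [cross_apply]
    ext1 i
    fin_cases i
    · simp
      linear_combination hB0 - f1 * hδ0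
    · simp
      linear_combination hB1 - f1 * hδ1
    · simp
      linear_combination hB2 - f1 * hδ2)
  have h1 : β 0 - f0 * δ 0 = η * X 0 := by simpa using congrFun hη 0
  have h2 : α 0 + f1 * δ 0 = θ * X 0 := by simpa using congrFun hθ 0
  rw [Ideal.mem_span_pair]
  refine ⟨θ, η, ?_⟩
  apply mul_left_cancel₀ (X_ne_zero (R := K) (0 : Fin 3))
  linear_combination hαβ 0 - f0 * h2 - f1 * h1

end Pool.Agent.EGH
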