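import Pool.Agent.EGH.Targets

set_option autoImplicit false
open MvPolynomial

/-!
Dimension of the space of forms of degree `d` in three variables.
-/

namespace Pool.Agent.EGH

universe u

namespace DIMR_

lemma set_eq (d : ℕ) : {m : Fin 3 →₀ ℕ | m.degree = d} =
    ((Finset.univ : Finset (Fin 3)).finsuppAntidiag d : Set (Fin 3 →₀ ℕ)) := by
  ext m
  simp [Finset.mem_finsuppAntidiag, Finsupp.degree_eq_sum]

lemma Rd_eq (K : Type u) [Field K] (d : ℕ) : Rd K d =
    restrictSupport K ((Finset.univ : Finset (Fin 3)).finsuppAntidiag d : Set (Fin 3 →₀ ℕ)) := by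
  rw [← set_eq]
  exact homogeneousSubmodule_eq_finsupp_supported (Fin 3) K d

lemma fin_rank (K : Type u) [Field K] (d : ℕ) :
    Module.finrank K (Rd K d) = (d + 2).choose 2 := by
  rw [Rd_eq]
  have b := basisRestrictSupport K
    ((Finset.univ : Finset (Fin 3)).finsuppAntidiag d : Set (Fin 3 →₀ ℕ))
  rw [Module.finrank_eq_card_basis b]
  have e : Fintype.card (((Finset.univ : Finset (Fin 3)).finsuppAntidiag d :
      Set (Fin 3 →₀ ℕ)) : Type) = ((Finset.univ : Finset (Fin 3)).finsuppAntidiag d).card := by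
    simp
  rw [e, Finset.card_finsuppAntidiag_nat_eq_choose, Finset.card_univ, Fintype.card_fin]
  have h2 : 3 + d - 1 = d + 2 := by omega
  rw [h2]
  exact Nat.choose_symm_add

end DIMR_

open DIMR_ in
theorem t_dimr : T_DIMR.{u} := by
  intro K _ d
  constructor
  · rw [Module.finite_def, Submodule.fg_top]
    exact homogeneousSubmodule_fg (Fin 3) K d
  · rw [fin_rank, Nat.choose_two_right]
    have h : (d + 2) * (d + 2 - 1) = (d + 1) * (d + 2) := by
      have : d + 2 - 1 = d + 1 := by omega
      rw [this]; ring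
    rw [h]
    exact Nat.mul_div_cancel' (Nat.even_mul_succ_self (d + 1)).two_dvd

end Pool.Agent.EGH
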