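import Pool.Agent.EGH.Targets

set_option autoImplicit false
open MvPolynomial Matrix

namespace Pool.Agent.EGH

universe u

namespace GEN_

variable {K : Type u} [Field K]

/-- the map `x ↦ m x - Σ_k (Σ_j x_j adj_jk) t_k` -/
noncomputable def Phi {R : Type u} [CommRing R] {v : ℕ} (t : Fin v → (Fin v → R) × (Fin 3 → R)) :
    ((Fin v → R) × (Fin 3 → R)) →ₗ[R] ((Fin v → R) × (Fin 3 → R)) where
  toFun x := (Matrix.of fun k j => (t k).1 j).det • x -
    ∑ k, (∑ j, x.1 j * (Matrix.of fun k j => (t k).1 j).adjugate j k) • t k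
  map_add' x y := by
    simp only [Prod.fst_add, Pi.add_apply, add_mul, Finset.sum_add_distrib, add_smul, smul_add]
    abel
  map_smul' c x := by
    simp only [Prod.smul_fst, Pi.smul_apply, smul_eq_mul, mul_assoc, ← Finset.mul_sum, mul_smul,
      RingHom.id_apply, smul_sub, Finset.smul_sum]
    rw [smul_comm]

theorem Phi_apply {R : Type u} [CommRing R] {v : ℕ} (t : Fin v → (Fin v → R) × (Fin 3 → R))
    (x : (Fin v → R) × (Fin 3 → R)) : Phi t x = (Matrix.of fun k j => (t k).1 j).det • x -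
    ∑ k, (∑ j, x.1 j * (Matrix.of fun k j => (t k).1 j).adjugate j k) • t k := rfl

theorem Phi_self {R : Type u} [CommRing R] {v : ℕ} (t : Fin v → (Fin v → R) × (Fin 3 → R))
    (i : Fin v) : Phi t (t i) = 0 := by
  have h : ∀ k, ∑ j, (t i).1 j * (Matrix.of fun k j => (t k).1 j).adjugate j k =
      if i = k then (Matrix.of fun k j => (t k).1 j).det else 0 := by
    intro k
    have := congrFun (congrFun (Matrix.mul_adjugate (Matrix.of fun k j => (t k).1 j)) i) k
    rw [Matrix.mul_apply] at this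
    simpa [Matrix.one_apply, Matrix.smul_apply] using this
  rw [Phi_apply]
  simp only [h, ite_smul, zero_smul, Finset.sum_ite_eq, Finset.mem_univ, if_true, sub_self]

theorem Phi_vert {R : Type u} [CommRing R] {v : ℕ} (t : Fin v → (Fin v → R) × (Fin 3 → R))
    (x : (Fin v → R) × (Fin 3 → R)) (hx : x.1 = 0) :
    Phi t x = (Matrix.of fun k j => (t k).1 j).det • x := by
  rw [Phi_apply, hx]
  simp

theorem evp_apply (v : ℕ) (p : Fin 3 → K) (x : Mv K v) :
    evp v p x = (fun j => aeval p (x.1 j), fun j => aeval p (x.2 j)) := rfl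

theorem evp_smul (v : ℕ) (p : Fin 3 → K) (c : P K) (x : Mv K v) :
    evp v p (c • x) = (aeval p c : K) • evp v p x := by
  rw [evp_apply, evp_apply]
  ext j
  · simp
  · simp

theorem evp_Phi (v : ℕ) (p : Fin 3 → K) (t : Fin v → Mv K v) (x : Mv K v) :
    evp v p (Phi t x) = Phi (fun k => evp v p (t k)) (evp v p x) := by
  have hm : (Matrix.of fun k j => (evp v p (t k)).1 j) =
      (aeval p : P K →ₐ[K] K).mapMatrix (Matrix.of fun k j => (t k).1 j) := by
    ext k j
    simp [evp_apply, Matrix.map_apply]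
  rw [Phi_apply, Phi_apply, map_sub, evp_smul, map_sum, hm]
  rw [← AlgHom.map_det, ← AlgHom.map_adjugate]
  congr 1
  refine Finset.sum_congr rfl fun k _ => ?_
  rw [evp_smul]
  congr 1
  rw [map_sum]
  refine Finset.sum_congr rfl fun j _ => ?_
  rw [map_mul]
  rfl

theorem exists_eval_ne [Infinite K] (q : P K) (hq : q ≠ 0) : ∃ p : Fin 3 → K, aeval p q ≠ 0 := by
  by_contra h
  push Not at h
  apply hq
  apply MvPolynomial.funext
  intro x
  rw [map_zero, ← h x]
  rfl

end GEN_

theorem t_gen : T_GEN.{u} := by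
  intro K _ _ f a d v g _ hT hN
  obtain ⟨t, ht, hdet⟩ := hT
  unfold NV0 at hN
  push Not at hN
  obtain ⟨x, hx, hx1, hx2⟩ := hN
  -- some element of `Sig` is not killed by `Phi`
  have h1 : ∃ τ ∈ Sig f a d g, GEN_.Phi t τ ≠ 0 := by
    by_contra hcon
    push Not at hcon
    have hle : Submodule.span (P K) (Sig f a d g : Set (Mv K v)) ≤ LinearMap.ker (GEN_.Phi t) := by
      rw [Submodule.span_le]
      intro τ hτ
      exact LinearMap.mem_ker.2 (hcon τ hτ)
    have h0 : GEN_.Phi t x = 0 := LinearMap.mem_ker.1 (hle hx)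
    rw [GEN_.Phi_vert t x hx1] at h0
    apply hx2
    funext k
    have := congrFun (congrArg Prod.snd h0) k
    simp only [Prod.smul_snd, Pi.smul_apply, smul_eq_mul, Prod.snd_zero, Pi.zero_apply,
      mul_eq_zero] at this
    exact this.resolve_left hdet
  obtain ⟨τ, hτ, hΦ⟩ := h1
  -- a nonzero component
  have h2 : ∃ c : P K, c ≠ 0 ∧ ∀ p : Fin 3 → K, aeval p c ≠ 0 → evp v p (GEN_.Phi t τ) ≠ 0 := by
    by_cases hj : ∃ j, (GEN_.Phi t τ).1 j ≠ 0
    · obtain ⟨j, hj⟩ := hj
      refine ⟨_, hj, fun p hp h0 => hp ?_⟩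
      have := congrFun (congrArg Prod.fst h0) j
      simpa [GEN_.evp_apply] using this
    · by_cases hk : ∃ k, (GEN_.Phi t τ).2 k ≠ 0
      · obtain ⟨k, hk⟩ := hk
        refine ⟨_, hk, fun p hp h0 => hp ?_⟩
        have := congrFun (congrArg Prod.snd h0) k
        simpa [GEN_.evp_apply] using this
      · push Not at hj hk
        exact absurd (Prod.ext (funext hj) (funext hk)) hΦ
  obtain ⟨c, hc, hcp⟩ := h2
  obtain ⟨p, hp⟩ := GEN_.exists_eval_ne
    ((Matrix.of fun k j => (t k).1 j).det * c * X 0)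
    (mul_ne_zero (mul_ne_zero hdet hc) (MvPolynomial.X_ne_zero 0))
  rw [map_mul, map_mul, aeval_X] at hp
  have hp0 : p 0 ≠ 0 := right_ne_zero_of_mul hp
  have hpc : aeval p c ≠ 0 := right_ne_zero_of_mul (left_ne_zero_of_mul hp)
  have hpm : aeval p (Matrix.of fun k j => (t k).1 j).det ≠ 0 :=
    left_ne_zero_of_mul (left_ne_zero_of_mul hp)
  refine ⟨p, fun h => hp0 (by rw [h]; rfl), ?_⟩
  set s : Fin v → (Fin v → K) × (Fin 3 → K) := fun k => evp v p (t k) with hs
  have hne : evp v p τ ∉ Submodule.span K (Set.range s) := by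
    intro hmem
    have hle : Submodule.span K (Set.range s) ≤ LinearMap.ker (GEN_.Phi s) := by
      rw [Submodule.span_le]
      rintro _ ⟨k, rfl⟩
      exact LinearMap.mem_ker.2 (GEN_.Phi_self s k)
    have h0 := LinearMap.mem_ker.1 (hle hmem)
    rw [hs, ← GEN_.evp_Phi] at h0
    exact hcp p hpc h0
  have hli : LinearIndependent K s := by
    have hm : (Matrix.of fun k j => (s k).1 j) =
        (aeval p : P K →ₐ[K] K).mapMatrix (Matrix.of fun k j => (t k).1 j) := by
      ext k j
      simp [hs, GEN_.evp_apply, Matrix.map_apply]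
    have hd : (Matrix.of fun k j => (s k).1 j).det ≠ 0 := by
      rw [hm, ← AlgHom.map_det]
      exact hpm
    have hrow : LinearIndependent K (Matrix.of fun k j => (s k).1 j).row :=
      Matrix.linearIndependent_rows_of_det_ne_zero hd
    have : LinearIndependent K ((LinearMap.fst K (Fin v → K) (Fin 3 → K)) ∘ s) := hrow
    exact LinearIndependent.of_comp _ this
  have hcons : LinearIndependent K (Fin.cons (evp v p τ) s : Fin (v + 1) → _) :=
    linearIndependent_finCons.2 ⟨hli, hne⟩
  have hcard := finrank_span_eq_card hcons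
  rw [Fintype.card_fin] at hcard
  rw [← hcard]
  apply Submodule.finrank_mono
  rw [Submodule.span_le]
  rintro _ ⟨k, rfl⟩
  refine Fin.cases ?_ (fun i => ?_) k
  · exact Submodule.mem_map.2 ⟨τ, hτ, rfl⟩
  · exact Submodule.mem_map.2 ⟨t i, ht i, rfl⟩

end Pool.Agent.EGH
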