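import Pool.Agent.EGH.Targets

set_option autoImplicit false
open MvPolynomial

namespace Pool.Agent.EGH

universe u

/-- Homogeneous component of a product with a homogeneous factor. -/
theorem homComp_mul {K : Type u} [Field K] (c f : P K) (a : ℕ) (hf : f.IsHomogeneous a)
    (d : ℕ) : homogeneousComponent d (c * f) =
      (if a ≤ d then homogeneousComponent (d - a) c else 0) * f := by
  conv_lhs => rw [← sum_homogeneousComponent c]
  rw [Finset.sum_mul, map_sum]
  have h1 : ∀ i, homogeneousComponent d (homogeneousComponent i c * f) =
      if d = i + a then homogeneousComponent i c * f else 0 := by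
    intro i
    exact homogeneousComponent_of_mem
      (show homogeneousComponent i c * f ∈ homogeneousSubmodule (Fin 3) K (i + a) from
        (homogeneousComponent_isHomogeneous i c).mul hf)
  simp only [h1]
  split_ifs with had
  · by_cases hle : d - a ∈ Finset.range (c.totalDegree + 1)
    · rw [Finset.sum_eq_single_of_mem (d - a) hle]
      · rw [if_pos (by omega)]
      · intro b _ hb
        rw [if_neg (by omega)]
    · rw [Finset.sum_eq_zero, homogeneousComponent_eq_zero, zero_mul]
      · simp only [Finset.mem_range, not_lt] at hle; omega
      · intro b hb
        rw [if_neg]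
        intro h
        apply hle
        have : d - a = b := by omega
        rw [this]; exact hb
  · rw [zero_mul]
    exact Finset.sum_eq_zero fun b _ => if_neg (by omega)

theorem t_jd : T_JD.{u} := by
  intro K _ f a hom d p
  constructor
  · rintro ⟨h1, h2⟩
    have h2' : p ∈ J f := h2
    rw [J, Ideal.mem_span_range_iff_exists_fun] at h2'
    obtain ⟨c, hc⟩ := h2'
    refine ⟨fun k => if a k ≤ d then homogeneousComponent (d - a k) (c k) else 0, ?_, ?_⟩
    · intro k
      unfold Rm
      dsimp only
      split_ifs with h
      · exact homogeneousComponent_mem _ _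
      · exact Submodule.zero_mem _
    · have h3 : homogeneousComponent d p = p := homogeneousComponent_eq_self h1
      rw [← h3, ← hc, map_sum]
      exact Finset.sum_congr rfl fun k _ => homComp_mul (c k) (f k) (a k) (hom k) d
  · rintro ⟨y, hy, rfl⟩
    refine ⟨?_, ?_⟩
    · refine Submodule.sum_mem _ fun k _ => ?_
      have h := hy k
      unfold Rm at h
      split_ifs at h with had
      · have h4 : (y k * f k).IsHomogeneous (d - a k + a k) :=
          IsHomogeneous.mul h (hom k)
        rw [Nat.sub_add_cancel had] at h4
        exact h4
      · rw [Submodule.mem_bot] at h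
        rw [h, zero_mul]
        exact Submodule.zero_mem _
    · show ∑ k, y k * f k ∈ J f
      exact Ideal.sum_mem _ fun k _ => Ideal.mul_mem_left _ _
        (Ideal.subset_span ⟨k, rfl⟩)

end Pool.Agent.EGH
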