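import Pool.Agent.EGH.Targets

set_option autoImplicit false
open MvPolynomial Matrix

namespace Pool.Agent.EGH

universe u

noncomputable section

namespace K1

variable {K : Type u} [Field K]

/-- homogeneous component of degree `n - k` (zero if `n < k`). -/
def tc (n k : ℕ) (p : P K) : P K := if k ≤ n then homogeneousComponent (n - k) p else 0

attribute [local instance] MvPolynomial.gradedAlgebra in
theorem homComp_mul {f : P K} {a : ℕ} (hf : f.IsHomogeneous a) (n : ℕ) (p : P K) :
    homogeneousComponent n (f * p) = if a ≤ n then f * homogeneousComponent (n - a) p else 0 := by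
  have h := DirectSum.coe_decompose_mul_of_left_mem (homogeneousSubmodule (Fin 3) K) n
    (a := f) (b := p) (i := a) hf
  rw [← decomposition.decompose'_apply (f * p) n, ← decomposition.decompose'_apply p (n - a)]
  exact h

theorem tc_mem (n k : ℕ) (p : P K) : tc n k p ∈ Rm K n k := by
  unfold tc Rm
  split_ifs with h
  · exact homogeneousComponent_mem _ _
  · exact Submodule.zero_mem _

theorem tc_self {n k : ℕ} {p : P K} (hp : p ∈ Rm K n k) : tc n k p = p := by
  unfold Rm at hp
  unfold tc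
  split_ifs at hp ⊢ with h
  · exact homogeneousComponent_eq_self hp
  · exact ((Submodule.mem_bot K).1 hp).symm

theorem tc_mul {f : P K} {a : ℕ} (hf : f.IsHomogeneous a) (n k : ℕ) (p : P K) :
    tc n k (f * p) = f * tc n (k + a) p := by
  unfold tc
  by_cases h1 : k ≤ n
  · rw [if_pos h1, homComp_mul hf]
    by_cases h2 : a ≤ n - k
    · rw [if_pos h2, if_pos (show k + a ≤ n by omega), Nat.sub_sub]
    · rw [if_neg h2, if_neg (show ¬ k + a ≤ n by omega), mul_zero]
  · rw [if_neg h1, if_neg (show ¬ k + a ≤ n by omega), mul_zero]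

theorem tc_sub (n k : ℕ) (p q : P K) : tc n k (p - q) = tc n k p - tc n k q := by
  unfold tc
  split_ifs
  · exact map_sub _ _ _
  · rw [sub_zero]

theorem tc_shift (n k j : ℕ) (p : P K) : tc (n + j) (k + j) p = tc n k p := by
  unfold tc
  by_cases h : k ≤ n
  · rw [if_pos h, if_pos (show k + j ≤ n + j by omega), Nat.add_sub_add_right]
  · rw [if_neg h, if_neg (show ¬ k + j ≤ n + j by omega)]

theorem cross3 (f h : Fin 3 → P K) : f ⨯₃ h =
    ![f 1 * h 2 - f 2 * h 1, f 2 * h 0 - f 0 * h 2, f 0 * h 1 - f 1 * h 0] := by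
  rw [cross_apply]

theorem ungraded {f : Fin 3 → P K} {a : Fin 3 → ℕ} (hf : CI f a) (y : Fin 3 → P K)
    (hy : ∑ k, y k * f k = 0) : ∃ h : Fin 3 → P K, y = f ⨯₃ h := by
  rw [Fin.sum_univ_three] at hy
  obtain ⟨α, β, h2⟩ := hf.reg2 (y 2) (-(y 0)) (-(y 1)) (by linear_combination hy)
  obtain ⟨γ, h1⟩ := hf.reg1 (y 1 + β * f 2) (-(y 0 + α * f 2)) (by
    rw [h2] at hy
    linear_combination hy)
  have h0 : y 0 + α * f 2 = -(γ * f 1) := by
    have h3 : f 0 * (y 0 + α * f 2 + γ * f 1) = 0 := by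
      rw [h2] at hy
      linear_combination hy - f 1 * h1
    rcases mul_eq_zero.1 h3 with h4 | h4
    · exact absurd h4 hf.ne
    · linear_combination h4
  refine ⟨![-β, α, -γ], ?_⟩
  rw [cross3]
  ext1 k
  fin_cases k
  · simp only [Fin.zero_eta, Matrix.cons_val]
    linear_combination h0
  · simp only [Fin.mk_one, Matrix.cons_val]
    linear_combination h1
  · simp only [Fin.reduceFinMk, Matrix.cons_val]
    linear_combination h2

end K1

open K1 in
theorem t_k1 : T_K1.{u} := by
  intro K _ f a hf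
  refine ⟨fun y hy => ungraded hf y hy, ?_⟩
  intro m y hy hsum
  obtain ⟨h, hh⟩ := ungraded hf y hsum
  refine ⟨fun k => tc (m + a k) (a 0 + a 1 + a 2) (h k), fun k => tc_mem _ _ _, ?_⟩
  rw [cross3] at hh ⊢
  have e0 : y 0 = f 1 * h 2 - f 2 * h 1 := by rw [hh]; simp only [Matrix.cons_val]
  have e1 : y 1 = f 2 * h 0 - f 0 * h 2 := by rw [hh]; simp only [Matrix.cons_val]
  have e2 : y 2 = f 0 * h 1 - f 1 * h 0 := by rw [hh]; simp only [Matrix.cons_val]
  have s0 : tc (m + a 0) (a 0 + a 1 + a 2) (h 0) = tc m (a 1 + a 2) (h 0) := by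
    rw [← tc_shift m (a 1 + a 2) (a 0)]
    congr 1
    omega
  have s1 : tc (m + a 1) (a 0 + a 1 + a 2) (h 1) = tc m (a 0 + a 2) (h 1) := by
    rw [← tc_shift m (a 0 + a 2) (a 1)]
    congr 1
    omega
  have s2 : tc (m + a 2) (a 0 + a 1 + a 2) (h 2) = tc m (a 0 + a 1) (h 2) := by
    rw [← tc_shift m (a 0 + a 1) (a 2)]
  ext1 k
  fin_cases k
  · simp only [Fin.zero_eta, Matrix.cons_val]
    rw [← tc_self (hy 0), e0, tc_sub, tc_mul (hf.hom 1), tc_mul (hf.hom 2), s1, s2]
  · simp only [Fin.mk_one, Matrix.cons_val]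
    rw [← tc_self (hy 1), e1, tc_sub, tc_mul (hf.hom 2), tc_mul (hf.hom 0), s0, s2,
      add_comm (a 1) (a 0)]
  · simp only [Fin.reduceFinMk, Matrix.cons_val]
    rw [← tc_self (hy 2), e2, tc_sub, tc_mul (hf.hom 0), tc_mul (hf.hom 1), s0, s1,
      add_comm (a 2) (a 0), add_comm (a 2) (a 1)]

end

end Pool.Agent.EGH
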