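import Pool.Agent.EGH.Targets

set_option autoImplicit false
open MvPolynomial Matrix

namespace Pool.Agent.EGH

universe u

noncomputable section

namespace K2

variable {K : Type u} [Field K]

theorem cross3 (f h : Fin 3 → P K) : f ⨯₃ h =
    ![f 1 * h 2 - f 2 * h 1, f 2 * h 0 - f 0 * h 2, f 0 * h 1 - f 1 * h 0] := by
  rw [cross_apply]

theorem ungraded {f : Fin 3 → P K} {a : Fin 3 → ℕ} (hf : CI f a) (z : Fin 3 → P K)
    (hz : f ⨯₃ z = 0) : ∃ w : P K, z = w • f := by
  rw [cross3] at hz
  have e1 := congrFun hz 1
  have e2 := congrFun hz 2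
  simp only [Matrix.cons_val, Pi.zero_apply] at e1 e2
  obtain ⟨w, hw⟩ := hf.reg1 (z 0) (z 1) (by linear_combination -e2)
  refine ⟨w, ?_⟩
  ext1 k
  fin_cases k
  · simpa using hw
  · have h3 : f 0 * (z 1 - w * f 1) = 0 := by
      rw [hw] at e2
      linear_combination e2
    rcases mul_eq_zero.1 h3 with h4 | h4
    · exact absurd h4 hf.ne
    · simp only [Fin.mk_one, Pi.smul_apply, smul_eq_mul]
      linear_combination h4
  · have h3 : f 0 * (z 2 - w * f 2) = 0 := by
      rw [hw] at e1
      linear_combination -e1
    rcases mul_eq_zero.1 h3 with h4 | h4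
    · exact absurd h4 hf.ne
    · simp only [Fin.reduceFinMk, Pi.smul_apply, smul_eq_mul]
      linear_combination h4

attribute [local instance] MvPolynomial.gradedAlgebra in
theorem homComp_mul {f : P K} {a : ℕ} (hf : f.IsHomogeneous a) (n : ℕ) (p : P K) :
    homogeneousComponent n (f * p) = if a ≤ n then f * homogeneousComponent (n - a) p else 0 := by
  have h := DirectSum.coe_decompose_mul_of_left_mem (homogeneousSubmodule (Fin 3) K) n
    (a := f) (b := p) (i := a) hf
  rw [← decomposition.decompose'_apply (f * p) n, ← decomposition.decompose'_apply p (n - a)]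
  exact h

/-- if `w * f` has only a component in degree `m + a - A`, so has `w` in degree `m - A` -/
theorem graded_cofactor {f w : P K} {a m A : ℕ} (hf : f.IsHomogeneous a) (h0 : f ≠ 0)
    (h : w * f ∈ Rm K (m + a) A) : w ∈ Rm K m A := by
  have key : ∀ n, homogeneousComponent n w ≠ 0 → n + A = m := by
    intro n hn
    have h1 : homogeneousComponent (n + a) (f * w) = f * homogeneousComponent n w := by
      rw [homComp_mul hf, if_pos (Nat.le_add_left a n), Nat.add_sub_cancel]
    have h2 : homogeneousComponent (n + a) (f * w) ≠ 0 := by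
      rw [h1]
      exact mul_ne_zero h0 hn
    rw [mul_comm w f] at h
    unfold Rm at h
    split_ifs at h with h3
    · rw [homogeneousComponent_of_mem h] at h2
      split_ifs at h2 with h4
      · omega
      · exact absurd rfl h2
    · rw [(Submodule.mem_bot K).1 h, map_zero] at h2
      exact absurd rfl h2
  unfold Rm
  split_ifs with h3
  · have h5 : w = homogeneousComponent (m - A) w := by
      conv_lhs => rw [← sum_homogeneousComponent w]
      by_cases h6 : homogeneousComponent (m - A) w = 0
      · rw [h6]
        refine Finset.sum_eq_zero fun i _ => ?_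
        by_contra h7
        have h8 := key i h7
        have h9 : i = m - A := by omega
        rw [h9] at h7
        exact h7 h6
      · refine Finset.sum_eq_single (m - A) (fun i _ hi => ?_) (fun hi => ?_)
        · by_contra h7
          exact hi (by have := key i h7; omega)
        · rw [Finset.mem_range, not_lt] at hi
          exact homogeneousComponent_eq_zero _ _ (by omega)
    rw [h5]
    exact homogeneousComponent_mem _ _
  · rw [Submodule.mem_bot, ← sum_homogeneousComponent w]
    refine Finset.sum_eq_zero fun i _ => ?_
    by_contra h7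
    have := key i h7
    omega

end K2

open K2 in
theorem t_k2 : T_K2.{u} := by
  intro K _ f a hf
  refine ⟨fun z hz => ungraded hf z hz, ?_⟩
  intro m A z hz hcross
  obtain ⟨w, hw⟩ := ungraded hf z hcross
  refine ⟨w, ?_, hw⟩
  have h0 := hz 0
  rw [hw, Pi.smul_apply, smul_eq_mul] at h0
  exact graded_cofactor (hf.hom 0) hf.ne h0

end

end Pool.Agent.EGH
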