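import Pool.Agent.EGH.Targets

set_option autoImplicit false
open MvPolynomial Matrix

/-! T_KOSZ (MP_e5dae2_al): the Koszul count. -/

namespace Pool.Agent.EGH

universe u

namespace KOSZ_

/-- rank and nullity on a submodule -/
lemma rn {K M N : Type u} [Field K] [AddCommGroup M] [Module K M] [AddCommGroup N] [Module K N]
    (ψ : M →ₗ[K] N) (V : Submodule K M) [Module.Finite K V] :
    Module.finrank K (V.map ψ) + Module.finrank K (V ⊓ LinearMap.ker ψ : Submodule K M) =
      Module.finrank K V := by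
  have h := LinearMap.finrank_range_add_finrank_ker (ψ.domRestrict V)
  rw [LinearMap.range_domRestrict] at h
  have e : (LinearMap.ker (ψ.domRestrict V)).map V.subtype = V ⊓ LinearMap.ker ψ := by
    ext x
    constructor
    · rintro ⟨y, hy, rfl⟩
      refine ⟨y.2, ?_⟩
      exact hy
    · rintro ⟨hx, hx'⟩
      exact ⟨⟨x, hx⟩, hx', rfl⟩
  rw [← e, Submodule.finrank_map_subtype_eq]
  exact h

/-- products of submodules -/
lemma pi_finrank {K M : Type u} [Field K] [AddCommGroup M] [Module K M]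
    (p : Fin 3 → Submodule K M) [∀ i, Module.Finite K (p i)] :
    Module.Finite K (Submodule.pi Set.univ p) ∧
    Module.finrank K (Submodule.pi Set.univ p) = ∑ i, Module.finrank K (p i) := by
  set φ : (∀ i, p i) →ₗ[K] (Fin 3 → M) :=
    LinearMap.pi (fun i => (p i).subtype ∘ₗ LinearMap.proj i) with hφ
  have hr : LinearMap.range φ = Submodule.pi Set.univ p := by
    ext x
    constructor
    · rintro ⟨y, rfl⟩
      rw [Submodule.mem_pi]
      intro i _
      exact (y i).2
    · intro hx
      rw [Submodule.mem_pi] at hx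
      exact ⟨fun i => ⟨x i, hx i (Set.mem_univ i)⟩, rfl⟩
  have hi : Function.Injective φ := by
    intro x y hxy
    funext i
    exact Subtype.ext (congrFun hxy i)
  rw [← hr]
  refine ⟨inferInstance, ?_⟩
  rw [LinearMap.finrank_range_of_inj hi, Module.finrank_pi_fintype]

variable {K : Type u} [Field K]

lemma Rm_of_le {m k : ℕ} (h : k ≤ m) : Rm K m k = Rd K (m - k) := if_pos h

lemma Rm_of_lt {m k : ℕ} (h : m < k) : Rm K m k = ⊥ := if_neg (not_le.mpr h)

/-- products of forms -/
lemma mul_mem {p q : P K} {m k n j : ℕ} (hp : p ∈ Rm K m k) (hq : q.IsHomogeneous n)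
    (hj : n + m = j + k ∨ (k ≤ m → n + (m - k) = j)) (l s : ℕ) (hl : ∀ _ : k ≤ m, s ≤ l ∧ l - s = j) :
    q * p ∈ Rm K l s := by
  by_cases h : k ≤ m
  · rw [Rm_of_le h] at hp
    obtain ⟨h1, h2⟩ := hl h
    rw [Rm_of_le h1, h2]
    have h3 : n + (m - k) = j := by
      rcases hj with hj | hj
      · omega
      · exact hj h
    rw [← h3]
    exact hq.mul hp
  · rw [Rm_of_lt (not_le.mp h)] at hp
    have : p = 0 := hp
    rw [this, mul_zero]
    exact Submodule.zero_mem _

/-- w ↦ w • f -/
noncomputable def ps3 (f : Fin 3 → P K) : P K →ₗ[K] (Fin 3 → P K) where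
  toFun w := w • f
  map_add' x y := by rw [add_smul]
  map_smul' c x := by rw [RingHom.id_apply, smul_assoc]

/-- h ↦ f × h -/
noncomputable def ps2 (f : Fin 3 → P K) : (Fin 3 → P K) →ₗ[K] (Fin 3 → P K) where
  toFun h := f ⨯₃ h
  map_add' x y := by rw [map_add]
  map_smul' c x := by
    rw [RingHom.id_apply]
    have e : c • x = (C c : P K) • x := by
      funext i
      simp [MvPolynomial.smul_eq_C_mul]
    have e' : ∀ z : Fin 3 → P K, c • z = (C c : P K) • z := by
      intro z
      funext i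
      simp [MvPolynomial.smul_eq_C_mul]
    rw [e, map_smul, ← e']

/-- y ↦ ∑ y k * f k -/
noncomputable def ps1 (f : Fin 3 → P K) : (Fin 3 → P K) →ₗ[K] P K where
  toFun y := ∑ k, y k * f k
  map_add' x y := by
    simp only [Pi.add_apply, add_mul, Finset.sum_add_distrib]
  map_smul' c x := by
    simp only [Pi.smul_apply, smul_mul_assoc, ← Finset.smul_sum, RingHom.id_apply]

end KOSZ_

open KOSZ_ in
theorem t_kosz (h1 : T_DIMR.{u}) (h2 : T_JD.{u}) (h3 : T_K1.{u}) (h4 : T_K2.{u}) :
    T_KOSZ.{u} := by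
  intro K _ f a hf d
  set A : ℕ := a 0 + a 1 + a 2 with hA
  have hfin : ∀ m k : ℕ, Module.Finite K (Rm K m k) := by
    intro m k
    by_cases h : k ≤ m
    · rw [Rm_of_le h]
      exact (h1 K (m - k)).1
    · rw [Rm_of_lt (not_le.mp h)]
      infer_instance
  have f3 := hfin d A
  have f2 : ∀ k : Fin 3, Module.Finite K (Rm K (d + a k) A) := fun k => hfin _ _
  have f1 : ∀ k : Fin 3, Module.Finite K (Rm K d (a k)) := fun k => hfin _ _
  obtain ⟨g2, e2⟩ := pi_finrank (K := K) (fun k : Fin 3 => Rm K (d + a k) A)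
  obtain ⟨g1, e1⟩ := pi_finrank (K := K) (fun k : Fin 3 => Rm K d (a k))
  have r3 := rn (ps3 f) (Rm K d A)
  have r2 := rn (ps2 f) (Submodule.pi Set.univ (fun k : Fin 3 => Rm K (d + a k) A))
  have r1 := rn (ps1 f) (Submodule.pi Set.univ (fun k : Fin 3 => Rm K d (a k)))
  -- injectivity
  have k3 : Rm K d A ⊓ LinearMap.ker (ps3 f) = ⊥ := by
    rw [eq_bot_iff]
    rintro w ⟨_, hw⟩
    have h5 : (w • f) 0 = 0 := congrFun (show w • f = 0 from hw) 0
    rw [Pi.smul_apply, smul_eq_mul] at h5
    exact (mul_eq_zero.mp h5).resolve_right hf.ne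
  -- exactness at the left
  have k2 : Submodule.pi Set.univ (fun k : Fin 3 => Rm K (d + a k) A) ⊓ LinearMap.ker (ps2 f) =
      (Rm K d A).map (ps3 f) := by
    ext z
    constructor
    · rintro ⟨hz, hz'⟩
      have hz1 : ∀ k, z k ∈ Rm K (d + a k) A := fun k => (Submodule.mem_pi.mp hz) k (Set.mem_univ k)
      obtain ⟨w, hw, rfl⟩ := (h4 K f a hf).2 d A z hz1 hz'
      exact ⟨w, hw, rfl⟩
    · rintro ⟨w, hw, rfl⟩
      refine ⟨?_, ?_⟩
      · refine Submodule.mem_pi.mpr (fun k _ => ?_)
        change w * f k ∈ Rm K (d + a k) A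
        rw [mul_comm]
        refine mul_mem (j := d - A + a k) hw (hf.hom k) (Or.inr (fun _ => by omega)) _ _ ?_
        intro h
        constructor <;> omega
      · change f ⨯₃ (w • f) = 0
        rw [map_smul, cross_self, smul_zero]
  -- exactness at the right
  have k1 : Submodule.pi Set.univ (fun k : Fin 3 => Rm K d (a k)) ⊓ LinearMap.ker (ps1 f) =
      (Submodule.pi Set.univ (fun k : Fin 3 => Rm K (d + a k) A)).map (ps2 f) := by
    ext y
    constructor
    · rintro ⟨hy, hy'⟩
      have hy1 : ∀ k, y k ∈ Rm K d (a k) := fun k => (Submodule.mem_pi.mp hy) k (Set.mem_univ k)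
      obtain ⟨h, hh, rfl⟩ := (h3 K f a hf).2 d y hy1 hy'
      exact ⟨h, Submodule.mem_pi.mpr (fun k _ => hh k), rfl⟩
    · rintro ⟨h, hh, rfl⟩
      have hh1 : ∀ k, h k ∈ Rm K (d + a k) A := fun k => (Submodule.mem_pi.mp hh) k (Set.mem_univ k)
      refine ⟨?_, ?_⟩
      · refine Submodule.mem_pi.mpr (fun k _ => ?_)
        change (f ⨯₃ h) k ∈ Rm K d (a k)
        have key : ∀ i j k : Fin 3, a i + a j + a k = A → f i * h j ∈ Rm K d (a k) := by
          intro i j k hs
          refine mul_mem (j := d + a j + a i - A) (hh1 j) (hf.hom i)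
            (Or.inr (fun hle => by omega)) _ _ ?_
          intro hle
          constructor <;> omega
        rw [cross_apply]
        fin_cases k
        · exact Submodule.sub_mem _ (key 1 2 0 (by omega)) (key 2 1 0 (by omega))
        · exact Submodule.sub_mem _ (key 2 0 1 (by omega)) (key 0 2 1 (by omega))
        · exact Submodule.sub_mem _ (key 0 1 2 (by omega)) (key 1 0 2 (by omega))
      · change ∑ k, (f ⨯₃ h) k * f k = 0
        rw [cross_apply, Fin.sum_univ_three]
        simp
        ring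
  -- the image
  have k0 : (Submodule.pi Set.univ (fun k : Fin 3 => Rm K d (a k))).map (ps1 f) = Jd f d := by
    ext p
    rw [h2 K f a hf.hom d p]
    constructor
    · rintro ⟨y, hy, rfl⟩
      exact ⟨y, fun k => (Submodule.mem_pi.mp hy) k (Set.mem_univ k), rfl⟩
    · rintro ⟨y, hy, rfl⟩
      exact ⟨y, Submodule.mem_pi.mpr (fun k _ => hy k), rfl⟩
  rw [k3, finrank_bot] at r3
  rw [k2, e2] at r2
  rw [k1, k0, e1] at r1
  omega

end Pool.Agent.EGH
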