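import Pool.Agent.EGH.Targets

set_option autoImplicit false
open MvPolynomial

/-!
T_LB: lower bound for the dimension of `R_i T` (project EGH, MP_e5dae2_al).
-/

namespace Pool.Agent.EGH

universe u

namespace PLB_

section gen

variable {K : Type u} [Field K] {V V' : Type u} [AddCommGroup V] [Module K V]
  [AddCommGroup V'] [Module K V']

/-- Rank-nullity in the form needed. -/
lemma rank_ker (f : V →ₗ[K] V') (M A : Submodule K V) (B : Submodule K V')
    [Module.Finite K M] (hA : A ≤ M) (hA' : A ≤ LinearMap.ker f) (hB : B ≤ M.map f) :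
    Module.finrank K A + Module.finrank K B ≤ Module.finrank K M := by
  have h1 := LinearMap.finrank_range_add_finrank_ker (f.domRestrict M)
  rw [LinearMap.range_domRestrict] at h1
  have h2 : Module.finrank K B ≤ Module.finrank K (M.map f) := Submodule.finrank_mono hB
  have h3 : Module.finrank K A = Module.finrank K (A.comap M.subtype) :=
    (LinearEquiv.finrank_eq (Submodule.comapSubtypeEquivOfLe hA)).symm
  have h4 : A.comap M.subtype ≤ LinearMap.ker (f.domRestrict M) := by
    intro x hx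
    rw [LinearMap.mem_ker, LinearMap.domRestrict_apply]
    exact LinearMap.mem_ker.1 (hA' hx)
  have h5 := Submodule.finrank_mono h4
  omega

lemma finrank_map_inj (f : V →ₗ[K] V') (M : Submodule K V)
    (hf : ∀ x ∈ M, f x = 0 → x = 0) : Module.finrank K (M.map f) = Module.finrank K M := by
  have h1 : Function.Injective (f.domRestrict M) := by
    rw [← LinearMap.ker_eq_bot, LinearMap.ker_eq_bot']
    rintro ⟨x, hx⟩ h
    rw [LinearMap.domRestrict_apply] at h
    ext
    exact hf x hx h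
  have h2 := LinearMap.finrank_range_of_inj h1
  rwa [LinearMap.range_domRestrict] at h2

end gen

section alg

variable {K : Type u} [Field K] {v : ℕ}

lemma homX (k : Fin 3) : (X k : P K) ∈ Rd K 1 := by
  rw [mem_homogeneousSubmodule]
  exact isHomogeneous_X K k

/-- The linear form `X i - c X k`. -/
noncomputable def lf (i k : Fin 3) (c : K) : P K := X i - C c * X k

lemma lf_mem (i k : Fin 3) (c : K) : lf i k c ∈ Rd K 1 := by
  refine Submodule.sub_mem _ (homX i) ?_
  rw [mem_homogeneousSubmodule]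
  exact (isHomogeneous_X K k).C_mul c

lemma lf_ne {i k : Fin 3} (c : K) (h : i ≠ k) : lf i k c ≠ 0 := by
  intro h0
  have := congrArg (aeval (fun j : Fin 3 => if j = i then (1 : K) else 0)) h0
  simp [lf, Ne.symm h] at this

/-- The substitution `X i ↦ c X k`. -/
noncomputable def sub (i k : Fin 3) (c : K) : P K →ₐ[K] P K :=
  aeval (fun j : Fin 3 => if j = i then C c * X k else X j)

lemma sub_lf {i k : Fin 3} (c : K) (h : i ≠ k) : sub i k c (lf i k c) = 0 := by
  simp [sub, lf, Ne.symm h, MvPolynomial.algebraMap_eq]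

lemma sub_lf' {i k j : Fin 3} (c c' : K) (h : i ≠ k) (hj : j ≠ i) :
    sub i k c (lf j k c') = lf j k c' := by
  simp [sub, lf, Ne.symm h, hj, MvPolynomial.algebraMap_eq]

lemma dvd_sub (i k : Fin 3) (c : K) (u : P K) : lf i k c ∣ u - sub i k c u := by
  rw [← Ideal.mem_span_singleton, ← Ideal.Quotient.eq_zero_iff_mem, map_sub, sub_eq_zero]
  have : (Ideal.Quotient.mkₐ K (Ideal.span {lf i k c})) =
      (Ideal.Quotient.mkₐ K (Ideal.span {lf i k c})).comp (sub i k c) := by
    ext j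
    rw [AlgHom.comp_apply]
    by_cases hj : j = i
    · subst hj
      simp only [sub, aeval_X, if_true, Ideal.Quotient.mkₐ_eq_mk]
      rw [← sub_eq_zero, ← map_sub, Ideal.Quotient.eq_zero_iff_mem]
      exact Ideal.mem_span_singleton_self _
    · simp only [sub, aeval_X, if_neg hj]
  exact congrArg (fun g => g u) this

lemma dvd_of_sub {i k : Fin 3} {c : K} {u : P K} (h : sub i k c u = 0) : lf i k c ∣ u := by
  have := dvd_sub i k c u
  rwa [h, sub_zero] at this

lemma ev_sub {i k : Fin 3} (p : Fin 3 → K) (hk : p k ≠ 0) (u : P K) :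
    aeval p (sub i k (p i / p k) u) = aeval p u := by
  have : (aeval p).comp (sub i k (p i / p k)) = (aeval p : P K →ₐ[K] K) := by
    ext j
    rw [AlgHom.comp_apply]
    by_cases hj : j = i
    · subst hj
      simp only [sub, aeval_X, if_true, map_mul]
      rw [← MvPolynomial.algebraMap_eq, AlgHom.commutes]
      simp only [Algebra.algebraMap_self, RingHom.id_apply]
      exact div_mul_cancel₀ _ hk
    · simp only [sub, aeval_X, if_neg hj]
  exact congrArg (fun g => g u) this

/-- `Ψ`: the substitution applied to all entries. -/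
noncomputable def Psi (i k : Fin 3) (c : K) : Mv K v →ₗ[K] Mv K v :=
  LinearMap.prodMap
    (LinearMap.pi fun j => (sub i k c).toLinearMap ∘ₗ LinearMap.proj j)
    (LinearMap.pi fun j => (sub i k c).toLinearMap ∘ₗ LinearMap.proj j)

lemma Psi_fst (i k : Fin 3) (c : K) (x : Mv K v) (j : Fin v) :
    (Psi i k c x).1 j = sub i k c (x.1 j) := rfl

lemma Psi_snd (i k : Fin 3) (c : K) (x : Mv K v) (j : Fin 3) :
    (Psi i k c x).2 j = sub i k c (x.2 j) := rfl

lemma Psi_smul (i k : Fin 3) (c : K) (u : P K) (x : Mv K v) :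
    Psi i k c (u • x) = sub i k c u • Psi i k c x := by
  refine Prod.ext ?_ ?_
  · funext j
    rw [Psi_fst, Prod.smul_fst, Pi.smul_apply, smul_eq_mul, map_mul]
    rfl
  · funext j
    rw [Psi_snd, Prod.smul_snd, Pi.smul_apply, smul_eq_mul, map_mul]
    rfl

lemma evp_fst (p : Fin 3 → K) (x : Mv K v) (j : Fin v) :
    (evp v p x).1 j = aeval p (x.1 j) := rfl

lemma evp_snd (p : Fin 3 → K) (x : Mv K v) (j : Fin 3) :
    (evp v p x).2 j = aeval p (x.2 j) := rfl

lemma evp_smul (p : Fin 3 → K) (u : P K) (x : Mv K v) :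
    evp v p (u • x) = aeval p u • evp v p x := by
  refine Prod.ext ?_ ?_
  · funext j
    rw [evp_fst, Prod.smul_fst, Pi.smul_apply, smul_eq_mul, map_mul]
    rfl
  · funext j
    rw [evp_snd, Prod.smul_snd, Pi.smul_apply, smul_eq_mul, map_mul]
    rfl

lemma evp_Psi {i k : Fin 3} (p : Fin 3 → K) (hk : p k ≠ 0) (x : Mv K v) :
    evp v p (Psi i k (p i / p k) x) = evp v p x := by
  refine Prod.ext ?_ ?_
  · funext j
    rw [evp_fst, Psi_fst, ev_sub p hk, evp_fst]
  · funext j
    rw [evp_snd, Psi_snd, ev_sub p hk, evp_snd]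

/-- Multiplication by a polynomial. -/
noncomputable def mulBy (u : P K) : Mv K v →ₗ[K] Mv K v where
  toFun x := u • x
  map_add' x y := smul_add u x y
  map_smul' c x := by
    simp only [RingHom.id_apply]
    exact smul_comm u c x

lemma mulBy_inj {u : P K} (hu : u ≠ 0) (x : Mv K v) (h : mulBy u x = 0) : x = 0 := by
  have h1 : u • x = 0 := h
  refine Prod.ext ?_ ?_
  · funext j
    have h2 : (u • x).1 j = 0 := by rw [h1]; rfl
    rw [Prod.smul_fst, Pi.smul_apply, smul_eq_mul] at h2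
    exact (mul_eq_zero.1 h2).resolve_left hu
  · funext j
    have h2 : (u • x).2 j = 0 := by rw [h1]; rfl
    rw [Prod.smul_snd, Pi.smul_apply, smul_eq_mul] at h2
    exact (mul_eq_zero.1 h2).resolve_left hu

lemma Mi_mul {i : ℕ} {T : Submodule K (Mv K v)} {l : P K} (hl : l ∈ Rd K 1) {x : Mv K v}
    (hx : x ∈ Mi i T) : l • x ∈ Mi (i + 1) T := by
  refine Submodule.span_induction (p := fun x _ => l • x ∈ Mi (i + 1) T) ?_ ?_ ?_ ?_ hx
  · rintro _ ⟨u, hu, τ, hτ, rfl⟩
    refine Submodule.subset_span ⟨l * u, ?_, τ, hτ, ?_⟩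
    · rw [mem_homogeneousSubmodule] at hl hu ⊢
      rw [add_comm]
      exact hl.mul hu
    · rw [mul_smul]
  · rw [smul_zero]
    exact Submodule.zero_mem _
  · intro x y _ _ hx hy
    rw [smul_add]
    exact Submodule.add_mem _ hx hy
  · intro c x _ hx
    rw [smul_comm]
    exact Submodule.smul_mem _ _ hx

lemma T_le (T : Submodule K (Mv K v)) : T ≤ Mi 0 T := by
  intro τ hτ
  refine Submodule.subset_span ⟨1, ?_, τ, hτ, (one_smul _ _).symm⟩
  rw [mem_homogeneousSubmodule]
  exact isHomogeneous_one _ _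

lemma pow_mem {T : Submodule K (Mv K v)} {l : P K} (hl : l ∈ Rd K 1) {τ : Mv K v}
    (hτ : τ ∈ T) (i : ℕ) : l ^ i • τ ∈ Mi i T := by
  refine Submodule.subset_span ⟨l ^ i, ?_, τ, hτ, rfl⟩
  rw [mem_homogeneousSubmodule] at hl ⊢
  simpa using hl.pow i

lemma Mi_finite (i : ℕ) (T : Submodule K (Mv K v)) (hT : Module.Finite K T)
    (hR : Module.Finite K (Rd K i)) : Module.Finite K (Mi i T) := by
  rw [Module.Finite.iff_fg] at *
  have h1 := Submodule.FG.map₂ (Algebra.lsmul K K (Mv K v)).toLinearMap hR hT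
  have h2 : Submodule.map₂ (Algebra.lsmul K K (Mv K v)).toLinearMap (Rd K i) T = Mi i T := by
    rw [Submodule.map₂_eq_span_image2, Mi]
    congr 1
    ext x
    constructor
    · rintro ⟨u, hu, τ, hτ, rfl⟩
      exact ⟨u, hu, τ, hτ, rfl⟩
    · rintro ⟨u, hu, τ, hτ, rfl⟩
      exact ⟨u, hu, τ, hτ, rfl⟩
  rwa [h2] at h1

/-- The step `dim N_{i+1} ≥ dim N_i + ρ`. -/
lemma stepN {i1 i2 k : Fin 3} (h1 : i1 ≠ k) (h2 : i2 ≠ k) (h12 : i2 ≠ i1) (p : Fin 3 → K)
    (hk : p k ≠ 0) (T : Submodule K (Mv K v)) (i : ℕ) (hF : Module.Finite K (Mi (i + 1) T)) :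
    Module.finrank K ((Mi i T).map (Psi i1 k (p i1 / p k))) +
      Module.finrank K (T.map (evp v p)) ≤
    Module.finrank K ((Mi (i + 1) T).map (Psi i1 k (p i1 / p k))) := by
  set Ψ : Mv K v →ₗ[K] Mv K v := Psi i1 k (p i1 / p k) with hΨ
  set l2 : P K := lf i2 k (p i2 / p k) with hl2
  have hl2' : sub i1 k (p i1 / p k) l2 = l2 := sub_lf' _ _ h1 h12
  have e1 : Module.finrank K (((Mi i T).map Ψ).map (mulBy l2)) =
      Module.finrank K ((Mi i T).map Ψ) :=
    finrank_map_inj _ _ fun x _ hx => mulBy_inj (lf_ne _ h2) x hx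
  rw [← e1]
  refine rank_ker (evp v p) _ _ _ ?_ ?_ ?_
  · rintro _ ⟨_, ⟨x, hx, rfl⟩, rfl⟩
    refine ⟨l2 • x, Mi_mul (lf_mem _ _ _) hx, ?_⟩
    rw [hΨ, Psi_smul, hl2']
    rfl
  · rintro _ ⟨y, -, rfl⟩
    rw [LinearMap.mem_ker]
    change evp v p (l2 • y) = 0
    rw [evp_smul]
    have : aeval p l2 = 0 := by
      rw [hl2, lf, map_sub, map_mul, aeval_X, aeval_X, ← MvPolynomial.algebraMap_eq,
        AlgHom.commutes]
      simp only [Algebra.algebraMap_self, RingHom.id_apply]
      rw [div_mul_cancel₀ _ hk, sub_self]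
    rw [this, zero_smul]
  · rintro _ ⟨τ, hτ, rfl⟩
    refine ⟨Ψ (((p k)⁻¹) ^ (i + 1) • ((X k : P K) ^ (i + 1) • τ)), ?_, ?_⟩
    · exact ⟨_, Submodule.smul_mem _ _ (pow_mem (homX k) hτ (i + 1)), rfl⟩
    · rw [hΨ, evp_Psi p hk, map_smul, evp_smul, map_pow, aeval_X, smul_smul, ← mul_pow,
        inv_mul_cancel₀ hk, one_pow, one_smul]

/-- The step `dim M_{i+1} ≥ dim M_i + dim N_{i+1}`. -/
lemma stepM {i1 k : Fin 3} (h1 : i1 ≠ k) (c : K) (T : Submodule K (Mv K v)) (i : ℕ)
    (hF : Module.Finite K (Mi (i + 1) T)) :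
    Module.finrank K (Mi i T) + Module.finrank K ((Mi (i + 1) T).map (Psi i1 k c)) ≤
    Module.finrank K (Mi (i + 1) T) := by
  have e1 : Module.finrank K ((Mi i T).map (mulBy (lf i1 k c))) =
      Module.finrank K (Mi i T) :=
    finrank_map_inj _ _ fun x _ hx => mulBy_inj (lf_ne _ h1) x hx
  rw [← e1]
  refine rank_ker (Psi i1 k c) _ _ _ ?_ ?_ le_rfl
  · rintro _ ⟨x, hx, rfl⟩
    exact Mi_mul (lf_mem _ _ _) hx
  · rintro _ ⟨y, -, rfl⟩
    rw [LinearMap.mem_ker]
    change Psi i1 k c (lf i1 k c • y) = 0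
    rw [Psi_smul, sub_lf _ h1, zero_smul]

end alg

end PLB_

open PLB_ in
theorem t_lb (h : T_DIMR.{u}) : T_LB.{u} := by
  intro K _ v T hT p hp hdiv i
  obtain ⟨k, hk⟩ : ∃ k, p k ≠ 0 := by
    by_contra hcon
    push Not at hcon
    exact hp (funext hcon)
  have hidx : ∀ k : Fin 3, ∃ i1 i2 : Fin 3, i1 ≠ k ∧ i2 ≠ k ∧ i2 ≠ i1 := by decide
  obtain ⟨i1, i2, h1, h2, h12⟩ := hidx k
  have hfin : ∀ i, Module.Finite K (Mi i T) := fun i => Mi_finite i T hT (h K i).1
  set Ψ : Mv K v →ₗ[K] Mv K v := Psi i1 k (p i1 / p k) with hΨ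
  have hN0 : Module.finrank K T ≤ Module.finrank K ((Mi 0 T).map Ψ) := by
    have e1 : Module.finrank K (T.map Ψ) = Module.finrank K T := by
      refine finrank_map_inj _ _ fun τ hτ h0 => ?_
      refine hdiv τ hτ (lf i1 k (p i1 / p k)) (lf_mem _ _ _) (lf_ne _ h1) ?_ ?_
      · intro j
        refine dvd_of_sub ?_
        rw [← Psi_fst, ← hΨ, h0]
        rfl
      · intro j
        refine dvd_of_sub ?_
        rw [← Psi_snd, ← hΨ, h0]
        rfl
    rw [← e1]
    have := hfin 0
    exact Submodule.finrank_mono (Submodule.map_mono (T_le T))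
  have hN : ∀ i, Module.finrank K T + i * Module.finrank K (T.map (evp v p)) ≤
      Module.finrank K ((Mi i T).map Ψ) := by
    intro i
    induction i with
    | zero => simpa using hN0
    | succ i ih =>
      have := stepN h1 h2 h12 p hk T i (hfin (i + 1))
      rw [← hΨ] at this
      rw [add_mul, one_mul]
      omega
  induction i with
  | zero =>
    have h3 : Module.finrank K T ≤ Module.finrank K (Mi 0 T) := by
      have := hfin 0
      exact Submodule.finrank_mono (T_le T)
    simp only [zero_add, mul_one, mul_zero, add_zero]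
    omega
  | succ i ih =>
    have h3 := stepM h1 (p i1 / p k) T i (hfin (i + 1))
    rw [← hΨ] at h3
    have h4 := hN (i + 1)
    nlinarith [ih, h3, h4]

end Pool.Agent.EGH
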