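import Pool.Agent.EGH.Targets

set_option autoImplicit false
open MvPolynomial

/-!
T_MAC: a Macaulay type inequality for spaces of forms in three variables.
-/

namespace Pool.Agent.EGH

universe u

namespace PMAC_

variable {K : Type u} [Field K]

/-- The substitution `X 2 = 0`. -/
noncomputable def ep : P K →ₐ[K] P K := aeval ![X 0, X 1, 0]

/-- Multiplication by `X 2`. -/
noncomputable def mu : P K →ₗ[K] P K := LinearMap.mulLeft K (X 2)

lemma mu_apply (p : P K) : mu p = X 2 * p := rfl

lemma X_ne (i : Fin 3) : (X i : P K) ≠ 0 := X_ne_zero i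

lemma mu_inj : Function.Injective (mu : P K →ₗ[K] P K) := by
  intro p q h
  exact mul_left_cancel₀ (X_ne 2) h

lemma ep_X (i : Fin 3) : ep (X i : P K) = ![X 0, X 1, 0] i := by
  unfold ep
  rw [aeval_X]

lemma dvd_sub (p : P K) : (X 2 : P K) ∣ p - ep p := by
  induction p using MvPolynomial.induction_on with
  | C a =>
    have : ep (C a : P K) = C a := by
      unfold ep
      rw [aeval_C]
      rfl
    rw [this, sub_self]
    exact dvd_zero _
  | add p q hp hq =>
    rw [map_add]
    have : p + q - (ep p + ep q) = (p - ep p) + (q - ep q) := by ring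
    rw [this]
    exact dvd_add hp hq
  | mul_X p i hp =>
    rw [map_mul, ep_X]
    have : p * X i - ep p * (![X 0, X 1, 0] : Fin 3 → P K) i =
        (p - ep p) * X i + ep p * (X i - (![X 0, X 1, 0] : Fin 3 → P K) i) := by ring
    rw [this]
    refine dvd_add (Dvd.dvd.mul_right hp _) (Dvd.dvd.mul_left ?_ _)
    fin_cases i <;> simp

lemma ep_mu (q : P K) : ep (X 2 * q) = 0 := by
  rw [map_mul, ep_X]
  simp

lemma split (U : Submodule K (P K)) [FiniteDimensional K U] :
    Module.finrank K (U.map (ep : P K →ₐ[K] P K).toLinearMap) +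
      Module.finrank K (U.comap mu) = Module.finrank K U := by
  have h := ((ep : P K →ₐ[K] P K).toLinearMap.domRestrict U).finrank_range_add_finrank_ker
  rw [LinearMap.range_domRestrict] at h
  rw [← h]
  congr 1
  have e1 := (Submodule.equivMapOfInjective mu mu_inj (U.comap mu)).finrank_eq
  have e2 := (Submodule.equivMapOfInjective U.subtype U.injective_subtype
    (LinearMap.ker ((ep : P K →ₐ[K] P K).toLinearMap.domRestrict U))).finrank_eq
  have : (U.comap mu).map mu =
      (LinearMap.ker ((ep : P K →ₐ[K] P K).toLinearMap.domRestrict U)).map U.subtype := by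
    ext x
    simp only [Submodule.mem_map, Submodule.mem_comap, LinearMap.mem_ker]
    constructor
    · rintro ⟨q, hq, rfl⟩
      exact ⟨⟨mu q, hq⟩, ep_mu q, rfl⟩
    · rintro ⟨⟨y, hy⟩, hy0, rfl⟩
      have h0 : ep y = 0 := hy0
      obtain ⟨q, hq⟩ := dvd_sub y
      rw [h0, sub_zero] at hq
      refine ⟨q, ?_, ?_⟩
      · rw [mu_apply, ← hq]
        exact hy
      · rw [mu_apply, ← hq]
        rfl
  rw [e1, this, ← e2]

/-! ### homogeneous parts -/

lemma hom_of_mul {m : ℕ} {p : P K} (h : (X 2 * p : P K).IsHomogeneous (m + 1)) :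
    p.IsHomogeneous m := by
  intro d hd
  have h1 : coeff (Finsupp.single 2 1 + d) (X 2 * p) ≠ 0 := by
    rwa [coeff_X_mul]
  have h2 := h h1
  rw [map_add] at h2
  have h3 : Finsupp.weight (1 : Fin 3 → ℕ) (Finsupp.single 2 1) = 1 := by
    rw [Finsupp.weight_apply, Finsupp.sum_single_index] <;> simp
  omega

lemma zero_of_mul {p : P K} (h : (X 2 * p : P K).IsHomogeneous 0) : p = 0 := by
  by_contra hp
  obtain ⟨d, hd⟩ := MvPolynomial.ne_zero_iff.mp hp
  have h1 : coeff (Finsupp.single 2 1 + d) (X 2 * p) ≠ 0 := by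
    rwa [coeff_X_mul]
  have h2 := h h1
  rw [map_add] at h2
  have h3 : Finsupp.weight (1 : Fin 3 → ℕ) (Finsupp.single 2 1) = 1 := by
    rw [Finsupp.weight_apply, Finsupp.sum_single_index] <;> simp
  omega

lemma comap_le {m : ℕ} {V : Submodule K (P K)} (hV : V ≤ Rd K (m + 1)) :
    V.comap mu ≤ Rd K m := by
  intro p hp
  exact hom_of_mul (hV hp)

lemma comap_bot {V : Submodule K (P K)} (hV : V ≤ Rd K 0) : V.comap mu = ⊥ := by
  rw [eq_bot_iff]
  intro p hp
  exact zero_of_mul (hV hp)

lemma mul_le_Rd {m : ℕ} {V : Submodule K (P K)} (hV : V ≤ Rd K m) :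
    Rd K 1 * V ≤ Rd K (m + 1) := by
  rw [Submodule.mul_le]
  intro p hp q hq
  have h : (p * q).IsHomogeneous (1 + m) := IsHomogeneous.mul hp (hV hq)
  rw [add_comm] at h
  exact h

lemma ep_hom {m : ℕ} {p : P K} (h : p.IsHomogeneous m) : (ep p).IsHomogeneous m := by
  have h1 := IsHomogeneous.aeval h (g := (![X 0, X 1, 0] : Fin 3 → P K)) (n := 1) ?_
  · rwa [one_mul] at h1
  · intro i
    fin_cases i
    · exact isHomogeneous_X K 0
    · exact isHomogeneous_X K 1
    · exact isHomogeneous_zero _ _ _

lemma X_mem (i : Fin 3) : (X i : P K) ∈ Rd K 1 := isHomogeneous_X K i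

/-! ### the two variable step -/

lemma ndvd : ¬ (X 0 : P K) ∣ X 1 := by
  rw [X_dvd_X]
  decide

lemma grow {m : ℕ} {V' W' : Submodule K (P K)} [FiniteDimensional K W'] (hV : V' ≤ Rd K m)
    (hne : V' ≠ ⊥) (h0 : ∀ v ∈ V', X 0 * v ∈ W') (h1 : ∀ v ∈ V', X 1 * v ∈ W') :
    Module.finrank K V' + 1 ≤ Module.finrank K W' := by
  by_contra hcon
  have hinj : Function.Injective (LinearMap.mulLeft K (X 0 : P K)) := by
    intro p q h
    exact mul_left_cancel₀ (X_ne 0) h
  have e1 := (Submodule.equivMapOfInjective (LinearMap.mulLeft K (X 0 : P K)) hinj V').finrank_eq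
  have hle : V'.map (LinearMap.mulLeft K (X 0 : P K)) ≤ W' := by
    rintro _ ⟨v, hv, rfl⟩
    exact h0 v hv
  have heq : V'.map (LinearMap.mulLeft K (X 0 : P K)) = W' := by
    have h5 : Module.finrank K W' ≤
        Module.finrank K (V'.map (LinearMap.mulLeft K (X 0 : P K)) : Submodule K (P K)) := by
      have h6 : Module.finrank K W' ≤ Module.finrank K V' := by omega
      exact h6.trans e1.le
    exact Submodule.eq_of_le_of_finrank_le hle h5
  have hdvd : ∀ n : ℕ, ∀ v ∈ V', (X 0 : P K) ^ n ∣ v := by
    intro n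
    induction n with
    | zero =>
      intro v _
      rw [pow_zero]
      exact one_dvd v
    | succ n ih =>
      intro v hv
      have h2 : X 1 * v ∈ V'.map (LinearMap.mulLeft K (X 0 : P K)) := by
        rw [heq]
        exact h1 v hv
      obtain ⟨v', hv', h3⟩ := h2
      have h4 : (X 0 : P K) ^ (n + 1) ∣ X 1 * v := by
        rw [← h3, pow_succ, mul_comm]
        exact mul_dvd_mul_left _ (ih v' hv')
      exact (X_prime (i := (0 : Fin 3))).pow_dvd_of_dvd_mul_left (n + 1) ndvd h4
  obtain ⟨v, hv, hv0⟩ := Submodule.exists_mem_ne_zero_of_ne_bot hne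
  obtain ⟨q, hq⟩ := hdvd (m + 1) v hv
  have hd : v.totalDegree = m := (show v.IsHomogeneous m from hV hv).totalDegree hv0
  have hq0 : q ≠ 0 := by
    rintro rfl
    rw [mul_zero] at hq
    exact hv0 hq
  rw [hq, totalDegree_mul_of_isDomain (pow_ne_zero _ (X_ne 0)) hq0, totalDegree_X_pow] at hd
  omega

/-! ### the main induction -/

lemma map_mu_mul (V : Submodule K (P K)) :
    Rd K 1 * V.map mu = (Rd K 1 * V).map mu := by
  apply le_antisymm
  · rw [Submodule.mul_le]
    rintro p hp _ ⟨q, hq, rfl⟩
    refine ⟨p * q, Submodule.mul_mem_mul hp hq, ?_⟩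
    rw [mu_apply, mu_apply]
    ring
  · rw [Submodule.map_le_iff_le_comap, Submodule.mul_le]
    intro p hp q hq
    rw [Submodule.mem_comap, mu_apply]
    have : X 2 * (p * q) = p * mu q := by
      rw [mu_apply]
      ring
    rw [this]
    exact Submodule.mul_mem_mul hp (Submodule.mem_map_of_mem hq)

/-- the statement of the theorem for forms of degree `m` -/
def St (K : Type u) [Field K] (m : ℕ) : Prop := ∀ V : Submodule K (P K),
  V ≤ Rd K m → V ≠ ⊥ → ∃ γ : ℕ,
    Module.finrank K (Rd K 1 * V : Submodule K (P K)) = Module.finrank K V + γ ∧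
    2 * Module.finrank K V ≤ γ * (γ - 1)

lemma step (hfin : ∀ d, Module.Finite K (Rd K d)) (m : ℕ)
    (IH : ∀ V : Submodule K (P K), V ≤ Rd K m → V.comap mu ≠ ⊥ → ∃ γ : ℕ,
      Module.finrank K (Rd K 1 * V.comap mu : Submodule K (P K)) =
        Module.finrank K (V.comap mu) + γ ∧
      2 * Module.finrank K (V.comap mu) ≤ γ * (γ - 1)) : St K m := by
  intro V hV hne
  have fV : FiniteDimensional K V := by
    have := hfin m
    exact Submodule.finiteDimensional_of_le hV
  have fW : FiniteDimensional K (Rd K 1 * V : Submodule K (P K)) := by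
    have := hfin (m + 1)
    exact Submodule.finiteDimensional_of_le (mul_le_Rd hV)
  set W : Submodule K (P K) := Rd K 1 * V with hW
  have sV := split V
  have sW := split W
  have fc : FiniteDimensional K (W.comap mu) :=
    Module.Finite.of_injective ((mu : P K →ₗ[K] P K).restrict (p := W.comap mu) (q := W)
      (fun x hx => hx)) (by
        intro x y h
        apply Subtype.ext
        exact mu_inj (congrArg Subtype.val h))
  -- the comap of W contains V and R_1 V''
  have c1 : V ≤ W.comap mu := by
    intro v hv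
    rw [Submodule.mem_comap, mu_apply]
    exact Submodule.mul_mem_mul (X_mem 2) hv
  have c2 : Rd K 1 * V.comap mu ≤ W.comap mu := by
    rw [Submodule.mul_le]
    intro p hp q hq
    rw [Submodule.mem_comap, mu_apply]
    have : X 2 * (p * q) = p * mu q := by
      rw [mu_apply]
      ring
    rw [this]
    exact Submodule.mul_mem_mul hp hq
  have d1 := Submodule.finrank_mono c1
  have d2 := Submodule.finrank_mono c2
  by_cases hV' : V.map (ep : P K →ₐ[K] P K).toLinearMap = ⊥
  · -- V = X2 V''
    have hVe : V = (V.comap mu).map mu := by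
      apply le_antisymm
      · intro v hv
        have h0 : ep v = 0 := by
          have : (ep : P K →ₐ[K] P K).toLinearMap v ∈
              V.map (ep : P K →ₐ[K] P K).toLinearMap := Submodule.mem_map_of_mem hv
          rw [hV', Submodule.mem_bot] at this
          exact this
        obtain ⟨q, hq⟩ := dvd_sub v
        rw [h0, sub_zero] at hq
        refine ⟨q, ?_, ?_⟩
        · show mu q ∈ V
          rw [mu_apply, ← hq]
          exact hv
        · rw [mu_apply, ← hq]
      · exact Submodule.map_comap_le _ _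
    have hVc : V.comap mu ≠ ⊥ := by
      intro h
      rw [h, Submodule.map_bot] at hVe
      exact hne hVe
    obtain ⟨γ, g1, g2⟩ := IH V hV hVc
    have e1 : Module.finrank K V = Module.finrank K (V.comap mu) := by
      rw [hV', finrank_bot, zero_add] at sV
      exact sV.symm
    have e2 : Module.finrank K W = Module.finrank K (Rd K 1 * V.comap mu : Submodule K (P K)) := by
      have h1 : W = (Rd K 1 * V.comap mu).map mu := by
        rw [← map_mu_mul, ← hVe]
      have h2 := (Submodule.equivMapOfInjective mu mu_inj (Rd K 1 * V.comap mu)).finrank_eq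
      rw [h2, ← h1]
    refine ⟨γ, ?_, ?_⟩
    · rw [e2, g1, e1]
    · rw [e1]
      exact g2
  · have fW' : FiniteDimensional K (W.map (ep : P K →ₐ[K] P K).toLinearMap) := inferInstance
    have hg := grow (m := m) (V' := V.map (ep : P K →ₐ[K] P K).toLinearMap)
      (W' := W.map (ep : P K →ₐ[K] P K).toLinearMap) (by
        rintro _ ⟨v, hv, rfl⟩
        exact ep_hom (hV hv)) hV' (by
        rintro _ ⟨v, hv, rfl⟩
        refine ⟨X 0 * v, Submodule.mul_mem_mul (X_mem 0) hv, ?_⟩
        show ep (X 0 * v) = X 0 * ep v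
        rw [map_mul, ep_X]
        rfl) (by
        rintro _ ⟨v, hv, rfl⟩
        refine ⟨X 1 * v, Submodule.mul_mem_mul (X_mem 1) hv, ?_⟩
        show ep (X 1 * v) = X 1 * ep v
        rw [map_mul, ep_X]
        rfl)
    obtain ⟨γ, hγ⟩ : ∃ γ, Module.finrank K W = Module.finrank K V + γ := by
      refine ⟨Module.finrank K W - Module.finrank K V, ?_⟩
      omega
    refine ⟨γ, hγ, ?_⟩
    by_cases hVc : V.comap mu = ⊥
    · rw [hVc, finrank_bot, add_zero] at sV
      obtain ⟨g, rfl⟩ : ∃ g, γ = g + 1 := ⟨γ - 1, by omega⟩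
      have h1 : Module.finrank K V ≤ g := by omega
      have h2 : 1 ≤ Module.finrank K V := by
        rw [Nat.one_le_iff_ne_zero]
        intro h
        exact hne (Submodule.finrank_eq_zero.mp h)
      rw [Nat.add_sub_cancel]
      nlinarith
    · obtain ⟨γ'', g1, g2⟩ := IH V hV hVc
      obtain ⟨g, rfl⟩ : ∃ g, γ = g + 1 := ⟨γ - 1, by omega⟩
      have h1 : γ'' ≤ g := by omega
      have h2 : Module.finrank K (V.map (ep : P K →ₐ[K] P K).toLinearMap) ≤ g := by omega
      have h3 : γ'' * (γ'' - 1) ≤ g * (g - 1) := Nat.mul_le_mul h1 (by omega)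
      have h4 : g * (g - 1) + 2 * g = (g + 1) * g := by
        rcases g with _ | g
        · simp
        · rw [Nat.add_sub_cancel]
          ring
      rw [Nat.add_sub_cancel, ← h4]
      omega

lemma main (hfin : ∀ d, Module.Finite K (Rd K d)) (m : ℕ) : St K m := by
  induction m with
  | zero =>
    refine step hfin 0 fun V hV hc => ?_
    exact absurd (comap_bot hV) hc
  | succ m ih =>
    refine step hfin (m + 1) fun V hV hc => ?_
    exact ih _ (comap_le hV) hc

end PMAC_

/-- C1. Macaulay type inequality. -/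
theorem t_mac (h : T_DIMR.{u}) : T_MAC.{u} := by
  intro K _ m V hV hne
  exact PMAC_.main (fun d => (h K d).1) m V hV hne

end Pool.Agent.EGH
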