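import Pool.Agent.EGH.Targets

set_option autoImplicit false
open MvPolynomial Matrix

/-! T_MONCI (MP_e5dae2_al): powers of the variables. -/

namespace Pool.Agent.EGH

universe u

namespace MONCI_

variable {K : Type u} [Field K]

/-- membership in a monomial ideal is not seen by multiplication by a power of another variable -/
lemma key (S : Set (Fin 3 →₀ ℕ)) (j : Fin 3) (hS : ∀ s ∈ S, s j = 0) (c : ℕ) (p : P K)
    (h : p * X j ^ c ∈ Ideal.span ((fun s : Fin 3 →₀ ℕ => monomial s (1 : K)) '' S)) :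
    p ∈ Ideal.span ((fun s : Fin 3 →₀ ℕ => monomial s (1 : K)) '' S) := by
  rw [mem_ideal_span_monomial_image] at h ⊢
  intro m hm
  have h1 : m + Finsupp.single j c ∈ (p * X j ^ c).support := by
    rw [mem_support_iff] at hm ⊢
    rw [X_pow_eq_monomial, coeff_mul_monomial, mul_one]
    exact hm
  obtain ⟨s, hs, hle⟩ := h _ h1
  refine ⟨s, hs, ?_⟩
  intro i
  have h2 := hle i
  by_cases hij : i = j
  · subst hij
    rw [hS s hs]
    exact Nat.zero_le _
  · have h3 : (m + Finsupp.single j c) i = m i := by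
      rw [Finsupp.add_apply, Finsupp.single_eq_of_ne hij, add_zero]
    rw [h3] at h2
    exact h2

lemma img1 (i : Fin 3) (a : ℕ) :
    ((fun s : Fin 3 →₀ ℕ => monomial s (1 : K)) '' {Finsupp.single i a}) = {(X i : P K) ^ a} := by
  rw [Set.image_singleton, X_pow_eq_monomial]

lemma img2 (i j : Fin 3) (a b : ℕ) :
    ((fun s : Fin 3 →₀ ℕ => monomial s (1 : K)) '' {Finsupp.single i a, Finsupp.single j b}) =
      {(X i : P K) ^ a, (X j : P K) ^ b} := by
  rw [Set.image_pair, X_pow_eq_monomial, X_pow_eq_monomial]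

end MONCI_

open MONCI_ in
theorem t_monci : T_MONCI.{u} := by
  intro K _ a ha
  refine ⟨ha, ?_, ?_, ?_, ?_⟩
  · intro i
    have := (isHomogeneous_X K i).pow (a i)
    rwa [one_mul] at this
  · exact pow_ne_zero _ (X_ne_zero 0)
  · intro p q h
    have h1 : p * X 1 ^ a 1 ∈ Ideal.span ((fun s : Fin 3 →₀ ℕ => monomial s (1 : K)) ''
        {Finsupp.single 0 (a 0)}) := by
      rw [img1, Ideal.mem_span_singleton']
      exact ⟨q, h.symm⟩
    have h2 := key {Finsupp.single 0 (a 0)} 1 (by
      intro s hs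
      rw [Set.mem_singleton_iff] at hs
      rw [hs]
      simp) (a 1) p h1
    rw [img1, Ideal.mem_span_singleton'] at h2
    obtain ⟨r, hr⟩ := h2
    exact ⟨r, hr.symm⟩
  · intro p q r h
    have h1 : p * X 2 ^ a 2 ∈ Ideal.span ((fun s : Fin 3 →₀ ℕ => monomial s (1 : K)) ''
        {Finsupp.single 0 (a 0), Finsupp.single 1 (a 1)}) := by
      rw [img2, Ideal.mem_span_pair]
      exact ⟨q, r, h.symm⟩
    have h2 := key {Finsupp.single 0 (a 0), Finsupp.single 1 (a 1)} 2 (by
      intro s hs
      rcases hs with hs | hs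
      · rw [hs]
        simp
      · rw [Set.mem_singleton_iff] at hs
        rw [hs]
        simp) (a 2) p h1
    rw [img2, Ideal.mem_span_pair] at h2
    obtain ⟨q', r', hr⟩ := h2
    exact ⟨q', r', hr.symm⟩

end Pool.Agent.EGH
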