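import Pool.Agent.EGH.PASM

set_option autoImplicit false
open MvPolynomial

/-!
T_MONDIM: the dimension of the graded parts of a monomial complete intersection.
-/

namespace Pool.Agent.EGH

universe u

namespace MONDIM_

lemma count (a : Fin 3 → ℕ) (d : ℕ) :
    ({m | m.degree = d ∧ ∃ s ∈ Set.range (fun i : Fin 3 => Finsupp.single i (a i)),
        s ≤ m} : Set (Fin 3 →₀ ℕ)).ncard + (Std (a 0) (a 1) (a 2) d).card =
      (ASM_.Dd d).ncard := by
  set A : Set (Fin 3 →₀ ℕ) := {m | m.degree = d ∧
    ∃ s ∈ Set.range (fun i : Fin 3 => Finsupp.single i (a i)), s ≤ m} with hA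
  have hAD : A ⊆ ASM_.Dd d := fun m hm => hm.1
  have h1 : (ASM_.Dd d \ A).ncard + A.ncard = (ASM_.Dd d).ncard :=
    Set.ncard_sdiff_add_ncard_of_subset hAD (ASM_.finite_Dd d)
  have h2 : (ASM_.Dd d \ A).ncard = (Std (a 0) (a 1) (a 2) d).card := by
    rw [← Set.ncard_coe_finset]
    refine Set.ncard_congr (fun m _ => ASM_.tr m) ?_ ?_ ?_
    · rintro m ⟨hm1, hm2⟩
      have hmd : m.degree = d := hm1
      have h3 := ASM_.degree_eq3 m
      have hlt : ∀ i, m i < a i := by
        intro i
        by_contra hcon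
        refine hm2 ⟨hm1, Finsupp.single i (a i), ⟨i, rfl⟩, ?_⟩
        rw [Finsupp.single_le_iff]
        omega
      rw [Finset.mem_coe, ASM_.mem_std]
      exact ⟨hlt 0, hlt 1, hlt 2, by unfold ASM_.tr; simp only; omega⟩
    · intro m m' _ _ h
      unfold ASM_.tr at h
      simp only [Prod.mk.injEq] at h
      ext i
      fin_cases i
      · exact h.1
      · exact h.2.1
      · exact h.2.2
    · rintro ⟨x0, x1, x2⟩ hx
      rw [Finset.mem_coe] at hx
      have htr : ASM_.tr (Finsupp.equivFunOnFinite.symm ![x0, x1, x2]) = (x0, x1, x2) := by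
        simp [ASM_.tr]
      have hx3 := ASM_.mem_std.mp hx
      simp only at hx3
      have hdeg : (Finsupp.equivFunOnFinite.symm ![x0, x1, x2] : Fin 3 →₀ ℕ).degree = d := by
        rw [ASM_.degree_eq3]
        simp
        omega
      refine ⟨Finsupp.equivFunOnFinite.symm ![x0, x1, x2], ⟨hdeg, ?_⟩, htr⟩
      rintro ⟨_, s, ⟨i, rfl⟩, hle⟩
      simp only at hle
      rw [Finsupp.single_le_iff] at hle
      fin_cases i <;> simp at hle <;> omega
  omega

end MONDIM_

theorem t_mondim : T_MONDIM.{u} := by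
  intro K _ a d
  have h1 : J (fun i => (X i : P K) ^ a i) = Ideal.span ((fun s => (monomial s (1 : K))) ''
      (Set.range (fun i : Fin 3 => Finsupp.single i (a i)))) := by
    unfold J
    congr 1
    ext p
    simp only [Set.mem_range, Set.mem_image, exists_exists_eq_and, X_pow_eq_monomial]
  unfold Jd
  rw [h1, ASM_.inf_eq, ASM_.finrank_restrict, ASM_.rd_eq, ASM_.finrank_restrict]
  exact MONDIM_.count a d

end Pool.Agent.EGH
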