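import Pool.Agent.EGH.Targets

set_option autoImplicit false

/-!
The numerical lemma N1.
-/

namespace Pool.Agent.EGH

namespace PN1_

lemma hh_succ (b c d i : ℕ) : hh b c (d + 1) (i + 1) = hh b c d i := by
  unfold hh
  congr 1
  apply Finset.filter_congr
  intro m _
  omega

lemma Ioo_eq (i a : ℕ) : Finset.Ioo i a = Finset.Ico (i + 1) a := by
  ext x
  simp only [Finset.mem_Ioo, Finset.mem_Ico]
  omega

lemma telescope (b c d i a : ℕ) (h : i < a) :
    ∑ j ∈ Finset.Ioo i a, hh b c (d + 1) j + hh b c d (a - 1) =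
      ∑ j ∈ Finset.Ioo i a, hh b c d j + hh b c d i := by
  obtain ⟨a', rfl⟩ : ∃ a', a = a' + 1 := ⟨a - 1, by omega⟩
  rw [Ioo_eq, Nat.add_sub_cancel]
  have h1 : ∑ j ∈ Finset.Ico (i + 1) (a' + 1), hh b c (d + 1) j =
      ∑ j ∈ Finset.Ico i a', hh b c d j := by
    rw [← Finset.sum_Ico_add' (fun j => hh b c (d + 1) j) i a' 1]
    exact Finset.sum_congr rfl fun j _ => hh_succ b c d j
  rw [h1, ← Finset.sum_Ico_succ_top (by omega : i ≤ a') (fun j => hh b c d j),
    Finset.sum_eq_sum_Ico_succ_bot h, add_comm]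

lemma seg (hs : N_SEG) (hr : N_ROW) {a b c d : ℕ} (ha : 1 ≤ a) (hab : a ≤ b) (hbc : b ≤ c)
    (hc : c ≤ d + 2) (hd : d + 2 ≤ a + b) {S : Finset Mon} (hS : IsSeg a b c d S)
    (hne : S.Nonempty) :
    ∃ i0 t : ℕ, i0 < a ∧ i0 ≤ d ∧ 1 ≤ t ∧ t ≤ hh b c d i0 ∧
      S.card = ∑ i ∈ Finset.Ioo i0 a, hh b c d i + t ∧
      (shadow a b c d S).card + (if c ≤ d - i0 + 1 ∧ t = hh b c d i0 then 1 else 0) +
        (d + 2 - a) = S.card + hh b c d i0 + (if d - i0 + 2 ≤ b then 1 else 0) := by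
  obtain ⟨i0, t, h1, h2, h3, h4, h5, h6⟩ := hs a b c d ha hab hbc S hS hne
  refine ⟨i0, t, h1, h2, h3, h4, h5, ?_⟩
  have h7 := telescope b c d i0 a h1
  have h8 : hh b c d (a - 1) = d + 2 - a := by
    rw [hr b c d (a - 1) hbc (by omega)]
    split_ifs <;> omega
  omega

/-- values of the rows -/
lemma row (hr : N_ROW) {b c d i : ℕ} (hbc : b ≤ c) (hb : 1 ≤ b) (hi : i ≤ d + 1)
    (h : d + 1 ≤ i + b) : hh b c d i = d + 1 - i := by
  rw [hr b c d i hbc hb]
  split_ifs <;> omega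

lemma sum_lb (H : ℕ → ℕ) (i1 s : ℕ) : ∀ n : ℕ, n ≤ i1 →
    (∀ k, 1 ≤ k → k ≤ n → s + k ≤ H (i1 - k) + 1) →
    n * (n + 1) + 2 * n * s ≤ 2 * ∑ i ∈ Finset.Ico (i1 - n) i1, H i + 2 * n := by
  intro n
  induction n with
  | zero => intro _ _; simp
  | succ n ih =>
    intro hn hk
    have h1 := ih (by omega) fun k hk1 hk2 => hk k hk1 (by omega)
    have h2 : ∑ i ∈ Finset.Ico (i1 - (n + 1)) i1, H i =
        H (i1 - (n + 1)) + ∑ i ∈ Finset.Ico (i1 - n) i1, H i := by
      rw [Finset.sum_eq_sum_Ico_succ_bot (by omega)]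
      congr 3
      omega
    have h3 := hk (n + 1) (by omega) le_rfl
    rw [h2]
    nlinarith

lemma sum_mono (H : ℕ → ℕ) {i0 i1 n : ℕ} (h : i0 + n < i1) :
    ∑ i ∈ Finset.Ico (i1 - n) i1, H i ≤ ∑ i ∈ Finset.Ioo i0 i1, H i := by
  apply Finset.sum_le_sum_of_subset
  intro x hx
  simp only [Finset.mem_Ioo, Finset.mem_Ico] at hx ⊢
  omega

lemma gamma1 {u γ δ : ℕ} (h : 2 * u ≤ γ * (γ - 1)) (h' : (δ + 1) * (δ + 2) ≤ 2 * u) :
    δ + 2 ≤ γ := by
  by_contra hcon
  have h1 : γ ≤ δ + 1 := by omega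
  have h2 : γ * (γ - 1) ≤ (δ + 1) * δ := Nat.mul_le_mul h1 (by omega)
  nlinarith

lemma gamma2 {u γ δ : ℕ} (h : 2 * u ≤ γ * (γ - 1)) (h' : δ * (δ + 1) + 2 ≤ 2 * u + 2 * δ) :
    δ + 1 ≤ γ := by
  by_contra hcon
  have h1 : γ ≤ δ := by omega
  rcases Nat.eq_zero_or_pos δ with h0 | h0
  · subst h0
    have : γ = 0 := by omega
    subst this
    omega
  obtain ⟨e, rfl⟩ : ∃ e, δ = e + 1 := ⟨δ - 1, by omega⟩
  have h2 : γ * (γ - 1) ≤ (e + 1) * e := Nat.mul_le_mul h1 (by omega)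
  nlinarith

end PN1_

open PN1_ in
theorem n1 (hs : N_SEG) (hr : N_ROW) : N1 := by
  intro a b c d ha hab hbc hc hd S0 S hS0 hS u γ hu hu1 hγ
  have hb : 1 ≤ b := by omega
  have hSne : S.Nonempty := by
    rw [← Finset.card_pos]; omega
  obtain ⟨i0, t, h1, h2, h3, h4, h5, h6⟩ := seg hs hr ha hab hbc hc hd hS hSne
  have hrow0 := hr b c d i0 hbc hb
  rw [if_pos h2] at hrow0
  by_cases hne : S0.Nonempty
  · obtain ⟨i1, t1, k1, k2, k3, k4, k5, k6⟩ := seg hs hr ha hab hbc hc hd hS0 hne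
    have hrow1 := hr b c d i1 hbc hb
    rw [if_pos k2] at hrow1
    -- `i0 ≤ i1`
    have hle : i0 ≤ i1 := by
      by_contra hcon
      rw [not_le] at hcon
      have h7 : ∑ i ∈ Finset.Ioo i0 a, hh b c d i + hh b c d i0 ≤
          ∑ i ∈ Finset.Ioo i1 a, hh b c d i := by
        rw [Ioo_eq, Ioo_eq, add_comm, ← Finset.sum_eq_sum_Ico_succ_bot h1]
        apply Finset.sum_le_sum_of_subset
        intro x hx
        simp only [Finset.mem_Ico] at hx ⊢
        omega
      omega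
    rcases Nat.eq_or_lt_of_le hle with heq | hlt
    · subst heq
      have h7 : t1 < t := by omega
      have h8 : ¬ (c ≤ d - i0 + 1 ∧ t1 = hh b c d i0) := by omega
      rw [if_neg h8] at k6
      omega
    · -- splitting of the sum
      have hsplit : ∑ i ∈ Finset.Ioo i0 a, hh b c d i =
          ∑ i ∈ Finset.Ioo i0 i1, hh b c d i + hh b c d i1 +
            ∑ i ∈ Finset.Ioo i1 a, hh b c d i := by
        rw [Ioo_eq, Ioo_eq, Ioo_eq, ← Finset.sum_Ico_consecutive _ (by omega : i0 + 1 ≤ i1)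
          (by omega : i1 ≤ a), Finset.sum_eq_sum_Ico_succ_bot k1, add_assoc]
      by_cases hcase : d - i1 + 1 ≥ b
      · have h9 : ¬ (d - i0 + 2 ≤ b) := by omega
        have h10 : ¬ (d - i1 + 2 ≤ b) := by omega
        rw [if_neg h9] at h6
        rw [if_neg h10] at k6
        by_cases hc1 : c ≤ d - i1 + 1 ∧ t1 = hh b c d i1
        · rw [if_pos hc1] at k6
          omega
        · rw [if_neg hc1] at k6
          omega
      · have h9 : d - i1 + 2 ≤ b := by omega
        have h10 : ¬ (c ≤ d - i1 + 1 ∧ t1 = hh b c d i1) := by omega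
        rw [if_pos h9, if_neg h10] at k6
        -- `δ = min (e0 + 2) b - (e1 + 2)`
        by_cases hδ : min (d - i0 + 2) b ≤ d - i1 + 2
        · have h11 : hh b c d i0 + (if d - i0 + 2 ≤ b then 1 else 0) ≤ min (d - i0 + 2) b := by
            split_ifs <;> omega
          omega
        · obtain ⟨δ, hδeq⟩ : ∃ δ, min (d - i0 + 2) b = d - i1 + 2 + (δ + 1) :=
            ⟨min (d - i0 + 2) b - (d - i1 + 2) - 1, by omega⟩
          have h11 : hh b c d i0 + (if d - i0 + 2 ≤ b then 1 else 0) ≤ min (d - i0 + 2) b := by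
            split_ifs <;> omega
          have h12 := sum_lb (fun i => hh b c d i) i1 2 δ (by omega) (by
            intro k hk1 hk2
            have := row hr (b := b) (c := c) (d := d) (i := i1 - k) hbc hb (by omega) (by omega)
            omega)
          have h13 := sum_mono (fun i => hh b c d i) (i0 := i0) (i1 := i1) (n := δ) (by omega)
          have h14 : (δ + 1) * (δ + 2) ≤ 2 * u := by
            have h15 : ∑ i ∈ Finset.Ioo i0 i1, hh b c d i + 1 ≤ u := by omega
            nlinarith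
          have h16 := gamma1 hγ h14
          omega
  · rw [Finset.not_nonempty_iff_eq_empty] at hne
    subst hne
    have hsh : (shadow a b c d ∅).card = 0 := by
      simp [shadow]
    rw [hsh]
    rw [Finset.card_empty] at hu
    have h11 : hh b c d i0 + (if d - i0 + 2 ≤ b then 1 else 0) ≤ min (d - i0 + 2) b := by
      split_ifs <;> omega
    by_cases hδ : min (d - i0 + 2) b ≤ d + 2 - a
    · omega
    · obtain ⟨δ, hδeq⟩ : ∃ δ, min (d - i0 + 2) b = d + 2 - a + (δ + 1) :=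
        ⟨min (d - i0 + 2) b - (d + 2 - a) - 1, by omega⟩
      have h12 := sum_lb (fun i => hh b c d i) a 0 δ (by omega) (by
        intro k hk1 hk2
        have := row hr (b := b) (c := c) (d := d) (i := a - k) hbc hb (by omega) (by omega)
        omega)
      have h13 := sum_mono (fun i => hh b c d i) (i0 := i0) (i1 := a) (n := δ) (by omega)
      have h15 : ∑ i ∈ Finset.Ioo i0 a, hh b c d i + 1 ≤ u := by omega
      have h17 : δ * (δ + 1) ≤ 2 * ∑ i ∈ Finset.Ico (a - δ) a, hh b c d i + 2 * δ := by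
        rw [Nat.mul_zero, Nat.add_zero] at h12
        exact h12
      have h18 : ∑ i ∈ Finset.Ico (a - δ) a, hh b c d i ≤
          ∑ i ∈ Finset.Ioo i0 a, hh b c d i := h13
      have h14 : δ * (δ + 1) + 2 ≤ 2 * u + 2 * δ := by
        generalize δ * (δ + 1) = P at h17 ⊢
        omega
      have h16 := gamma2 hγ h14
      clear h17 h14 hγ
      omega

end Pool.Agent.EGH

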