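import Pool.Agent.EGH.Targets

set_option autoImplicit false

namespace Pool.Agent.EGH

theorem PN23_card_std (a b c d : ℕ) :
    (Std a b c d).card = ∑ i ∈ Finset.range a, hh b c d i := by
  unfold Std hh
  rw [Finset.card_filter, Finset.sum_product]
  refine Finset.sum_congr rfl fun i _ => ?_
  rw [Finset.card_filter]

theorem PN23_hh_succ (b c d i : ℕ) : hh b c (d + 1) (i + 1) = hh b c d i := by
  unfold hh
  congr 1
  ext m
  simp only [Finset.mem_filter, and_congr_right_iff]
  intro _
  omega

theorem PN23_hh_shift (b c d i k : ℕ) : hh b c (d + k) (i + k) = hh b c d i := by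
  induction k with
  | zero => rfl
  | succ k ih => rw [← Nat.add_assoc, ← Nat.add_assoc, PN23_hh_succ, ih]

theorem PN23_tele (b c d i0 a : ℕ) (h : i0 < a) :
    ∑ i ∈ Finset.Ioo i0 a, hh b c (d + 1) i + hh b c d (a - 1) =
      ∑ i ∈ Finset.Ioo i0 a, hh b c d i + hh b c d i0 := by
  obtain ⟨n, rfl⟩ : ∃ n, a = i0 + 1 + n := ⟨a - (i0 + 1), by omega⟩
  induction n with
  | zero =>
    have : Finset.Ioo i0 (i0 + 1 + 0) = ∅ := by
      ext x; simp only [Finset.mem_Ioo, Finset.notMem_empty, iff_false]; omega
    rw [this]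
    simp
  | succ n ih =>
    have e : Finset.Ioo i0 (i0 + 1 + (n + 1)) = insert (i0 + 1 + n) (Finset.Ioo i0 (i0 + 1 + n)) := by
      ext x; simp only [Finset.mem_Ioo, Finset.mem_insert]; omega
    have hn : i0 + 1 + n ∉ Finset.Ioo i0 (i0 + 1 + n) := by simp
    rw [e, Finset.sum_insert hn, Finset.sum_insert hn]
    have ih' := ih (by omega)
    have e2 : i0 + 1 + (n + 1) - 1 = i0 + 1 + n := by omega
    have e3 : i0 + 1 + n - 1 = i0 + n := by omega
    have e4 : hh b c (d + 1) (i0 + 1 + n) = hh b c d (i0 + n) := by
      rw [show i0 + 1 + n = (i0 + n) + 1 by omega, PN23_hh_succ]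
    rw [e2, e4]
    rw [e3] at ih'
    omega

/-- The common bound. -/
theorem PN23_main (hseg : N_SEG) (hrow : N_ROW) (a b c d : ℕ) (ha : 1 ≤ a) (hab : a ≤ b)
    (hbc : b ≤ c) (hc : c ≤ d + 2) (hd : d + 2 ≤ a + b) (S : Finset Mon)
    (hS : IsSeg a b c d S) (hne : S.Nonempty) :
    ∃ i0 t : ℕ, i0 < a ∧ i0 ≤ d ∧ 1 ≤ t ∧
      S.card = ∑ i ∈ Finset.Ioo i0 a, hh b c d i + t ∧
      (shadow a b c d S).card + (d + 2) ≤ S.card + a + min (d - i0 + 2) b := by
  obtain ⟨i0, t, h1, h2, h3, h4, h5, h6⟩ := hseg a b c d ha hab hbc S hS hne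
  refine ⟨i0, t, h1, h2, h3, h5, ?_⟩
  have htele := PN23_tele b c d i0 a h1
  have hlast : hh b c d (a - 1) = d + 2 - a := by
    rw [hrow b c d (a - 1) hbc (by omega)]
    split_ifs with h
    · omega
    · omega
  have hi0 : hh b c d i0 = min (d - i0 + 1) (min b (b + c - 1 - (d - i0))) := by
    rw [hrow b c d i0 hbc (by omega), if_pos h2]
  have hA : hh b c d i0 + (if d - i0 + 2 ≤ b then 1 else 0) ≤ min (d - i0 + 2) b := by
    rw [hi0]
    split_ifs with h
    · omega
    · omega
  omega

theorem n3 (hseg : N_SEG) (hrow : N_ROW) : N3 := by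
  intro a b c d ha hab hbc hc hd S hS
  rcases S.eq_empty_or_nonempty with rfl | hne
  · have : shadow a b c d ∅ = ∅ := by
      unfold shadow
      simp
    rw [this]
    simpa using hd
  · obtain ⟨i0, t, h1, h2, h3, h5, h6⟩ := PN23_main hseg hrow a b c d ha hab hbc hc hd S hS hne
    omega

theorem n2 (hseg : N_SEG) (hrow : N_ROW) (hsym : N_SYM) : N2 := by
  intro a b c d e j ha hab hbc hc hd he hj S hS hcard
  rcases S.eq_empty_or_nonempty with rfl | hne
  · have : shadow a b c d ∅ = ∅ := by
      unfold shadow
      simp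
    rw [this]
    simp
  · obtain ⟨i0, t, h1, h2, h3, h5, h6⟩ := PN23_main hseg hrow a b c d ha hab hbc hc hd S hS hne
    have hpos : 1 ≤ S.card := hne.card_pos
    have hi : a ≤ i0 + j := by
      by_contra hcon
      push Not at hcon
      by_cases hda : a ≤ d + j
      · have hs : (Std j b c e).card = (Std j b c (d + j - a)).card :=
          hsym j b c e (d + j - a) (by omega)
        rw [hs, PN23_card_std] at hcard
        have h7 : ∑ i ∈ Finset.range j, hh b c (d + j - a) i =
            ∑ i ∈ Finset.Ico (a - j) a, hh b c d i := by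
          have : Finset.Ico (a - j) a = (Finset.range j).image (fun i => i + (a - j)) := by
            ext x
            simp only [Finset.mem_Ico, Finset.mem_image, Finset.mem_range]
            constructor
            · intro hx
              exact ⟨x - (a - j), by omega, by omega⟩
            · rintro ⟨y, hy, rfl⟩
              omega
          rw [this, Finset.sum_image (by intro x _ y _ hxy; simpa using hxy)]
          refine Finset.sum_congr rfl fun i _ => ?_
          rw [← PN23_hh_shift b c (d + j - a) i (a - j)]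
          congr 1
          omega
        have h8 : ∑ i ∈ Finset.Ico (a - j) a, hh b c d i ≤ ∑ i ∈ Finset.Ioo i0 a, hh b c d i := by
          apply Finset.sum_le_sum_of_subset
          intro x hx
          simp only [Finset.mem_Ico, Finset.mem_Ioo] at hx ⊢
          omega
        omega
      · have : (Std j b c e) = ∅ := by
          unfold Std
          rw [Finset.filter_eq_empty_iff]
          rintro ⟨x, y, z⟩ hm
          simp only [Finset.mem_product, Finset.mem_range] at hm ⊢
          omega
        rw [this] at hcard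
        simp at hcard
        subst hcard
        simp at hpos
    omega

end Pool.Agent.EGH
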