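import Pool.Agent.EGH.Targets

set_option autoImplicit false

/-!
EGH-N4: duality of shadows.
-/

namespace Pool.Agent.EGH

namespace PN4_

theorem mem_Std {a b c d : ℕ} {m : Mon} : m ∈ Std a b c d ↔
    m.1 < a ∧ m.2.1 < b ∧ m.2.2 < c ∧ m.1 + m.2.1 + m.2.2 = d := by
  unfold Std
  rw [Finset.mem_filter, Finset.mem_product, Finset.mem_product, Finset.mem_range,
    Finset.mem_range, Finset.mem_range]
  tauto

/-- the complement -/
def cm (a b c : ℕ) (m : Mon) : Mon := (a - 1 - m.1, b - 1 - m.2.1, c - 1 - m.2.2)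

theorem cm_mem {a b c d e : ℕ} (h : d + e + 3 = a + b + c) {m : Mon} (hm : m ∈ Std a b c d) :
    cm a b c m ∈ Std a b c e := by
  rw [mem_Std] at hm ⊢
  obtain ⟨x, y, z⟩ := m
  simp only [cm] at hm ⊢
  omega

theorem cm_cm {a b c d : ℕ} {m : Mon} (hm : m ∈ Std a b c d) : cm a b c (cm a b c m) = m := by
  rw [mem_Std] at hm
  obtain ⟨x, y, z⟩ := m
  simp only [cm, Prod.mk.injEq] at hm ⊢
  omega

theorem cm_inj {a b c d : ℕ} {m n : Mon} (hm : m ∈ Std a b c d) (hn : n ∈ Std a b c d)
    (h : cm a b c m = cm a b c n) : m = n := by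
  rw [← cm_cm hm, ← cm_cm hn, h]

end PN4_

open PN4_ in
theorem n4 (hS : N_SHS) : N4 := by
  intro a b c d d' hd S S' hS1 hS2 hcard
  have hsh := hS a b c d S hS1
  have hd1 : (d + 1) + d' + 3 = a + b + c := by omega
  have hd1' : d' + (d + 1) + 3 = a + b + c := by omega
  have hd2 : d + (d' + 1) + 3 = a + b + c := by omega
  -- the shadow of S and the complement of S' are disjoint
  have hA : ∀ x ∈ shadow a b c d S, x ∉ S'.image (cm a b c) := by
    intro x hx hx'
    obtain ⟨n', hn', hxn⟩ := Finset.mem_image.mp hx'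
    have hcov : Std a b c (d + 1) ⊆ shadow a b c d S ∪ S'.image (cm a b c) := by
      intro y hy
      have hxS := hsh.1 hx
      by_cases hyx : lexge y x
      · exact Finset.mem_union_left _ (hsh.2 x hx y hy hyx)
      · apply Finset.mem_union_right
        have hcy := cm_mem hd1 hy
        have hn'S := hS2.1 hn'
        have hlex : lexge (cm a b c y) n' := by
          rw [mem_Std] at hy hxS hn'S
          obtain ⟨y1, y2, y3⟩ := y
          obtain ⟨n1, n2, n3⟩ := n'
          subst hxn
          simp only [lexge, cm] at hyx hy hn'S ⊢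
          omega
        exact Finset.mem_image.mpr ⟨cm a b c y, hS2.2 n' hn' _ hcy hlex, cm_cm hy⟩
    have h1 := Finset.card_le_card hcov
    have h2 := Finset.card_union_add_card_inter (shadow a b c d S) (S'.image (cm a b c))
    have h3 : 0 < (shadow a b c d S ∩ S'.image (cm a b c)).card :=
      Finset.card_pos.mpr ⟨x, Finset.mem_inter.mpr ⟨hx, hx'⟩⟩
    have h4 : (S'.image (cm a b c)).card ≤ S'.card := Finset.card_image_le
    omega
  -- so the shadow of S' and the complement of S are disjoint
  have hB : Disjoint (shadow a b c d' S') (S.image (cm a b c)) := by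
    rw [Finset.disjoint_left]
    intro y hy hy'
    obtain ⟨x, hx, hxy⟩ := Finset.mem_image.mp hy'
    unfold shadow at hy
    rw [Finset.mem_filter] at hy
    obtain ⟨hyS, n', hn', hle⟩ := hy
    have hn'S := hS2.1 hn'
    have hxS := hS1.1 hx
    apply hA (cm a b c n') _ (Finset.mem_image_of_mem _ hn')
    unfold shadow
    rw [Finset.mem_filter]
    refine ⟨cm_mem hd1' hn'S, x, hx, ?_⟩
    rw [mem_Std] at hyS hn'S hxS
    obtain ⟨x1, x2, x3⟩ := x
    obtain ⟨n1, n2, n3⟩ := n'
    subst hxy
    rw [Prod.le_def, Prod.le_def] at hle ⊢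
    simp only [cm] at hle hyS hn'S hxS ⊢
    omega
  have hsub : shadow a b c d' S' ∪ S.image (cm a b c) ⊆ Std a b c (d' + 1) := by
    apply Finset.union_subset
    · exact Finset.filter_subset _ _
    · intro y hy
      obtain ⟨x, hx, rfl⟩ := Finset.mem_image.mp hy
      exact cm_mem hd2 (hS1.1 hx)
  have h1 := Finset.card_le_card hsub
  rw [Finset.card_union_of_disjoint hB] at h1
  have h2 : (S.image (cm a b c)).card = S.card := by
    apply Finset.card_image_of_injOn
    intro x hx y hy h
    exact cm_inj (hS1.1 hx) (hS1.1 hy) h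
  omega

end Pool.Agent.EGH
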