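import Pool.Agent.EGH.Targets

set_option autoImplicit false
open MvPolynomial Matrix

namespace Pool.Agent.EGH

universe u

namespace NODIV_

variable {K : Type u} [Field K]

lemma comp_mul {l : P K} {e : ℕ} (hl : l.IsHomogeneous e) (ρ : P K) (n : ℕ) :
    homogeneousComponent (n + e) (l * ρ) = l * homogeneousComponent n ρ := by
  conv_lhs => rw [← sum_homogeneousComponent ρ]
  rw [Finset.mul_sum, map_sum]
  have h1 : ∀ i, homogeneousComponent (n + e) (l * homogeneousComponent i ρ) =
      if n = i then l * homogeneousComponent i ρ else 0 := by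
    intro i
    have h2 : l * homogeneousComponent i ρ ∈ homogeneousSubmodule (Fin 3) K (i + e) := by
      have := hl.mul (homogeneousComponent_isHomogeneous i ρ)
      rw [add_comm] at this
      exact this
    rw [homogeneousComponent_of_mem h2]
    by_cases h : n = i
    · simp [h]
    · rw [if_neg (by omega), if_neg h]
  simp only [h1]
  rw [Finset.sum_ite_eq]
  split_ifs with h
  · rfl
  · rw [Finset.mem_range, not_lt] at h
    rw [homogeneousComponent_eq_zero n ρ (by omega), mul_zero]

lemma comp_zero {l : P K} {e m : ℕ} (hl : l.IsHomogeneous e) (hl0 : l ≠ 0) {ρ : P K}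
    (h : (l * ρ).IsHomogeneous m) (n : ℕ) (hn : n + e ≠ m) : homogeneousComponent n ρ = 0 := by
  have h1 := comp_mul hl ρ n
  rw [homogeneousComponent_of_mem (show l * ρ ∈ homogeneousSubmodule (Fin 3) K m from h),
    if_neg hn] at h1
  exact (mul_eq_zero.mp h1.symm).resolve_left hl0

lemma div_hom {l : P K} {e m : ℕ} (hl : l.IsHomogeneous e) (hl0 : l ≠ 0) {ρ : P K}
    (h : (l * ρ).IsHomogeneous m) : ρ ∈ Rm K m e := by
  unfold Rm
  split_ifs with hem
  · have : ρ = homogeneousComponent (m - e) ρ := by
      conv_lhs => rw [← sum_homogeneousComponent ρ]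
      rw [Finset.sum_eq_single (m - e)]
      · intro i _ hi
        exact comp_zero hl hl0 h i (by omega)
      · intro hi
        rw [Finset.mem_range, not_lt] at hi
        exact homogeneousComponent_eq_zero _ _ (by omega)
    rw [this]
    exact homogeneousComponent_isHomogeneous _ _
  · rw [Submodule.mem_bot, ← sum_homogeneousComponent ρ]
    exact Finset.sum_eq_zero fun i _ => comp_zero hl hl0 h i (by omega)

end NODIV_

open NODIV_

theorem t_nodiv (hK1 : T_K1.{u}) : T_NODIV.{u} := by
  intro K _ f a hCI h01 h12 d hd v g W hB τ hτ l hl hl0 hr hq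
  obtain ⟨r, q⟩ := τ
  obtain ⟨hr1, hq1, hrq⟩ := hτ
  simp only at hr hq hr1 hq1 hrq
  choose ρ hρ using hr
  choose κ hκ using hq
  have hρ0 : ∀ j, ρ j = C (coeff 0 (ρ j)) := by
    intro j
    have h1 : (l * ρ j).IsHomogeneous 1 := by rw [← hρ j]; exact hr1 j
    have h2 := div_hom hl hl0 h1
    rw [Rm, if_pos le_rfl] at h2
    have h3 : (ρ j).IsHomogeneous 0 := h2
    by_cases h0 : ρ j = 0
    · simp [h0]
    · exact (totalDegree_eq_zero_iff_eq_C).1 (h3.totalDegree h0)
  have hκ0 : ∀ k, κ k ∈ Rm K d (a k) := by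
    intro k
    have h1 := hq1 k
    rw [hκ k] at h1
    unfold Rm at h1
    split_ifs at h1 with h
    · have h2 := div_hom hl hl0 h1
      unfold Rm at h2 ⊢
      by_cases h3 : a k ≤ d
      · rw [if_pos (by omega)] at h2
        rw [if_pos h3]
        have : d + 1 - a k - 1 = d - a k := by omega
        rw [this] at h2
        exact h2
      · rw [if_neg (by omega)] at h2
        rw [if_neg h3]
        exact h2
    · have h2 : κ k = 0 := by
        rw [Submodule.mem_bot] at h1
        exact (mul_eq_zero.mp h1).resolve_left hl0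
      rw [h2]; exact Submodule.zero_mem _
  have hsum : ∑ j, ρ j * g j = ∑ k, κ k * f k := by
    apply mul_left_cancel₀ hl0
    rw [Finset.mul_sum, Finset.mul_sum]
    have e1 : ∑ j, l * (ρ j * g j) = ∑ j, r j * g j :=
      Finset.sum_congr rfl fun j _ => by rw [hρ j, mul_assoc]
    have e2 : ∑ k, l * (κ k * f k) = ∑ k, q k * f k :=
      Finset.sum_congr rfl fun k _ => by rw [hκ k, mul_assoc]
    rw [e1, e2, hrq]
  have hc : (fun j => coeff 0 (ρ j)) = 0 := by
    apply hB.ind
    have e1 : ∑ j, (coeff 0 (ρ j)) • g j = ∑ k, κ k * f k := by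
      rw [← hsum]
      refine Finset.sum_congr rfl fun j _ => ?_
      conv_rhs => rw [hρ0 j]
      rw [C_mul']
    rw [e1]
    exact Ideal.sum_mem _ fun k _ => Ideal.mul_mem_left _ _ (Ideal.subset_span ⟨k, rfl⟩)
  have hρz : ∀ j, ρ j = 0 := by
    intro j
    rw [hρ0 j]
    have := congrFun hc j
    simp only [Pi.zero_apply] at this
    rw [this, C_0]
  have hκs : ∑ k, κ k * f k = 0 := by
    rw [← hsum]
    exact Finset.sum_eq_zero fun j _ => by rw [hρz j, zero_mul]
  obtain ⟨h, hh, hκh⟩ := (hK1 K f a hCI).2 d κ hκ0 hκs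
  have hh0 : h = 0 := by
    funext k
    have := hh k
    have hk : ¬ (a 0 + a 1 + a 2 ≤ d + a k) := by
      fin_cases k <;> simp <;> omega
    rw [Rm, if_neg hk] at this
    exact this
  have hκz : κ = 0 := by
    rw [hκh, hh0]; simp
  refine Prod.ext ?_ ?_
  · funext j; simp [hρ j, hρz j]
  · funext k; simp [hκ k, hκz]

end Pool.Agent.EGH
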