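import Pool.Agent.EGH.Targets

set_option autoImplicit false
open MvPolynomial

/-!
The dimension of the linkage dual: `T_ORTH`.
-/

namespace Pool.Agent.EGH

universe u

namespace ORTH_

variable {K : Type u} [Field K]

lemma up_le {f : Fin 3 → P K} {d : ℕ} {W : Submodule K (P K)} (hW : W ≤ Rd K d) :
    up f d W ≤ Rd K (d + 1) := by
  unfold up
  refine sup_le ?_ inf_le_left
  rw [Submodule.mul_le]
  intro m hm n hn
  have h1 := hW hn
  rw [mem_homogeneousSubmodule] at hm h1 ⊢
  have := hm.mul h1
  rwa [add_comm] at this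

lemma orth_up (hS : T_SOC.{u}) {f : Fin 3 → P K} {a : Fin 3 → ℕ} (hf : CI f a) {d d' : ℕ}
    (hd : d + d' + 4 = a 0 + a 1 + a 2) {W : Submodule K (P K)} (hW : W ≤ Rd K d) :
    orth f d' (up f d W) = orth f d' W := by
  apply le_antisymm
  · intro h hh
    refine ⟨hh.1, fun w hw => ?_⟩
    refine hS K f a hf (d + d') (h * w) ?_ (by omega) fun k => ?_
    · have h1 := hW hw
      have h2 := hh.1
      rw [mem_homogeneousSubmodule] at h1 h2 ⊢
      have h3 := h1.mul h2
      rwa [mul_comm] at h3
    · have h1 : X k * w ∈ up f d W := by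
        refine Submodule.mem_sup_left (Submodule.mul_mem_mul ?_ hw)
        exact (mem_homogeneousSubmodule _ _).2 (isHomogeneous_X K k)
      have h2 := hh.2 _ h1
      have h3 : X k * (h * w) = h * (X k * w) := by ring
      rw [h3]
      exact h2
  · intro h hh
    refine ⟨hh.1, fun w hw => ?_⟩
    obtain ⟨x, hx, y, hy, rfl⟩ := Submodule.mem_sup.1 hw
    rw [mul_add]
    refine Ideal.add_mem _ ?_ (Ideal.mul_mem_left _ _ hy.2)
    refine Submodule.mul_induction_on hx (fun m _ n hn => ?_) fun p q hp hq => ?_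
    · have h1 := hh.2 n hn
      have h2 : h * (m * n) = m * (h * n) := by ring
      rw [h2]
      exact Ideal.mul_mem_left _ _ h1
    · rw [mul_add]
      exact Ideal.add_mem _ hp hq

end ORTH_

open ORTH_ in
theorem t_orth (hP : T_PERF.{u}) (hS : T_SOC.{u}) : T_ORTH.{u} := by
  intro K _ f a hf d d' hd W hJW hW
  have h1 := hP K f a hf (d + 1) d' (by omega) (up f d W) le_sup_right (up_le hW)
  rwa [orth_up hS hf hd hW] at h1

end Pool.Agent.EGH
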