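import Pool.Agent.EGH.Targets

set_option autoImplicit false
open MvPolynomial Matrix

namespace Pool.Agent.EGH

universe u

namespace PPAIR_

variable {K : Type u} [Field K]

theorem Rm_congr {m k m' k' : ℕ} (h : m + k' = m' + k) : Rm K m k = Rm K m' k' := by
  unfold Rm
  by_cases h1 : k ≤ m
  · rw [if_pos h1, if_pos (by omega : k' ≤ m')]
    congr 1
    omega
  · rw [if_neg h1, if_neg (by omega : ¬ k' ≤ m')]

theorem Rm_zero (m : ℕ) : Rm K m 0 = Rd K m := by
  simp [Rm]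

theorem Rm_mul {m k m' k' : ℕ} {p q : P K} (hp : p ∈ Rm K m k) (hq : q ∈ Rm K m' k') :
    p * q ∈ Rm K (m + m') (k + k') := by
  unfold Rm at hp hq ⊢
  by_cases h1 : k ≤ m
  · by_cases h2 : k' ≤ m'
    · rw [if_pos h1] at hp
      rw [if_pos h2] at hq
      rw [if_pos (by omega)]
      have := (hp : p.IsHomogeneous (m - k)).mul (hq : q.IsHomogeneous (m' - k'))
      have h3 : m - k + (m' - k') = m + m' - (k + k') := by omega
      rw [h3] at this
      exact this
    · rw [if_neg h2] at hq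
      rw [(Submodule.mem_bot K).1 hq, mul_zero]
      exact Submodule.zero_mem _
  · rw [if_neg h1] at hp
    rw [(Submodule.mem_bot K).1 hp, zero_mul]
    exact Submodule.zero_mem _

/-- the vectors `H i` -/
theorem exists_H (hK1 : T_K1.{u}) {f : Fin 3 → P K} {a : Fin 3 → ℕ}
    (hf : CI f a) {d d' v v' : ℕ} {g : Fin v → P K} {g' : Fin v' → P K}
    (hg' : ∀ i, g' i ∈ Rd K d') (b : Fin v → Fin v' → Fin 3 → P K)
    (hb : ∀ j i k, b j i k ∈ Rm K (d + d') (a k))
    (hbs : ∀ j i, g j * g' i = ∑ k, b j i k * f k)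
    (τ : Mv K v) (hτ : τ ∈ Sig f a d g) (i : Fin v') :
    ∃ H : Fin 3 → P K, (∀ k, H k ∈ Rm K (d + d' + 1 + a k) (a 0 + a 1 + a 2)) ∧
      g' i • τ.2 - ∑ j, τ.1 j • b j i = f ⨯₃ H := by
  obtain ⟨h1, h2, h3⟩ := hτ
  refine (hK1 K f a hf).2 (d + d' + 1) _ ?_ ?_
  · intro k
    simp only [Pi.sub_apply, Pi.smul_apply, Finset.sum_apply, smul_eq_mul]
    refine Submodule.sub_mem _ ?_ (Submodule.sum_mem _ fun j _ => ?_)
    · have e1 : g' i ∈ Rm K d' 0 := by rw [Rm_zero]; exact hg' i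
      have := Rm_mul e1 (h2 k)
      rwa [Rm_congr (by omega : d' + (d + 1) + a k = d + d' + 1 + (0 + a k))] at this
    · have e1 : τ.1 j ∈ Rm K 1 0 := by rw [Rm_zero]; exact h1 j
      have := Rm_mul e1 (hb j i k)
      rwa [Rm_congr (by omega : 1 + (d + d') + a k = d + d' + 1 + (0 + a k))] at this
  · simp only [Pi.sub_apply, Pi.smul_apply, Finset.sum_apply, smul_eq_mul, sub_mul,
      Finset.sum_sub_distrib, Finset.sum_mul]
    rw [Finset.sum_comm]
    have e1 : ∀ j, ∑ k, τ.1 j * b j i k * f k = τ.1 j * g j * g' i := by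
      intro j
      rw [mul_assoc, hbs, Finset.mul_sum]
      exact Finset.sum_congr rfl fun k _ => by ring
    have e2 : ∑ k, g' i * τ.2 k * f k = g' i * ∑ k, τ.2 k * f k := by
      rw [Finset.mul_sum]
      exact Finset.sum_congr rfl fun k _ => by ring
    rw [e2, ← h3, Finset.sum_congr rfl fun j _ => e1 j, ← Finset.sum_mul]
    ring

end PPAIR_

open PPAIR_

theorem t_pair (hJD : T_JD.{u}) (hK1 : T_K1.{u}) (hK2 : T_K2.{u}) : T_PAIR.{u} := by
  intro K _ f a hf d d' hdd v v' g g' hg hg' hgg x hx hx1 x' hx' hx1'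
  -- the coefficients `b`
  have hb0 : ∀ j i, ∃ b : Fin 3 → P K, (∀ k, b k ∈ Rm K (d + d') (a k)) ∧
      g j * g' i = ∑ k, b k * f k := by
    intro j i
    refine (hJD K f a hf.hom (d + d') _).1 ⟨?_, hgg j i⟩
    exact (hg j : (g j).IsHomogeneous d).mul (hg' i)
  choose b hb hbs using hb0
  have hH : ∀ (τ : Mv K v), ∃ H : Fin v' → Fin 3 → P K, τ ∈ Sig f a d g → ∀ i,
      (∀ k, H i k ∈ Rm K (d + d' + 1 + a k) (a 0 + a 1 + a 2)) ∧
      g' i • τ.2 - ∑ j, τ.1 j • b j i = f ⨯₃ H i := by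
    intro τ
    by_cases hτ : τ ∈ Sig f a d g
    · have := fun i => exists_H hK1 hf hg' b hb hbs τ hτ i
      choose H hH using this
      exact ⟨H, fun _ => hH⟩
    · exact ⟨0, fun h => absurd h hτ⟩
  have hH' : ∀ (τ : Mv K v'), ∃ H : Fin v → Fin 3 → P K, τ ∈ Sig f a d' g' → ∀ j,
      (∀ k, H j k ∈ Rm K (d + d' + 1 + a k) (a 0 + a 1 + a 2)) ∧
      g j • τ.2 - ∑ i, τ.1 i • b j i = f ⨯₃ H j := by
    intro τ
    by_cases hτ : τ ∈ Sig f a d' g'
    · have := fun j => exists_H hK1 hf hg (fun i j => b j i)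
        (fun i j k => by rw [add_comm d' d]; exact hb j i k)
        (fun i j => by rw [mul_comm]; exact hbs j i) τ hτ j
      rw [add_comm d' d] at this
      choose H hH using this
      exact ⟨H, fun _ => hH⟩
    · exact ⟨0, fun h => absurd h hτ⟩
  choose H hH using hH
  choose H' hH' using hH'
  -- the identity for elements of `Sig`
  have key : ∀ τ ∈ Sig f a d g, ∀ τ' ∈ Sig f a d' g',
      τ.2 ⨯₃ τ'.2 = ∑ i, τ'.1 i • H τ i - ∑ j, τ.1 j • H' τ' j := by
    intro τ hτ τ' hτ'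
    have hz := (hK2 K f a hf).2 0 2
      (τ.2 ⨯₃ τ'.2 - (∑ i, τ'.1 i • H τ i - ∑ j, τ.1 j • H' τ' j)) ?_ ?_
    · obtain ⟨w, hw, hz⟩ := hz
      have hw0 : w = 0 := by
        have : w ∈ (⊥ : Submodule K (P K)) := by simpa [Rm] using hw
        exact (Submodule.mem_bot K).1 this
      rw [hw0, zero_smul] at hz
      exact sub_eq_zero.1 hz
    · intro k
      have hc : ∀ l m, a k + a l + a m = a 0 + a 1 + a 2 →
          τ.2 l * τ'.2 m ∈ Rm K (0 + a k) 2 := by
        intro l m hlm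
        have := Rm_mul (hτ.2.1 l) (hτ'.2.1 m)
        rwa [Rm_congr (by omega : d + 1 + (d' + 1) + 2 = 0 + a k + (a l + a m))] at this
      have h1 : (τ.2 ⨯₃ τ'.2) k ∈ Rm K (0 + a k) 2 := by
        rw [cross_apply]
        fin_cases k
        · exact Submodule.sub_mem _ (hc 1 2 (by simp)) (hc 2 1 (by simp; omega))
        · exact Submodule.sub_mem _ (hc 2 0 (by simp; omega)) (hc 0 2 (by simp; omega))
        · exact Submodule.sub_mem _ (hc 0 1 (by simp; omega)) (hc 1 0 (by simp; omega))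
      have h2 : ∀ i, τ'.1 i * H τ i k ∈ Rm K (0 + a k) 2 := by
        intro i
        have e1 : τ'.1 i ∈ Rm K 1 0 := by rw [Rm_zero]; exact hτ'.1 i
        have := Rm_mul e1 ((hH τ hτ i).1 k)
        rwa [Rm_congr (by omega : 1 + (d + d' + 1 + a k) + 2 = 0 + a k + (0 + (a 0 + a 1 + a 2)))]
          at this
      have h3 : ∀ j, τ.1 j * H' τ' j k ∈ Rm K (0 + a k) 2 := by
        intro j
        have e1 : τ.1 j ∈ Rm K 1 0 := by rw [Rm_zero]; exact hτ.1 j
        have := Rm_mul e1 ((hH' τ' hτ' j).1 k)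
        rwa [Rm_congr (by omega : 1 + (d + d' + 1 + a k) + 2 = 0 + a k + (0 + (a 0 + a 1 + a 2)))]
          at this
      simp only [Pi.sub_apply, Finset.sum_apply, Pi.smul_apply, smul_eq_mul]
      exact Submodule.sub_mem _ h1 (Submodule.sub_mem _ (Submodule.sum_mem _ fun i _ => h2 i)
        (Submodule.sum_mem _ fun j _ => h3 j))
    · have e1 : ∀ i, f ⨯₃ H τ i = g' i • τ.2 - ∑ j, τ.1 j • b j i := fun i => ((hH τ hτ i).2).symm
      have e2 : ∀ j, f ⨯₃ H' τ' j = g j • τ'.2 - ∑ i, τ'.1 i • b j i :=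
        fun j => ((hH' τ' hτ' j).2).symm
      rw [map_sub, map_sub, map_sum, map_sum, cross_cross_eq_smul_sub_smul']
      simp only [map_smul, e1, e2, smul_sub, Finset.smul_sum, Finset.sum_sub_distrib]
      have e3 : f ⬝ᵥ τ'.2 = ∑ i, τ'.1 i * g' i := by
        rw [hτ'.2.2, dotProduct]
        exact Finset.sum_congr rfl fun k _ => mul_comm _ _
      have e4 : τ.2 ⬝ᵥ f = ∑ j, τ.1 j * g j := by
        rw [hτ.2.2, dotProduct]
      have e5 : ∑ i, ∑ j, τ'.1 i • τ.1 j • b j i = ∑ j, ∑ i, τ.1 j • τ'.1 i • b j i := by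
        rw [Finset.sum_comm]
        exact Finset.sum_congr rfl fun j _ => Finset.sum_congr rfl fun i _ => smul_comm _ _ _
      rw [e3, e4, e5, Finset.sum_smul, Finset.sum_smul]
      simp only [mul_smul]
      abel
  -- first variable
  have key1 : ∀ x ∈ Submodule.span (P K) (Sig f a d g : Set (Mv K v)),
      ∃ G : Fin v' → Fin 3 → P K, ∀ τ' ∈ Sig f a d' g',
        x.2 ⨯₃ τ'.2 = ∑ i, τ'.1 i • G i - ∑ j, x.1 j • H' τ' j := by
    intro x hx
    induction hx using Submodule.span_induction with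
    | mem τ hτ => exact ⟨H τ, fun τ' hτ' => key τ hτ τ' hτ'⟩
    | zero => exact ⟨0, fun τ' _ => by simp⟩
    | add x y _ _ hx hy =>
      obtain ⟨G1, hG1⟩ := hx
      obtain ⟨G2, hG2⟩ := hy
      refine ⟨G1 + G2, fun τ' hτ' => ?_⟩
      rw [Prod.snd_add, map_add, LinearMap.add_apply, hG1 τ' hτ', hG2 τ' hτ']
      simp only [Prod.fst_add, Pi.add_apply, smul_add, add_smul, Finset.sum_add_distrib]
      abel
    | smul c x _ hx =>
      obtain ⟨G1, hG1⟩ := hx
      refine ⟨c • G1, fun τ' hτ' => ?_⟩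
      rw [Prod.smul_snd, map_smul, LinearMap.smul_apply, hG1 τ' hτ']
      simp only [Prod.smul_fst, Pi.smul_apply, smul_sub, Finset.smul_sum, smul_eq_mul, mul_smul]
      congr 1
      exact Finset.sum_congr rfl fun i _ => smul_comm _ _ _
  obtain ⟨G, hG⟩ := key1 x hx
  have key2 : ∀ y ∈ Submodule.span (P K) (Sig f a d' g' : Set (Mv K v')),
      x.2 ⨯₃ y.2 = ∑ i, y.1 i • G i := by
    intro y hy
    induction hy using Submodule.span_induction with
    | mem τ hτ =>
      rw [hG τ hτ, hx1]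
      simp
    | zero => simp
    | add y z _ _ hy hz =>
      rw [Prod.snd_add, map_add, hy, hz]
      simp only [Prod.fst_add, Pi.add_apply, add_smul, Finset.sum_add_distrib]
    | smul c y _ hy =>
      rw [Prod.smul_snd, map_smul, hy]
      simp only [Prod.smul_fst, Pi.smul_apply, Finset.smul_sum, smul_eq_mul, mul_smul]
  rw [key2 x' hx', hx1']
  simp

end Pool.Agent.EGH
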