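import Pool.Agent.EGH.Core

set_option autoImplicit false
open MvPolynomial Matrix

namespace Pool.Agent.EGH

universe u

lemma BasisMod.rank {K : Type u} [Field K] (hfin : T_DIMR.{u}) {f : Fin 3 → P K} {d v : ℕ}
    {W : Submodule K (P K)} {g : Fin v → P K} (hg : BasisMod f d W g) :
    v + Module.finrank K (Jd f d) = Module.finrank K W := by
  have hli : LinearIndependent K g := by
    rw [Fintype.linearIndependent_iff]
    intro c hc i
    have := hg.ind c (by rw [hc]; exact Ideal.zero_mem _)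
    rw [this]; rfl
  have h1 : Module.finrank K (Submodule.span K (Set.range g)) = v := by
    rw [finrank_span_eq_card hli, Fintype.card_fin]
  have hinf : Jd f d ⊓ Submodule.span K (Set.range g) = ⊥ := by
    rw [eq_bot_iff]
    rintro x ⟨hx1, hx2⟩
    obtain ⟨c, hc⟩ := (Submodule.mem_span_range_iff_exists_fun K).mp hx2
    have hcJ : (∑ j, c j • g j) ∈ J f := by rw [hc]; exact hx1.2
    have := hg.ind c hcJ
    rw [this] at hc
    rw [Submodule.mem_bot, ← hc]
    simp
  have hs := hg.span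
  have hspan : Submodule.span K (Set.range g) ≤ Rd K d := by
    rw [Submodule.span_le]
    rintro _ ⟨j, rfl⟩
    exact hg.mem j
  have : Module.Finite K (Jd f d) := fin_le hfin (Jd_le f d)
  have : Module.Finite K (Submodule.span K (Set.range g)) := fin_le hfin hspan
  have h2 := Submodule.finrank_sup_add_finrank_inf_eq (Jd f d) (Submodule.span K (Set.range g))
  rw [hinf, finrank_bot, ← hs, h1] at h2
  omega

theorem t_pdim (hA9 : T_A9.{u}) (hperf : T_PERF.{u}) (hd1 : T_D1.{u}) (hfin : T_DIMR.{u}) :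
    T_PDIM.{u} := by
  intro K _ _ f a hf h01 h12 d e hde v g W hg j g0 hj hg0 hg0d hgJ
  obtain ⟨f1, f2, hf1, hf2, hCI⟩ := hA9 K f a hf h01 h12 j g0 hj hg0 hg0d
  have hUle : Jd f e ⊔ Jd ![g0, f1, f2] e ≤ Rd K e := sup_le (Jd_le _ _) (Jd_le _ _)
  have hP := hperf K f a hf e d (by omega) (Jd f e ⊔ Jd ![g0, f1, f2] e) le_sup_left hUle
  have hD := hd1 K _ _ hCI e
  have hmulJ : ∀ i, ∀ u ∈ J ![g0, f1, f2], g i * u ∈ J f := by
    intro i u hu
    obtain ⟨c, hc⟩ := Ideal.mem_span_range_iff_exists_fun.mp hu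
    rw [← hc, Finset.mul_sum]
    refine Ideal.sum_mem _ fun k _ => ?_
    have h0 : g i * (c k * (![g0, f1, f2] : Fin 3 → P K) k) =
        c k * (g i * (![g0, f1, f2] : Fin 3 → P K) k) := by ring
    rw [h0]
    refine Ideal.mul_mem_left _ _ ?_
    fin_cases k
    · have := hgJ i
      rw [mul_comm] at this
      exact this
    · exact Ideal.mul_mem_left _ _ hf1
    · exact Ideal.mul_mem_left _ _ hf2
  have hWle : W ≤ orth f d (Jd f e ⊔ Jd ![g0, f1, f2] e) := by
    rw [hg.span]
    refine sup_le (le_orth _ _ _) ?_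
    rw [Submodule.span_le]
    rintro _ ⟨i, rfl⟩
    refine ⟨hg.mem i, fun w hw => ?_⟩
    obtain ⟨w1, hw1, w2, hw2, rfl⟩ := Submodule.mem_sup.mp hw
    rw [mul_add]
    exact Ideal.add_mem _ (Ideal.mul_mem_left _ _ hw1.2) (hmulJ i w2 hw2.2)
  have h1 := rank_mono hfin hWle (orth_le _ _ _)
  have h2 : Module.finrank K (Jd ![g0, f1, f2] e) ≤
      Module.finrank K (Jd f e ⊔ Jd ![g0, f1, f2] e : Submodule K (P K)) :=
    rank_mono hfin le_sup_right hUle
  have h3 := hg.rank hfin
  change Module.finrank K (Jd ![g0, f1, f2] e) + (Std j (a 1) (a 2) e).card = _ at hD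
  omega

end Pool.Agent.EGH
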