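import Pool.Agent.EGH.Targets

set_option autoImplicit false
open MvPolynomial

/-!
Translation of the regular sequences of Mathlib: `T_REG`.
-/

namespace Pool.Agent.EGH

universe u

theorem t_reg : T_REG.{u} := by
  intro K _ f a ha hf hreg
  have hw := hreg.toIsWeaklyRegular
  rw [RingTheory.Sequence.isWeaklyRegular_iff_Fin] at hw
  have hlen : (List.ofFn f).length = 3 := List.length_ofFn
  have key : ∀ (i : Fin 3) (p : P K), p * f i ∈ Ideal.ofList ((List.ofFn f).take i) →
      p ∈ Ideal.ofList ((List.ofFn f).take i) := by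
    intro i p hp
    have h1 := hw ⟨i, by rw [hlen]; exact i.2⟩
    rw [isSMulRegular_quotient_iff_mem_of_smul_mem] at h1
    have h2 := h1 p
    simp only [smul_eq_mul, Ideal.mul_top, Fin.getElem_fin, List.getElem_ofFn] at h2
    refine h2 ?_
    rw [mul_comm]
    exact hp
  have hl : List.ofFn f = [f 0, f 1, f 2] := by
    simp [List.ofFn_succ]
  refine ⟨fun i => le_trans (by norm_num) (ha i), hf, ?_, ?_, ?_⟩
  · intro h0
    have h1 := key 0 1
    rw [hl, h0] at h1
    simp at h1
  · intro p q h
    have h1 := key 1 p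
    rw [hl] at h1
    simp only [Fin.val_one, List.take_succ_cons, List.take_zero, Ideal.ofList_singleton] at h1
    rw [h] at h1
    have h2 := h1 (Ideal.mul_mem_left _ _ (Ideal.subset_span rfl))
    rw [Ideal.mem_span_singleton'] at h2
    obtain ⟨r, hr⟩ := h2
    exact ⟨r, hr.symm⟩
  · intro p q r h
    have h1 := key 2 p
    rw [hl] at h1
    have h3 : Ideal.ofList (List.take ((2 : Fin 3) : ℕ) [f 0, f 1, f 2])
        = Ideal.span {f 0, f 1} := by
      simp [Ideal.ofList_cons, Ideal.span_insert]
    rw [h3, h] at h1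
    have h2 := h1 (Ideal.add_mem _ (Ideal.mul_mem_left _ _ (Ideal.subset_span (by simp)))
      (Ideal.mul_mem_left _ _ (Ideal.subset_span (by simp))))
    rw [Ideal.mem_span_pair] at h2
    obtain ⟨q', r', hr⟩ := h2
    exact ⟨q', r', hr.symm⟩

end Pool.Agent.EGH
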