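import Pool.Agent.EGH.Targets

set_option autoImplicit false

namespace Pool.Agent.EGH

theorem n_row : N_ROW := by
  intro b c d i hbc hb
  unfold hh
  split_ifs with hid
  · have himg : (Finset.range b ×ˢ Finset.range c).filter (fun m => i + m.1 + m.2 = d) =
        (Finset.Ico (d - i + 1 - c) (min b (d - i + 1))).image (fun j => (j, d - i - j)) := by
      ext ⟨j, k⟩
      simp only [Finset.mem_filter, Finset.mem_product, Finset.mem_range, Finset.mem_image,
        Finset.mem_Ico, Prod.mk.injEq, lt_min_iff]
      constructor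
      · rintro ⟨⟨h1, h2⟩, h3⟩
        exact ⟨j, ⟨by omega, by omega⟩, rfl, by omega⟩
      · rintro ⟨j', ⟨h1, h2, h3⟩, rfl, rfl⟩
        omega
    rw [himg, Finset.card_image_of_injective _ (fun x y h => (Prod.mk.inj h).1), Nat.card_Ico]
    omega
  · rw [Finset.card_eq_zero, Finset.filter_eq_empty_iff]
    rintro ⟨j, k⟩ _ h
    simp only at h
    omega

end Pool.Agent.EGH
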