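import Pool.Agent.EGH.Targets

set_option autoImplicit false

namespace Pool.Agent.EGH
namespace SEG

theorem mem_Std {a b c d : ℕ} {m : Mon} :
    m ∈ Std a b c d ↔ m.1 < a ∧ m.2.1 < b ∧ m.2.2 < c ∧ m.1 + m.2.1 + m.2.2 = d := by
  simp only [Std, Finset.mem_filter, Finset.mem_product, Finset.mem_range]
  tauto

/-- Counting a set of monomials by rows. -/
theorem card_rows (X : Finset Mon) (i0 a : ℕ) (h : ∀ m ∈ X, i0 ≤ m.1 ∧ m.1 < a)
    (hi : i0 < a) :
    X.card = ∑ i ∈ Finset.Ioo i0 a, (X.filter (fun m => m.1 = i)).card +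
      (X.filter (fun m => m.1 = i0)).card := by
  have h1 := Finset.card_eq_sum_card_fiberwise (s := X) (t := Finset.Ico i0 a)
    (f := fun m : Mon => m.1) (by
      intro m hm
      have := h m hm
      simpa using this)
  rw [h1, ← Finset.Ioo_insert_left hi, Finset.sum_insert (by simp), add_comm]

/-- The length of a full row. -/
theorem full_row (X : Finset Mon) (b c D i : ℕ)
    (h : ∀ j k : ℕ, (i, j, k) ∈ X ↔ j < b ∧ k < c ∧ i + j + k = D) :
    (X.filter (fun m => m.1 = i)).card = hh b c D i := by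
  unfold hh
  apply Finset.card_bij (fun (m : Mon) _ => m.2)
  · intro m hm
    rw [Finset.mem_filter] at hm
    obtain ⟨hm, rfl⟩ := hm
    have := (h m.2.1 m.2.2).1 hm
    simp only [Finset.mem_filter, Finset.mem_product, Finset.mem_range]
    exact ⟨⟨this.1, this.2.1⟩, this.2.2⟩
  · intro m hm m' hm' e
    rw [Finset.mem_filter] at hm hm'
    exact Prod.ext (hm.2.trans hm'.2.symm) e
  · intro p hp
    simp only [Finset.mem_filter, Finset.mem_product, Finset.mem_range] at hp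
    refine ⟨(i, p.1, p.2), ?_, rfl⟩
    rw [Finset.mem_filter]
    exact ⟨(h p.1 p.2).2 ⟨hp.1.1, hp.1.2, hp.2⟩, rfl⟩

/-- A row whose second coordinates form an interval. -/
theorem icc_row (X : Finset Mon) (D i lo hi : ℕ)
    (h : ∀ j k : ℕ, (i, j, k) ∈ X ↔ lo ≤ j ∧ j ≤ hi ∧ i + j + k = D) (hhi : i + hi ≤ D) :
    (X.filter (fun m => m.1 = i)).card = hi + 1 - lo := by
  rw [← Nat.card_Icc]
  symm
  apply Finset.card_bij (fun (j : ℕ) _ => ((i, j, D - i - j) : Mon))
  · intro j hj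
    rw [Finset.mem_Icc] at hj
    rw [Finset.mem_filter]
    exact ⟨(h j (D - i - j)).2 ⟨hj.1, hj.2, by omega⟩, rfl⟩
  · intro j _ j' _ e
    have := congrArg (fun m : Mon => m.2.1) e
    exact this
  · intro m hm
    rw [Finset.mem_filter] at hm
    obtain ⟨hm, rfl⟩ := hm
    have := (h m.2.1 m.2.2).1 hm
    refine ⟨m.2.1, ?_, ?_⟩
    · rw [Finset.mem_Icc]; exact ⟨this.1, this.2.1⟩
    · apply Prod.ext
      · rfl
      · apply Prod.ext
        · rfl
        · show D - m.1 - m.2.1 = m.2.2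
          omega

/-- The length of the row `i`. -/
theorem hh_eq (b c D i : ℕ) (hb : 1 ≤ b) (hi : i ≤ D) :
    hh b c D i = min (b - 1) (D - i) + 1 - (D - i + 1 - c) := by
  classical
  let X : Finset Mon := (Std (i + 1) b c D)
  rw [← full_row X b c D i (by
    intro j k
    rw [mem_Std]
    simp only
    omega)]
  refine icc_row X D i (D - i + 1 - c) (min (b - 1) (D - i)) ?_ (by omega)
  intro j k
  rw [mem_Std]
  simp only
  omega

end SEG

open SEG

theorem n_seg : N_SEG := by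
  intro a b c d ha hab hbc S hS hne
  obtain ⟨hsub, hseg⟩ := hS
  -- the least first coordinate
  obtain ⟨m0, hm0, hmin⟩ := Finset.exists_min_image S (fun m : Mon => m.1) hne
  obtain ⟨i0, hi0⟩ : ∃ i0, i0 = m0.1 := ⟨_, rfl⟩
  have hm0S := mem_Std.1 (hsub hm0)
  have hi0a : i0 < a := by omega
  have hi0d : i0 ≤ d := by omega
  have hlow : ∀ m ∈ S, i0 ≤ m.1 ∧ m.1 < a := by
    intro m hm
    have h1 := hmin m hm
    have h2 := mem_Std.1 (hsub hm)
    omega
  -- rows above are full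
  have hfull : ∀ i, i0 < i → i < a → ∀ j k : ℕ, (i, j, k) ∈ S ↔ j < b ∧ k < c ∧ i + j + k = d := by
    intro i hi hia j k
    constructor
    · intro h
      have := mem_Std.1 (hsub h)
      exact ⟨this.2.1, this.2.2.1, this.2.2.2⟩
    · intro h
      refine hseg m0 hm0 (i, j, k) (mem_Std.2 ⟨hia, h.1, h.2.1, h.2.2⟩) (Or.inl ?_)
      show m0.1 < i
      omega
  -- the least second coordinate in the row i0
  obtain ⟨m1, hm1, hmin1⟩ := Finset.exists_min_image (S.filter (fun m => m.1 = i0))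
    (fun m : Mon => m.2.1) ⟨m0, by rw [Finset.mem_filter]; exact ⟨hm0, hi0.symm⟩⟩
  rw [Finset.mem_filter] at hm1
  obtain ⟨j1, hj1⟩ : ∃ j1, j1 = m1.2.1 := ⟨_, rfl⟩
  have hm1S := mem_Std.1 (hsub hm1.1)
  have hrow : ∀ j k : ℕ, (i0, j, k) ∈ S ↔ j1 ≤ j ∧ j ≤ min (b - 1) (d - i0) ∧ i0 + j + k = d := by
    intro j k
    constructor
    · intro h
      have h1 := mem_Std.1 (hsub h)
      have h2 := hmin1 (i0, j, k) (by rw [Finset.mem_filter]; exact ⟨h, rfl⟩)
      simp only at h1 h2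
      refine ⟨by omega, ?_, by omega⟩
      rw [le_min_iff]
      omega
    · rintro ⟨h1, h2, h3⟩
      rw [le_min_iff] at h2
      refine hseg m1 hm1.1 (i0, j, k) (mem_Std.2 ⟨hi0a, by simp only; omega, by simp only; omega, h3⟩)
        (Or.inr ⟨?_, ?_⟩)
      · show i0 = m1.1
        exact hm1.2.symm
      · show m1.2.1 ≤ j
        omega
  have hm1e := hm1.2
  have hj1b : j1 ≤ min (b - 1) (d - i0) := by
    rw [le_min_iff]; omega
  have hj1c : d - i0 + 1 - c ≤ j1 := by omega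
  have hHH : hh b c d i0 = min (b - 1) (d - i0) + 1 - (d - i0 + 1 - c) := hh_eq b c d i0 (by omega) hi0d
  -- membership in the shadow
  have hsh : ∀ m : Mon, m ∈ shadow a b c d S ↔ m ∈ Std a b c (d + 1) ∧ ∃ n ∈ S, n ≤ m := by
    intro m
    rw [shadow, Finset.mem_filter]
  have hmul : ∀ i j k : ℕ, (i, j, k) ∈ Std a b c (d + 1) → i0 < i → ∃ n ∈ S, n ≤ ((i, j, k) : Mon) := by
    intro i j k h hi
    have h1 := mem_Std.1 h
    simp only at h1
    by_cases hj : 1 ≤ j
    · exact ⟨(i, j - 1, k), (hfull i hi h1.1 _ _).2 ⟨by omega, by omega, by omega⟩,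
        ⟨le_refl _, ⟨Nat.sub_le _ _, le_refl _⟩⟩⟩
    · by_cases hk : 1 ≤ k
      · exact ⟨(i, j, k - 1), (hfull i hi h1.1 _ _).2 ⟨by omega, by omega, by omega⟩,
          ⟨le_refl _, ⟨le_refl _, Nat.sub_le _ _⟩⟩⟩
      · refine ⟨(d, 0, 0), ?_, ⟨by show d ≤ i; omega, ⟨Nat.zero_le _, Nat.zero_le _⟩⟩⟩
        refine hseg m0 hm0 _ (mem_Std.2 ⟨by simp only; omega, by simp only; omega,
          by simp only; omega, by simp⟩) ?_
        by_cases h0 : m0.1 < d
        · exact Or.inl h0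
        · refine Or.inr ⟨?_, ?_⟩
          · show d = m0.1
            omega
          · show m0.2.1 ≤ 0
            omega
  have hshlow : ∀ m ∈ shadow a b c d S, i0 ≤ m.1 ∧ m.1 < a := by
    intro m hm
    obtain ⟨h1, n, hn, hnm⟩ := (hsh m).1 hm
    have h2 := (hlow n hn).1
    have h3 : n.1 ≤ m.1 := hnm.1
    exact ⟨h2.trans h3, (mem_Std.1 h1).1⟩
  have hshfull : ∀ i, i0 < i → i < a → ∀ j k : ℕ,
      (i, j, k) ∈ shadow a b c d S ↔ j < b ∧ k < c ∧ i + j + k = d + 1 := by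
    intro i hi hia j k
    rw [hsh]
    constructor
    · rintro ⟨h, -⟩
      have := mem_Std.1 h
      exact ⟨this.2.1, this.2.2.1, this.2.2.2⟩
    · intro h
      have h1 : ((i, j, k) : Mon) ∈ Std a b c (d + 1) := mem_Std.2 ⟨hia, h.1, h.2.1, h.2.2⟩
      exact ⟨h1, hmul i j k h1 hi⟩
  have hshrow : ∀ j k : ℕ, (i0, j, k) ∈ shadow a b c d S ↔
      max j1 (d + 1 - i0 + 1 - c) ≤ j ∧ j ≤ min (b - 1) (d + 1 - i0) ∧ i0 + j + k = d + 1 := by
    intro j k
    rw [hsh, mem_Std]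
    simp only
    constructor
    · rintro ⟨h1, n, hn, hnm⟩
      have hn1 : n.1 ≤ i0 := hnm.1
      have hn2 : n.2.1 ≤ j := hnm.2.1
      have hn3 := (hlow n hn).1
      have hn4 : n.1 = i0 := by omega
      have hn5 := (hrow n.2.1 n.2.2).1 (by rw [← hn4]; exact hn)
      refine ⟨?_, ?_, by omega⟩
      · rw [max_le_iff]; omega
      · rw [le_min_iff]; omega
    · rintro ⟨h1, h2, h3⟩
      rw [max_le_iff] at h1
      rw [le_min_iff] at h2
      refine ⟨⟨hi0a, by omega, by omega, by omega⟩, ?_⟩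
      by_cases hk : 1 ≤ k
      · exact ⟨(i0, j, k - 1), (hrow _ _).2 ⟨by omega, by rw [le_min_iff]; omega, by omega⟩,
          ⟨le_refl _, ⟨le_refl _, Nat.sub_le _ _⟩⟩⟩
      · rw [le_min_iff] at hj1b
        exact ⟨(i0, j - 1, k), (hrow _ _).2 ⟨by omega, by rw [le_min_iff]; omega, by omega⟩,
          ⟨le_refl _, ⟨Nat.sub_le _ _, le_refl _⟩⟩⟩
  refine ⟨i0, min (b - 1) (d - i0) + 1 - j1, hi0a, hi0d, by omega, by rw [hHH]; omega, ?_, ?_⟩
  · rw [card_rows S i0 a hlow hi0a]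
    congr 1
    · apply Finset.sum_congr rfl
      intro i hi
      rw [Finset.mem_Ioo] at hi
      exact full_row S b c d i (hfull i hi.1 hi.2)
    · exact icc_row S d i0 j1 _ hrow (by omega)
  · rw [card_rows (shadow a b c d S) i0 a hshlow hi0a]
    have e1 : ∑ i ∈ Finset.Ioo i0 a, ((shadow a b c d S).filter (fun m => m.1 = i)).card =
        ∑ i ∈ Finset.Ioo i0 a, hh b c (d + 1) i := by
      apply Finset.sum_congr rfl
      intro i hi
      rw [Finset.mem_Ioo] at hi
      exact full_row _ b c (d + 1) i (hshfull i hi.1 hi.2)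
    rw [e1, icc_row (shadow a b c d S) (d + 1) i0 (max j1 (d + 1 - i0 + 1 - c)) _ hshrow (by omega),
      hHH]
    split_ifs <;> omega

end Pool.Agent.EGH
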