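import Pool.Agent.EGH.Targets

set_option autoImplicit false

/-!
EGH-SHS: the shadow of a segment is a segment.
-/

namespace Pool.Agent.EGH

namespace PSHS_

theorem mem_Std {a b c d : ℕ} {m : Mon} : m ∈ Std a b c d ↔
    m.1 < a ∧ m.2.1 < b ∧ m.2.2 < c ∧ m.1 + m.2.1 + m.2.2 = d := by
  unfold Std
  rw [Finset.mem_filter, Finset.mem_product, Finset.mem_product, Finset.mem_range,
    Finset.mem_range, Finset.mem_range]
  tauto

end PSHS_

open PSHS_ in
theorem n_shs : N_SHS := by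
  intro a b c d S hS
  refine ⟨Finset.filter_subset _ _, ?_⟩
  intro x hx y hy hyx
  unfold shadow at hx ⊢
  rw [Finset.mem_filter] at hx ⊢
  obtain ⟨hxS, n, hn, hnx⟩ := hx
  refine ⟨hy, ?_⟩
  have hnS := hS.1 hn
  obtain ⟨x1, x2, x3⟩ := x
  obtain ⟨y1, y2, y3⟩ := y
  rw [mem_Std] at hxS hy hnS
  obtain ⟨n1, n2, n3⟩ := n
  rw [Prod.le_def, Prod.le_def] at hnx
  simp only [lexge] at hyx hxS hy hnS hnx
  by_cases h3 : 1 ≤ y3
  · refine ⟨(y1, y2, y3 - 1), hS.2 _ hn _ ?_ ?_, ?_⟩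
    · rw [mem_Std]; simp only; omega
    · simp only [lexge]; omega
    · rw [Prod.le_def, Prod.le_def]; simp only; omega
  · by_cases h2 : 1 ≤ y2
    · refine ⟨(y1, y2 - 1, y3), hS.2 _ hn _ ?_ ?_, ?_⟩
      · rw [mem_Std]; simp only; omega
      · simp only [lexge]; omega
      · rw [Prod.le_def, Prod.le_def]; simp only; omega
    · refine ⟨(y1 - 1, y2, y3), hS.2 _ hn _ ?_ ?_, ?_⟩
      · rw [mem_Std]; simp only; omega
      · simp only [lexge]; omega
      · rw [Prod.le_def, Prod.le_def]; simp only; omega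

end Pool.Agent.EGH
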