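import Pool.Agent.EGH.Targets

set_option autoImplicit false
open MvPolynomial Matrix

namespace Pool.Agent.EGH

universe u

namespace SIGMA_

variable {K : Type u} [Field K]

/-- a submodule between `S` and a finite dimensional one: dimension of the image modulo `S` -/
lemma finrank_map_mkQ {V : Type u} [AddCommGroup V] [Module K V] (S U : Submodule K V)
    (h : S ≤ U) [Module.Finite K U] :
    Module.finrank K (U.map S.mkQ) + Module.finrank K S = Module.finrank K U := by
  have h1 := LinearMap.finrank_range_add_finrank_ker (S.mkQ.domRestrict U)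
  have h2 : LinearMap.range (S.mkQ.domRestrict U) = U.map S.mkQ := by
    rw [LinearMap.range_domRestrict]
  have h3 : LinearMap.ker (S.mkQ.domRestrict U) = S.comap U.subtype := by
    rw [LinearMap.ker_domRestrict, Submodule.ker_mkQ]
  have h4 : Module.finrank K (S.comap U.subtype) = Module.finrank K S :=
    (Submodule.comapSubtypeEquivOfLe h).finrank_eq
  rw [h2, h3, h4] at h1
  exact h1

/-- `r ↦ ∑ r_j g_j` -/
noncomputable def Phi {v : ℕ} (g : Fin v → P K) : (Fin v → Rd K 1) →ₗ[K] P K :=
  ∑ j, (LinearMap.mulRight K (g j)) ∘ₗ (Rd K 1).subtype ∘ₗ LinearMap.proj j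

lemma Phi_apply {v : ℕ} (g : Fin v → P K) (r : Fin v → Rd K 1) :
    Phi g r = ∑ j, (r j : P K) * g j := by
  simp [Phi]

lemma up_eq {f : Fin 3 → P K} {d v : ℕ} {g : Fin v → P K} {W : Submodule K (P K)}
    (hB : BasisMod f d W g) :
    up f d W = LinearMap.range (Phi g) ⊔ Jd f (d + 1) := by
  apply le_antisymm
  · refine sup_le ?_ le_sup_right
    rw [Submodule.mul_le]
    intro l hl w hw
    rw [hB.span, Submodule.mem_sup] at hw
    obtain ⟨y, hy, z, hz, rfl⟩ := hw
    rw [mul_add]
    refine Submodule.add_mem _ ?_ ?_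
    · refine (le_sup_right : Jd f (d + 1) ≤ _) ⟨?_, ?_⟩
      · have : (l * y).IsHomogeneous (1 + d) :=
          MvPolynomial.IsHomogeneous.mul hl hy.1
        rw [add_comm] at this
        exact this
      · exact Ideal.mul_mem_left _ _ hy.2
    · refine (le_sup_left : LinearMap.range (Phi g) ≤ _) ?_
      rw [Submodule.mem_span_range_iff_exists_fun] at hz
      obtain ⟨c, rfl⟩ := hz
      refine ⟨fun j => c j • ⟨l, hl⟩, ?_⟩
      rw [Phi_apply, Finset.mul_sum]
      refine Finset.sum_congr rfl fun j _ => ?_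
      simp
  · refine sup_le ?_ le_sup_right
    rintro _ ⟨r, rfl⟩
    rw [Phi_apply]
    refine (le_sup_left : Rd K 1 * W ≤ _) (Submodule.sum_mem _ fun j _ => ?_)
    refine Submodule.mul_mem_mul (r j).2 ?_
    rw [hB.span]
    exact (le_sup_right : Submodule.span K (Set.range g) ≤ _) (Submodule.subset_span ⟨j, rfl⟩)

end SIGMA_

open SIGMA_

theorem t_sigma (hJD : T_JD.{u}) (hK1 : T_K1.{u}) (hD : T_DIMR.{u}) : T_SIGMA.{u} := by
  intro K _ f a hCI h01 h12 d hd v g W hB
  have hfin : ∀ e, Module.Finite K (Rd K e) := fun e => (hD K e).1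
  have hR1 : Module.finrank K (Rd K 1) = 3 := by
    have := (hD K 1).2
    omega
  have := hfin 1
  have := hfin (d + 1)
  -- the projection
  let Ψ : Sig f a d g →ₗ[K] (Fin v → Rd K 1) :=
    { toFun := fun x j => ⟨x.1.1 j, x.2.1 j⟩
      map_add' := fun x y => by ext j; simp
      map_smul' := fun c x => by ext j; simp }
  have hinj : Function.Injective Ψ := by
    rw [injective_iff_map_eq_zero]
    intro x hx
    obtain ⟨⟨r, q⟩, hx1, hx2, hx3⟩ := x
    have hr : ∀ j, r j = 0 := by
      intro j
      have := congrFun hx j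
      have := congrArg Subtype.val this
      simpa [Ψ] using this
    simp only at hx3
    have h0 : ∑ k, q k * f k = 0 := by
      rw [← hx3]
      exact Finset.sum_eq_zero fun j _ => by rw [hr j, zero_mul]
    obtain ⟨h, hh, hq⟩ := (hK1 K f a hCI).2 (d + 1) q hx2 h0
    have hh0 : h = 0 := by
      funext k
      have := hh k
      have hk : ¬ (a 0 + a 1 + a 2 ≤ d + 1 + a k) := by
        fin_cases k <;> simp <;> omega
      rw [Rm, if_neg hk] at this
      exact this
    have hq0 : q = 0 := by
      rw [hq, hh0]; simp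
    apply Subtype.ext
    refine Prod.ext ?_ ?_
    · funext j; exact hr j
    · exact hq0
  have hfinS : Module.Finite K (Sig f a d g) := Module.Finite.of_injective Ψ hinj
  refine ⟨hfinS, ?_⟩
  -- the kernel of `A`
  let A : (Fin v → Rd K 1) →ₗ[K] (P K ⧸ Jd f (d + 1)) := (Jd f (d + 1)).mkQ ∘ₗ Phi g
  have hker : LinearMap.ker A = LinearMap.range Ψ := by
    ext r
    rw [LinearMap.mem_ker, LinearMap.mem_range]
    constructor
    · intro hr
      have hr' : Phi g r ∈ Jd f (d + 1) := by
        simpa [A] using hr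
      rw [Phi_apply] at hr'
      obtain ⟨y, hy, hy'⟩ := (hJD K f a hCI.hom (d + 1) _).1 hr'
      refine ⟨⟨(fun j => (r j : P K), y), fun j => (r j).2, hy, hy'⟩, ?_⟩
      ext j
      rfl
    · rintro ⟨x, rfl⟩
      have : Phi g (Ψ x) ∈ Jd f (d + 1) := by
        rw [Phi_apply]
        refine (hJD K f a hCI.hom (d + 1) _).2 ⟨x.1.2, x.2.2.1, ?_⟩
        exact x.2.2.2
      simpa [A] using this
  have hrange : LinearMap.range A = (up f d W).map (Jd f (d + 1)).mkQ := by
    rw [LinearMap.range_comp, up_eq hB, Submodule.map_sup, Submodule.mkQ_map_self, sup_bot_eq]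
  have hup : up f d W ≤ Rd K (d + 1) := by
    rw [up_eq hB]
    refine sup_le ?_ inf_le_left
    rintro _ ⟨r, rfl⟩
    rw [Phi_apply]
    refine Submodule.sum_mem _ fun j _ => ?_
    have : ((r j : P K) * g j).IsHomogeneous (1 + d) :=
      MvPolynomial.IsHomogeneous.mul (r j).2 (hB.mem j)
    rw [add_comm] at this
    exact this
  have : Module.Finite K (up f d W) := Submodule.finiteDimensional_of_le hup
  have e1 := LinearMap.finrank_range_add_finrank_ker A
  have e2 : Module.finrank K (LinearMap.ker A) = Module.finrank K (Sig f a d g) := by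
    rw [hker]
    exact LinearMap.finrank_range_of_inj hinj
  have e3 : Module.finrank K (Fin v → Rd K 1) = v * 3 := by
    rw [Module.finrank_pi_fintype]
    simp [hR1]
  have e4 := finrank_map_mkQ (Jd f (d + 1)) (up f d W) le_sup_right
  rw [hrange, e2, e3] at e1
  omega

end Pool.Agent.EGH
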