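import Pool.Agent.EGH.Targets

set_option autoImplicit false
open MvPolynomial Matrix

namespace Pool.Agent.EGH

universe u

namespace PSOC_

variable {K : Type u} [Field K]

lemma Rm_X {m k : ℕ} {y : P K} (hy : y ∈ Rm K m k) (i : Fin 3) : X i * y ∈ Rm K (m + 1) k := by
  unfold Rm at hy ⊢
  by_cases h : k ≤ m
  · rw [if_pos h] at hy
    rw [if_pos (Nat.le_succ_of_le h)]
    have h1 : (X i : P K).IsHomogeneous 1 := isHomogeneous_X K i
    have h2 := h1.mul ((mem_homogeneousSubmodule (m - k) y).1 hy)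
    have h3 : 1 + (m - k) = m + 1 - k := by omega
    rw [h3] at h2
    exact (mem_homogeneousSubmodule _ _).2 h2
  · rw [if_neg h, Submodule.mem_bot] at hy
    rw [hy, mul_zero]
    exact Submodule.zero_mem _

lemma Rm_zero {m k : ℕ} {y : P K} (hy : y ∈ Rm K m k) (h : m < k) : y = 0 := by
  unfold Rm at hy
  rw [if_neg (not_le.2 h), Submodule.mem_bot] at hy
  exact hy

lemma cross0 (x y : Fin 3 → P K) : (x ⨯₃ y) 0 = x 1 * y 2 - x 2 * y 1 := by
  rw [cross_apply]; rfl

lemma cross1 (x y : Fin 3 → P K) : (x ⨯₃ y) 1 = x 2 * y 0 - x 0 * y 2 := by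
  rw [cross_apply]; rfl

lemma cross2 (x y : Fin 3 → P K) : (x ⨯₃ y) 2 = x 0 * y 1 - x 1 * y 0 := by
  rw [cross_apply]; rfl

lemma cross_ext {x y z : Fin 3 → P K} (h0 : x 1 * y 2 - x 2 * y 1 = z 0)
    (h1 : x 2 * y 0 - x 0 * y 2 = z 1) (h2 : x 0 * y 1 - x 1 * y 0 = z 2) : x ⨯₃ y = z := by
  funext i
  fin_cases i
  · exact (cross0 x y).trans h0
  · exact (cross1 x y).trans h1
  · exact (cross2 x y).trans h2

/-- the vector of the variables -/
noncomputable def Xv : Fin 3 → P K := fun i => X i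

end PSOC_

open PSOC_

theorem t_soc (hJD : T_JD.{u}) (hK1 : T_K1.{u}) (hK2 : T_K2.{u}) (hM : T_MONCI.{u}) :
    T_SOC.{u} := by
  intro K _ f a hf m p hp hm hX
  have hXv : CI (Xv : Fin 3 → P K) (fun _ => 1) := by
    have h := hM K (fun _ => 1) (fun _ => le_refl 1)
    simp only [pow_one] at h
    exact h
  -- the coefficients
  have hc : ∀ j : Fin 3, ∃ y : Fin 3 → P K, (∀ k, y k ∈ Rm K (m + 1) (a k)) ∧
      X j * p = ∑ k, y k * f k := by
    intro j
    have h1 : X j * p ∈ Jd f (m + 1) := by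
      refine ⟨?_, hX j⟩
      have h2 : (X j : P K).IsHomogeneous 1 := isHomogeneous_X K j
      have h3 := h2.mul ((mem_homogeneousSubmodule m p).1 hp)
      rw [Nat.add_comm 1 m] at h3
      exact (mem_homogeneousSubmodule _ _).2 h3
    exact (hJD K f a hf.hom (m + 1) (X j * p)).1 h1
  choose c hcR hcE using hc
  simp only [Fin.sum_univ_three] at hcE
  -- first syzygies
  have hsyz : ∀ i j : Fin 3, ∃ h : Fin 3 → P K,
      (∀ k, h k ∈ Rm K (m + 2 + a k) (a 0 + a 1 + a 2)) ∧
      (fun k => X i * c j k - X j * c i k) = f ⨯₃ h := by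
    intro i j
    refine (hK1 K f a hf).2 (m + 2) _ (fun k => ?_) ?_
    · exact Submodule.sub_mem _ (Rm_X (hcR j k) i) (Rm_X (hcR i k) j)
    · simp only [Fin.sum_univ_three]
      have e1 := hcE i
      have e2 := hcE j
      linear_combination X j * e1 - X i * e2
  obtain ⟨e0, he0R, he0⟩ := hsyz 2 1
  obtain ⟨e1, he1R, he1⟩ := hsyz 0 2
  obtain ⟨e2, he2R, he2⟩ := hsyz 1 0
  have a0 := congrFun he0 0
  have a1 := congrFun he0 1
  have a2 := congrFun he0 2
  have b0 := congrFun he1 0
  have b1 := congrFun he1 1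
  have b2 := congrFun he1 2
  have c0 := congrFun he2 0
  have c1 := congrFun he2 1
  have c2 := congrFun he2 2
  rw [cross0] at a0 b0 c0
  rw [cross1] at a1 b1 c1
  rw [cross2] at a2 b2 c2
  -- second syzygies
  have hE : ∀ k, X 0 * e0 k + X 1 * e1 k + X 2 * e2 k = 0 := by
    have h1 : f ⨯₃ (fun k => X 0 * e0 k + X 1 * e1 k + X 2 * e2 k) = 0 := by
      apply cross_ext
      · simp only [Pi.zero_apply]
        linear_combination -(X 0 * a0 + X 1 * b0 + X 2 * c0)
      · simp only [Pi.zero_apply]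
        linear_combination -(X 0 * a1 + X 1 * b1 + X 2 * c1)
      · simp only [Pi.zero_apply]
        linear_combination -(X 0 * a2 + X 1 * b2 + X 2 * c2)
    obtain ⟨w, hw, hz⟩ := (hK2 K f a hf).2 (m + 3) (a 0 + a 1 + a 2)
      (fun k => X 0 * e0 k + X 1 * e1 k + X 2 * e2 k) (fun k => by
        have h2 : m + 3 + a k = m + 2 + a k + 1 := by ring
        rw [h2]
        exact Submodule.add_mem _ (Submodule.add_mem _ (Rm_X (he0R k) 0) (Rm_X (he1R k) 1))
          (Rm_X (he2R k) 2)) h1
    have hw0 : w = 0 := Rm_zero hw (by omega)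
    intro k
    have := congrFun hz k
    rw [hw0] at this
    simpa using this
  -- syzygies of the variables
  have hδ : ∀ k : Fin 3, ∃ h : Fin 3 → P K, e0 k = X 1 * h 2 - X 2 * h 1 ∧
      e1 k = X 2 * h 0 - X 0 * h 2 ∧ e2 k = X 0 * h 1 - X 1 * h 0 := by
    intro k
    obtain ⟨h, hh⟩ := (hK1 K Xv (fun _ => 1) hXv).1 ![e0 k, e1 k, e2 k] (by
      simp only [Fin.sum_univ_three, Xv]
      simp only [Matrix.cons_val_zero, Matrix.cons_val_one, Matrix.cons_val]
      linear_combination hE k)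
    have h0 := congrFun hh 0
    have h1 := congrFun hh 1
    have h2 := congrFun hh 2
    rw [cross0] at h0
    rw [cross1] at h1
    rw [cross2] at h2
    exact ⟨h, h0, h1, h2⟩
  choose δ hδ0 hδ1 hδ2 using hδ
  -- the modified coefficients
  set C : Fin 3 → Fin 3 → P K := fun j k => c j k + (f ⨯₃ (fun l => δ l j)) k with hC
  have hη : ∀ k : Fin 3, ∃ w : P K, ∀ j, C j k = w * X j := by
    intro k
    obtain ⟨w, hw⟩ := (hK2 K Xv (fun _ => 1) hXv).1 (fun j => C j k) (by
      apply cross_ext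
      · simp only [Pi.zero_apply, Xv, hC]
        fin_cases k
        · simp only [Fin.zero_eta, cross0]
          linear_combination -a0 - f 1 * hδ0 2 + f 2 * hδ0 1
        · simp only [Fin.mk_one, cross1]
          linear_combination -a1 - f 2 * hδ0 0 + f 0 * hδ0 2
        · simp only [Fin.reduceFinMk, cross2]
          linear_combination -a2 - f 0 * hδ0 1 + f 1 * hδ0 0
      · simp only [Pi.zero_apply, Xv, hC]
        fin_cases k
        · simp only [Fin.zero_eta, cross0]
          linear_combination -b0 - f 1 * hδ1 2 + f 2 * hδ1 1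
        · simp only [Fin.mk_one, cross1]
          linear_combination -b1 - f 2 * hδ1 0 + f 0 * hδ1 2
        · simp only [Fin.reduceFinMk, cross2]
          linear_combination -b2 - f 0 * hδ1 1 + f 1 * hδ1 0
      · simp only [Pi.zero_apply, Xv, hC]
        fin_cases k
        · simp only [Fin.zero_eta, cross0]
          linear_combination -c0 - f 1 * hδ2 2 + f 2 * hδ2 1
        · simp only [Fin.mk_one, cross1]
          linear_combination -c1 - f 2 * hδ2 0 + f 0 * hδ2 2
        · simp only [Fin.reduceFinMk, cross2]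
          linear_combination -c2 - f 0 * hδ2 1 + f 1 * hδ2 0)
    refine ⟨w, fun j => ?_⟩
    have := congrFun hw j
    simpa [Xv] using this
  choose η hη using hη
  have hfin : X 0 * p = X 0 * (∑ l, η l * f l) := by
    have h0 := hη 0 0
    have h1 := hη 1 0
    have h2 := hη 2 0
    simp only [hC] at h0 h1 h2
    rw [cross0] at h0
    rw [cross1] at h1
    rw [cross2] at h2
    rw [hcE 0, Fin.sum_univ_three]
    linear_combination f 0 * h0 + f 1 * h1 + f 2 * h2
  have hX0 : (X 0 : P K) ≠ 0 := X_ne_zero 0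
  have hp2 := mul_left_cancel₀ hX0 hfin
  rw [hp2]
  unfold J
  exact Ideal.sum_mem _ fun l _ => Ideal.mul_mem_left _ _ (Ideal.subset_span ⟨l, rfl⟩)

end Pool.Agent.EGH
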