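import Pool.Agent.EGH.Targets

set_option autoImplicit false
open MvPolynomial Matrix

namespace Pool.Agent.EGH

universe u

theorem t_triv (hAV : T_AV2.{u}) (hJD : T_JD.{u}) (hD : T_DIMR.{u}) : T_TRIV.{u} := by
  intro K _ _ f a hf h01 h12 d had W hJW hWR
  have hfle : ∀ (e : ℕ) (U : Submodule K (P K)), U ≤ Rd K e → Module.Finite K U := by
    intro e U hU
    have := (hD K e).1
    exact Submodule.finiteDimensional_of_le hU
  have hJdle : ∀ e, Jd f e ≤ Rd K e := fun e => inf_le_left
  have hmul : ∀ {l w : P K}, l ∈ Rd K 1 → w ∈ Rd K d → l * w ∈ Rd K (d + 1) := by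
    intro l w hl hw
    rw [mem_homogeneousSubmodule] at *
    have := hl.mul hw
    rwa [add_comm] at this
  obtain ⟨l, hl, hreg⟩ := hAV K (f 0) (f 1) (a 0) (a 1) (hf.pos 0) (hf.pos 1)
    ((mem_homogeneousSubmodule _ _).2 (hf.hom 0)) ((mem_homogeneousSubmodule _ _).2 (hf.hom 1))
    hf.ne hf.reg1 (Rd K 1) (by
      rintro Q _ _ _ ⟨i, hi⟩
      exact ⟨X i, (mem_homogeneousSubmodule _ _).2 (isHomogeneous_X K i), hi⟩)
  have huple : up f d W ≤ Rd K (d + 1) := by
    refine sup_le ?_ (hJdle _)
    rw [Submodule.mul_le]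
    intro l hl w hw
    exact hmul hl (hWR hw)
  have hWfin : Module.Finite K W := hfle _ _ hWR
  have hupfin : Module.Finite K (up f d W) := hfle _ _ huple
  have hJfin : Module.Finite K (Jd f d) := hfle _ _ (hJdle d)
  have hkey : ∀ w ∈ W, l * w ∈ Jd f (d + 1) → w ∈ Jd f d := by
    intro w hw hlw
    obtain ⟨y, hy, he⟩ := (hJD K f a hf.hom (d + 1) _).1 hlw
    have hy2 : y 2 = 0 := by
      have h := hy 2
      unfold Rm at h
      rw [if_neg (by omega)] at h
      simpa using h
    rw [Fin.sum_univ_three, hy2, zero_mul, add_zero, mul_comm] at he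
    obtain ⟨q, r, hqr⟩ := hreg w (y 0) (y 1) he
    refine ⟨hWR hw, ?_⟩
    change w ∈ J f
    rw [hqr]
    exact Ideal.add_mem _ (Ideal.mul_mem_left _ _ (Ideal.subset_span ⟨0, rfl⟩))
      (Ideal.mul_mem_left _ _ (Ideal.subset_span ⟨1, rfl⟩))
  let M : W →ₗ[K] up f d W :=
    { toFun := fun w => ⟨l * w.1, Submodule.mem_sup_left (Submodule.mul_mem_mul hl w.2)⟩
      map_add' := by
        intro x y
        apply Subtype.ext
        simp [mul_add]
      map_smul' := by
        intro c x
        apply Subtype.ext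
        simp }
  let J1 : Submodule K (up f d W) := (Jd f (d + 1)).comap (up f d W).subtype
  have hJ1 : Module.finrank K J1 = Module.finrank K (Jd f (d + 1)) :=
    (Submodule.comapSubtypeEquivOfLe (show Jd f (d + 1) ≤ up f d W from le_sup_right)).finrank_eq
  have hq := Submodule.finrank_quotient_add_finrank J1
  let Φ : W →ₗ[K] (up f d W ⧸ J1) := J1.mkQ.comp M
  have hrn := LinearMap.finrank_range_add_finrank_ker Φ
  have hr : Module.finrank K (LinearMap.range Φ) ≤ Module.finrank K (up f d W ⧸ J1) :=
    Submodule.finrank_le _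
  have hk : Module.finrank K (LinearMap.ker Φ) ≤ Module.finrank K (Jd f d) := by
    let F : LinearMap.ker Φ →ₗ[K] Jd f d :=
      LinearMap.codRestrict _ (W.subtype.comp (LinearMap.ker Φ).subtype) (by
        rintro ⟨w, hw⟩
        refine hkey w.1 w.2 ?_
        have : Submodule.Quotient.mk (M w) = (0 : up f d W ⧸ J1) := hw
        rw [Submodule.Quotient.mk_eq_zero] at this
        exact this)
    have hF : Function.Injective F := by
      intro x y hxy
      apply Subtype.ext
      apply Subtype.ext
      have h := congrArg (fun z : Jd f d => z.1) hxy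
      exact h
    exact LinearMap.finrank_le_finrank_of_injective hF
  omega

end Pool.Agent.EGH
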