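import Pool.Agent.EGH.Targets

set_option autoImplicit false
open MvPolynomial

/-!
T_TRUNC: truncation of the degrees (project EGH, MP_e5dae2_al).
-/

namespace Pool.Agent.EGH

universe u

namespace PTRUNC_

variable {K : Type u} [Field K]

lemma Rm_bot {e k : ℕ} (h : e < k) : Rm K e k = ⊥ := by
  rw [Rm, if_neg (by omega)]

lemma Jd_le (hJD : T_JD.{u}) {f f' : Fin 3 → P K} {a a' : Fin 3 → ℕ}
    (hf : ∀ i, (f i).IsHomogeneous (a i)) (hf' : ∀ i, (f' i).IsHomogeneous (a' i)) {e : ℕ}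
    (h : ∀ k, (f' k = f k ∧ a' k = a k) ∨ (e < a k ∧ e < a' k)) : Jd f e ≤ Jd f' e := by
  intro p hp
  rw [hJD K f a hf e p] at hp
  rw [hJD K f' a' hf' e p]
  obtain ⟨y, hy, rfl⟩ := hp
  refine ⟨y, fun k => ?_, Finset.sum_congr rfl fun k _ => ?_⟩
  · rcases h k with ⟨-, h2⟩ | ⟨h1, h2⟩
    · rw [h2]; exact hy k
    · have h3 := hy k
      rw [Rm_bot h1, Submodule.mem_bot] at h3
      rw [h3]
      exact Submodule.zero_mem _
  · rcases h k with ⟨h1, -⟩ | ⟨h1, h2⟩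
    · rw [h1]
    · have h3 := hy k
      rw [Rm_bot h1, Submodule.mem_bot] at h3
      rw [h3, zero_mul, zero_mul]

lemma Jd_eq (hJD : T_JD.{u}) {f f' : Fin 3 → P K} {a a' : Fin 3 → ℕ}
    (hf : ∀ i, (f i).IsHomogeneous (a i)) (hf' : ∀ i, (f' i).IsHomogeneous (a' i)) {e : ℕ}
    (h : ∀ k, (f' k = f k ∧ a' k = a k) ∨ (e < a k ∧ e < a' k)) : Jd f' e = Jd f e := by
  refine le_antisymm (Jd_le hJD hf' hf fun k => ?_) (Jd_le hJD hf hf' h)
  rcases h k with ⟨h1, h2⟩ | ⟨h1, h2⟩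
  · exact Or.inl ⟨h1.symm, h2.symm⟩
  · exact Or.inr ⟨h2, h1⟩

lemma Xpow_mem (i : Fin 3) (n : ℕ) : (X i : P K) ^ n ∈ Rd K n := by
  rw [mem_homogeneousSubmodule]
  simpa using (isHomogeneous_X K i).pow n

lemma not_dvd_both {π : P K} (hπ : Irreducible π) (n : ℕ) :
    ∃ h ∈ Rd K n, ¬ π ∣ h := by
  by_contra hcon
  push Not at hcon
  have hp : Prime π := hπ.prime
  have h0 : π ∣ X 0 := hp.dvd_of_dvd_pow (hcon _ (Xpow_mem 0 n))
  have h1 : π ∣ X 1 := hp.dvd_of_dvd_pow (hcon _ (Xpow_mem 1 n))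
  have hX : Irreducible (X 0 : P K) := X_prime.irreducible
  have h2 : (X 0 : P K) ∣ π := (hX.dvd_iff.1 h0 |>.resolve_left hπ.not_isUnit).dvd
  have h3 : (X 0 : P K) ∣ X 1 := h2.trans h1
  rw [X_dvd_X] at h3
  exact absurd h3 (by decide)

end PTRUNC_

open PTRUNC_ in
theorem t_trunc (hA1 : T_AV1.{u}) (hA2 : T_AV2.{u}) (hM : T_MONCI.{u}) (hJD : T_JD.{u}) :
    T_TRUNC.{u} := by
  intro K _ _ f a hf h01 h12 d
  -- a general step for the last entry
  have last : ∀ (f0 f1 : P K) (e0 e1 : ℕ), 1 ≤ e0 → 1 ≤ e1 → f0 ∈ Rd K e0 → f1 ∈ Rd K e1 →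
      f0 ≠ 0 → (∀ p q : P K, p * f1 = q * f0 → ∃ r, p = r * f0) →
      ∃ f2 ∈ Rd K (d + 2), CI ![f0, f1, f2] ![e0, e1, d + 2] := by
    intro f0 f1 e0 e1 he0 he1 hf0 hf1 hne hreg
    obtain ⟨h, hh, hr⟩ := hA2 K f0 f1 e0 e1 he0 he1 hf0 hf1 hne hreg (Rd K (d + 2)) (by
      intro Q hQ _ _ ⟨i, hi⟩
      exact ⟨X i ^ (d + 2), Xpow_mem i _, fun h => hi (hQ.mem_of_pow_mem _ h)⟩)
    refine ⟨h, hh, ?_, ?_, ?_, ?_, ?_⟩
    · intro i
      fin_cases i
      · exact he0
      · exact he1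
      · simp
    · intro i
      fin_cases i
      · exact hf0
      · exact hf1
      · exact hh
    · exact hne
    · exact hreg
    · exact hr
  by_cases c2 : a 2 ≤ d + 2
  · refine ⟨f, ?_, rfl, rfl⟩
    have : (fun i => min (a i) (d + 2)) = a := by
      funext i
      fin_cases i
      · exact min_eq_left (by simp; omega)
      · exact min_eq_left (by simp; omega)
      · exact min_eq_left c2
    rw [this]
    exact hf
  push Not at c2
  by_cases c1 : a 1 ≤ d + 2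
  · obtain ⟨f2, -, hCI⟩ := last (f 0) (f 1) (a 0) (a 1) (hf.pos 0) (hf.pos 1) (hf.hom 0)
      (hf.hom 1) hf.ne hf.reg1
    have ha : (fun i => min (a i) (d + 2)) = ![a 0, a 1, d + 2] := by
      funext i
      fin_cases i
      · exact min_eq_left (by simp; omega)
      · exact min_eq_left c1
      · exact min_eq_right c2.le
    refine ⟨![f 0, f 1, f2], by rw [ha]; exact hCI, ?_, ?_⟩
    · refine Jd_eq hJD hf.hom hCI.hom fun k => ?_
      fin_cases k
      · exact Or.inl ⟨rfl, rfl⟩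
      · exact Or.inl ⟨rfl, rfl⟩
      · exact Or.inr ⟨by simp; omega, by simp⟩
    · refine Jd_eq hJD hf.hom hCI.hom fun k => ?_
      fin_cases k
      · exact Or.inl ⟨rfl, rfl⟩
      · exact Or.inl ⟨rfl, rfl⟩
      · exact Or.inr ⟨by simp; omega, by simp⟩
  push Not at c1
  by_cases c0 : a 0 ≤ d + 2
  · obtain ⟨f1, hf1, hreg⟩ := hA1 K (f 0) hf.ne (Rd K (d + 2))
      (fun π hπ _ => not_dvd_both hπ (d + 2))
    obtain ⟨f2, -, hCI⟩ := last (f 0) f1 (a 0) (d + 2) (hf.pos 0) (by omega) (hf.hom 0)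
      hf1 hf.ne hreg
    have ha : (fun i => min (a i) (d + 2)) = ![a 0, d + 2, d + 2] := by
      funext i
      fin_cases i
      · exact min_eq_left c0
      · exact min_eq_right c1.le
      · exact min_eq_right c2.le
    refine ⟨![f 0, f1, f2], by rw [ha]; exact hCI, ?_, ?_⟩
    · refine Jd_eq hJD hf.hom hCI.hom fun k => ?_
      fin_cases k
      · exact Or.inl ⟨rfl, rfl⟩
      · exact Or.inr ⟨by simp; omega, by simp⟩
      · exact Or.inr ⟨by simp; omega, by simp⟩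
    · refine Jd_eq hJD hf.hom hCI.hom fun k => ?_
      fin_cases k
      · exact Or.inl ⟨rfl, rfl⟩
      · exact Or.inr ⟨by simp; omega, by simp⟩
      · exact Or.inr ⟨by simp; omega, by simp⟩
  push Not at c0
  have hCI := hM K (fun _ => d + 2) (fun _ => by omega)
  have ha : (fun i => min (a i) (d + 2)) = fun _ => d + 2 := by
    funext i
    fin_cases i
    · exact min_eq_right c0.le
    · exact min_eq_right c1.le
    · exact min_eq_right c2.le
  refine ⟨_, by rw [ha]; exact hCI, ?_, ?_⟩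
  · refine Jd_eq hJD hf.hom hCI.hom fun k => Or.inr ?_
    fin_cases k
    · exact ⟨by simp; omega, by simp⟩
    · exact ⟨by simp; omega, by simp⟩
    · exact ⟨by simp; omega, by simp⟩
  · refine Jd_eq hJD hf.hom hCI.hom fun k => Or.inr ?_
    fin_cases k
    · exact ⟨by simp; omega, by simp⟩
    · exact ⟨by simp; omega, by simp⟩
    · exact ⟨by simp; omega, by simp⟩

end Pool.Agent.EGH
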