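import Pool.Agent.EGH.Targets

set_option autoImplicit false
open MvPolynomial Matrix

namespace Pool.Agent.EGH

universe u

namespace UB_

variable {K : Type u} [Field K]

/-- the substitution `X_i ↦ T X_i` -/
noncomputable def Ph : P K →ₐ[K] Polynomial (P K) :=
  MvPolynomial.aeval (fun i => Polynomial.C (X i) * Polynomial.X)

lemma Ph_monomial (s : Fin 3 →₀ ℕ) (r : K) :
    Ph (monomial s r) = Polynomial.monomial s.degree (monomial s r : P K) := by
  rw [Ph, aeval_monomial]
  simp only [mul_pow, Finsupp.prod_mul, ← map_pow]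
  rw [← Polynomial.C_mul_X_pow_eq_monomial]
  have h1 : (s.prod fun (i : Fin 3) (k : ℕ) => (Polynomial.X : Polynomial (P K)) ^ k) =
      Polynomial.X ^ s.degree := by
    rw [Finsupp.prod, Finset.prod_pow_eq_pow_sum]
    rfl
  have h2 : (s.prod fun (i : Fin 3) (k : ℕ) => Polynomial.C ((X i : P K) ^ k)) =
      Polynomial.C (s.prod fun (i : Fin 3) (k : ℕ) => (X i : P K) ^ k) := by
    rw [Finsupp.prod, Finsupp.prod, map_prod]
  rw [h1, h2, ← mul_assoc]
  congr 1
  rw [monomial_eq, map_mul]
  rfl

lemma coeff_Ph (p : P K) (d : ℕ) : (Ph p).coeff d = homogeneousComponent d p := by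
  induction p using MvPolynomial.induction_on' with
  | monomial s r =>
    rw [Ph_monomial, Polynomial.coeff_monomial]
    have hm : (monomial s r : P K) ∈ homogeneousSubmodule (Fin 3) K s.degree :=
      isHomogeneous_monomial r rfl
    rw [homogeneousComponent_of_mem hm]
    by_cases h : s.degree = d
    · simp [h]
    · simp [h, Ne.symm h]
  | add p q hp hq =>
    rw [map_add, Polynomial.coeff_add, hp, hq, map_add]

lemma Ph_of_hom {p : P K} {n : ℕ} (hp : p.IsHomogeneous n) : Ph p = Polynomial.monomial n p := by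
  ext1 d
  rw [coeff_Ph, Polynomial.coeff_monomial, homogeneousComponent_of_mem hp]
  by_cases h : n = d
  · simp [h]
  · simp [h, Ne.symm h]

lemma Ph_ne {p : P K} (hp : p ≠ 0) : Ph p ≠ 0 := by
  intro h
  apply hp
  rw [← sum_homogeneousComponent p]
  apply Finset.sum_eq_zero
  intro d _
  rw [← coeff_Ph, h, Polynomial.coeff_zero]

lemma hom_of_Ph {p : P K} {a : ℕ} (h1 : (Ph p).natTrailingDegree = a)
    (h2 : (Ph p).natDegree = a) : p.IsHomogeneous a := by
  have h3 : ∀ d, d ≠ a → homogeneousComponent d p = 0 := by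
    intro d hd
    rw [← coeff_Ph]
    rcases lt_or_gt_of_ne hd with h | h
    · exact Polynomial.coeff_eq_zero_of_lt_natTrailingDegree (by omega)
    · exact Polynomial.coeff_eq_zero_of_natDegree_lt (by omega)
  have h4 : p = homogeneousComponent a p := by
    conv_lhs => rw [← sum_homogeneousComponent p]
    by_cases ha : a ∈ Finset.range (p.totalDegree + 1)
    · rw [Finset.sum_eq_single_of_mem a ha fun b _ hb => h3 b hb]
    · rw [Finset.sum_eq_zero fun b hb => h3 b (by rintro rfl; exact ha hb)]
      rw [homogeneousComponent_eq_zero]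
      simpa using ha
  rw [h4]
  exact homogeneousComponent_isHomogeneous a p

/-- divisors of nonzero homogeneous polynomials are homogeneous -/
lemma hom_of_mul {p q : P K} {n : ℕ} (h : (p * q).IsHomogeneous n) (h0 : p * q ≠ 0) :
    ∃ a b, a + b = n ∧ p.IsHomogeneous a ∧ q.IsHomogeneous b := by
  have hp : p ≠ 0 := left_ne_zero_of_mul h0
  have hq : q ≠ 0 := right_ne_zero_of_mul h0
  have e1 : Ph p * Ph q = Polynomial.monomial n (p * q) := by
    rw [← map_mul, Ph_of_hom h]
  have d1 : (Ph p).natDegree + (Ph q).natDegree = n := by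
    rw [← Polynomial.natDegree_mul (Ph_ne hp) (Ph_ne hq), e1,
      Polynomial.natDegree_monomial_eq _ h0]
  have d2 : (Ph p).natTrailingDegree + (Ph q).natTrailingDegree = n := by
    rw [← Polynomial.natTrailingDegree_mul (Ph_ne hp) (Ph_ne hq), e1,
      Polynomial.natTrailingDegree_monomial h0]
  have l1 := Polynomial.natTrailingDegree_le_natDegree (Ph p)
  have l2 := Polynomial.natTrailingDegree_le_natDegree (Ph q)
  exact ⟨_, _, d1, hom_of_Ph (by omega) rfl, hom_of_Ph (by omega) rfl⟩

/-- primitive vector -/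
lemma prim (ν : Fin 3 → P K) (hν : ν ≠ 0) : ∃ (ν0 : Fin 3 → P K), ν0 ≠ 0 ∧
    ∀ z : Fin 3 → P K, z ⨯₃ ν = 0 → ∃ w : P K, ∀ k, z k = w * ν0 k := by
  classical
  letI : StrongNormalizationMonoid (P K) := UniqueFactorizationMonoid.normalizationMonoid
  letI : NormalizedGCDMonoid (P K) := UniqueFactorizationMonoid.toNormalizedGCDMonoid (P K)
  obtain ⟨ν0, h1, h2⟩ := Finset.extract_gcd (s := Finset.univ) ν ⟨0, Finset.mem_univ _⟩
  set δ : P K := Finset.univ.gcd ν with hδ
  have hδ0 : δ ≠ 0 := by
    intro h
    apply hν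
    funext k
    rw [h1 k (Finset.mem_univ _), h, zero_mul]
    rfl
  have hν0 : ν0 ≠ 0 := by
    intro h
    rw [h] at h2
    have : (Finset.univ : Finset (Fin 3)).gcd (0 : Fin 3 → P K) = 0 :=
      Finset.gcd_eq_zero_iff.2 fun _ _ => rfl
    rw [this] at h2
    exact zero_ne_one h2
  refine ⟨ν0, hν0, fun z hz => ?_⟩
  -- z_i ν0_j = z_j ν0_i
  have hc : ∀ i j, z i * ν0 j = z j * ν0 i := by
    have e : ∀ i j, z i * ν j = z j * ν i → z i * ν0 j = z j * ν0 i := by
      intro i j h
      rw [h1 i (Finset.mem_univ _), h1 j (Finset.mem_univ _)] at h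
      apply mul_left_cancel₀ hδ0
      linear_combination h
    have c0 := congrFun hz 0
    have c1 := congrFun hz 1
    have c2 := congrFun hz 2
    simp only [cross_apply, Matrix.cons_val_zero, Matrix.cons_val_one, Matrix.cons_val,
      Pi.zero_apply] at c0 c1 c2
    intro i j
    fin_cases i <;> fin_cases j <;> first | rfl | (apply e; simp only [Fin.zero_eta, Fin.mk_one, Fin.reduceFinMk]; first | linear_combination c0 | linear_combination c1 | linear_combination c2 | linear_combination -c0 | linear_combination -c1 | linear_combination -c2)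
  obtain ⟨i, hi⟩ : ∃ i, ν0 i ≠ 0 := by
    by_contra h
    push Not at h
    exact hν0 (funext h)
  have hdvd : ν0 i ∣ z i := by
    have h3 : ν0 i ∣ Finset.univ.gcd (fun j => z i * ν0 j) := by
      apply Finset.dvd_gcd
      intro j _
      rw [hc i j]
      exact dvd_mul_left _ _
    have h4 := Finset.gcd_mul_left' Finset.univ ν0 (z i)
    rw [h2, mul_one] at h4
    exact h4.dvd_iff_dvd_right.1 h3
  obtain ⟨w, hw⟩ := hdvd
  refine ⟨w, fun j => ?_⟩
  apply mul_right_cancel₀ hi
  rw [hc j i, hw]
  ring

end UB_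

open UB_

theorem t_ub (hK1 : T_K1.{u}) (hD : T_DIMR.{u}) : T_UB.{u} := by
  intro K _ f a hf h01 h12 v i m N hN U hU1 hU2 ν hν hker
  by_cases hfin : Module.Finite K U
  swap
  · rw [Module.finrank_of_not_finite hfin]
    exact Nat.zero_le _
  haveI : Module.Finite K (Rd K (i + 1)) := (hD K (i + 1)).1
  let A : U →ₗ[K] (Fin v → Rd K (i + 1)) := LinearMap.pi fun j =>
    ((LinearMap.proj j ∘ₗ LinearMap.fst K (Fin v → P K) (Fin 3 → P K)) ∘ₗ U.subtype).codRestrict
      (Rd K (i + 1)) (fun x => hU1 x.1 x.2 j)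
  have hA : ∀ x : U, A x = 0 → x.1.1 = 0 := by
    intro x hx
    funext j
    have := congrFun hx j
    exact congrArg Subtype.val this
  have hr : Module.finrank K (LinearMap.range A) ≤ v * Module.finrank K (Rd K (i + 1)) := by
    refine (Submodule.finrank_le _).trans ?_
    rw [Module.finrank_pi_fintype]
    simp
  have hsum := LinearMap.finrank_range_add_finrank_ker A
  have hd1 := (hD K (i + 1)).2
  -- the kernel
  have hk : 2 * Module.finrank K (LinearMap.ker A) ≤ (N + 1) * (N + 2) := by
    by_cases hk0 : LinearMap.ker A = ⊥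
    · rw [hk0, finrank_bot]
      exact Nat.zero_le _
    obtain ⟨x, hx, hx0⟩ := (Submodule.ne_bot_iff _).1 hk0
    obtain ⟨ν0, hν0, hprim⟩ := prim ν hν
    have hx1 : x.1.1 = 0 := hA x hx
    have hy0 : x.1.2 ≠ 0 := by
      intro h
      apply hx0
      apply Subtype.ext
      exact Prod.ext hx1 h
    obtain ⟨w, hw⟩ := hprim _ (hker x.1 x.2 hx1).2
    obtain ⟨k0, hk0'⟩ : ∃ k, x.1.2 k ≠ 0 := by
      by_contra h
      push Not at h
      exact hy0 (funext h)
    have hm0 : a k0 ≤ m := by
      by_contra h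
      have := hU2 x.1 x.2 k0
      rw [Rm, if_neg h] at this
      exact hk0' this
    have hRm : ∀ {k : Fin 3} {y : P K}, a k ≤ m → y ∈ Rm K m (a k) → y.IsHomogeneous (m - a k) := by
      intro k y h1 h2
      rw [Rm, if_pos h1] at h2
      exact h2
    have hy1 := hRm hm0 (hU2 x.1 x.2 k0)
    rw [hw k0] at hy1 hk0'
    obtain ⟨t, e, hte, hwt, hνe⟩ := hom_of_mul hy1 hk0'
    have hw0 : w ≠ 0 := left_ne_zero_of_mul hk0'
    have hνk0 : ν0 k0 ≠ 0 := right_ne_zero_of_mul hk0'
    have htm : t ≤ m := by omega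
    have hν0Rm : ∀ k, ν0 k ∈ Rm K (m - t) (a k) := by
      intro k
      by_cases h0 : ν0 k = 0
      · rw [h0]; exact Submodule.zero_mem _
      have hne : w * ν0 k ≠ 0 := mul_ne_zero hw0 h0
      have hmk : a k ≤ m := by
        by_contra h
        have h2 := hU2 x.1 x.2 k
        rw [Rm, if_neg h, hw k] at h2
        exact hne h2
      have h3 := hRm hmk (hU2 x.1 x.2 k)
      rw [hw k] at h3
      obtain ⟨a', b', hab, ha', hb'⟩ := hom_of_mul h3 hne
      have : a' = t := ha'.inj_right hwt hw0
      rw [Rm, if_pos (by omega)]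
      have h5 : m - t - a k = b' := by omega
      rw [h5]
      exact hb'
    have hν0f : ∑ k, ν0 k * f k = 0 := by
      have h1 := (hker x.1 x.2 hx1).1
      simp only [hw] at h1
      have h2 : w * ∑ k, ν0 k * f k = 0 := by
        rw [Finset.mul_sum, ← h1]
        exact Finset.sum_congr rfl fun k _ => by ring
      exact (mul_eq_zero.1 h2).resolve_left hw0
    obtain ⟨h, hh1, hh2⟩ := (hK1 K f a hf).2 (m - t) ν0 hν0Rm hν0f
    obtain ⟨k1, hk1⟩ : ∃ k, h k ≠ 0 := by
      by_contra hh
      push Not at hh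
      apply hν0
      rw [hh2, show h = 0 from funext hh]
      simp
    have hA1 : a 0 + a 1 + a 2 ≤ m - t + a k1 := by
      by_contra hh
      have := hh1 k1
      rw [Rm, if_neg hh] at this
      exact hk1 this
    have hak : a k1 ≤ a 2 := by
      fin_cases k1
      · exact h01.trans h12
      · exact h12
      · exact le_rfl
    have htN : t ≤ N := by omega
    haveI : Module.Finite K (Rd K t) := (hD K t).1
    let B : Rd K t →ₗ[K] (Fin 3 → P K) :=
      { toFun := fun w => fun k => w.1 * ν0 k
        map_add' := by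
          intro x y
          funext k
          simp [add_mul]
        map_smul' := by
          intro c x
          funext k
          simp }
    let C : LinearMap.ker A →ₗ[K] (Fin 3 → P K) :=
      (LinearMap.snd K (Fin v → P K) (Fin 3 → P K) ∘ₗ U.subtype) ∘ₗ (LinearMap.ker A).subtype
    have hC : Function.Injective C := by
      rw [injective_iff_map_eq_zero]
      intro z hz
      apply Subtype.ext
      apply Subtype.ext
      exact Prod.ext (hA z.1 z.2) hz
    have hle : LinearMap.range C ≤ LinearMap.range B := by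
      rintro _ ⟨z, rfl⟩
      have hz1 : z.1.1.1 = 0 := hA z.1 z.2
      obtain ⟨w', hw'⟩ := hprim _ (hker z.1.1 z.1.2 hz1).2
      have hw't : w' ∈ Rd K t := by
        by_cases h0 : w' = 0
        · rw [h0]; exact Submodule.zero_mem _
        have hne : w' * ν0 k0 ≠ 0 := mul_ne_zero h0 hνk0
        have h3 := hRm hm0 (hU2 z.1.1 z.1.2 k0)
        rw [hw' k0] at h3
        obtain ⟨a', b', hab, ha', hb'⟩ := hom_of_mul h3 hne
        have h4 : b' = e := hb'.inj_right hνe hνk0
        have h5 : a' = t := by omega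
        rw [← h5]
        exact ha'
      refine ⟨⟨w', hw't⟩, ?_⟩
      funext k
      exact (hw' k).symm
    have h6 : Module.finrank K (LinearMap.ker A) ≤ Module.finrank K (Rd K t) := by
      rw [← LinearMap.finrank_range_of_inj hC]
      exact (Submodule.finrank_mono hle).trans (LinearMap.finrank_range_le B)
    have h7 := (hD K t).2
    calc 2 * Module.finrank K (LinearMap.ker A) ≤ 2 * Module.finrank K (Rd K t) := by omega
      _ = (t + 1) * (t + 2) := h7
      _ ≤ (N + 1) * (N + 2) := Nat.mul_le_mul (by omega) (by omega)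
  have h8 : 2 * Module.finrank K (LinearMap.range A) ≤ v * ((i + 2) * (i + 3)) := by
    calc 2 * Module.finrank K (LinearMap.range A)
        ≤ 2 * (v * Module.finrank K (Rd K (i + 1))) := Nat.mul_le_mul_left 2 hr
      _ = v * (2 * Module.finrank K (Rd K (i + 1))) := by ring
      _ = v * ((i + 2) * (i + 3)) := by rw [hd1]
  omega

end Pool.Agent.EGH
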