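import Pool.Agent.EGH.PA9
import Pool.Agent.EGH.PASM
import Pool.Agent.EGH.PAV1
import Pool.Agent.EGH.PAV2
import Pool.Agent.EGH.PBAS
import Pool.Agent.EGH.PBC1
import Pool.Agent.EGH.PBC2
import Pool.Agent.EGH.PC1A
import Pool.Agent.EGH.PC1B
import Pool.Agent.EGH.PC2A
import Pool.Agent.EGH.PC2B
import Pool.Agent.EGH.PCASE2
import Pool.Agent.EGH.PCASE3
import Pool.Agent.EGH.PCES
import Pool.Agent.EGH.PD1
import Pool.Agent.EGH.PDEP
import Pool.Agent.EGH.PDIMR
import Pool.Agent.EGH.PDUAL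
import Pool.Agent.EGH.PGEN
import Pool.Agent.EGH.PJD
import Pool.Agent.EGH.PK1
import Pool.Agent.EGH.PK2
import Pool.Agent.EGH.PKOSZ
import Pool.Agent.EGH.PLB
import Pool.Agent.EGH.PMAC
import Pool.Agent.EGH.PMONCI
import Pool.Agent.EGH.PMONDIM
import Pool.Agent.EGH.PN1
import Pool.Agent.EGH.PN23
import Pool.Agent.EGH.PN4
import Pool.Agent.EGH.PNODIV
import Pool.Agent.EGH.PORTH
import Pool.Agent.EGH.PPAIR
import Pool.Agent.EGH.PPDIM
import Pool.Agent.EGH.PPERF
import Pool.Agent.EGH.PPID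
import Pool.Agent.EGH.PREG
import Pool.Agent.EGH.PROW
import Pool.Agent.EGH.PSEG
import Pool.Agent.EGH.PSHS
import Pool.Agent.EGH.PSIGMA
import Pool.Agent.EGH.PSOC
import Pool.Agent.EGH.PTRIV
import Pool.Agent.EGH.PTRUNC
import Pool.Agent.EGH.PUB
import Pool.Agent.EGH.Final

set_option autoImplicit false
open MvPolynomial Matrix

namespace Pool.Agent.EGH

universe u

theorem all_seg : N_SEG := n_seg
theorem all_n1 : N1 := n1 n_seg n_row
theorem all_n2 : N2 := n2 n_seg n_row n_sym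
theorem all_n3 : N3 := n3 n_seg n_row
theorem all_n4 : N4 := n4 n_shs

theorem all_kosz : T_KOSZ.{u} := t_kosz t_dimr t_jd t_k1 t_k2
theorem all_d1 : T_D1.{u} := t_d1 all_kosz t_monci t_mondim
theorem all_soc : T_SOC.{u} := t_soc t_jd t_k1 t_k2 t_monci
theorem all_perf : T_PERF.{u} := t_perf all_soc all_d1 t_dimr n_sym
theorem all_orth : T_ORTH.{u} := t_orth all_perf all_soc
theorem all_sigma : T_SIGMA.{u} := t_sigma t_jd t_k1 t_dimr
theorem all_nodiv : T_NODIV.{u} := t_nodiv t_k1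
theorem all_c2b : T_C2b.{u} := t_c2b all_nodiv
theorem all_dep : T_DEP.{u} := t_dep t_k1 t_k2 t_monci
theorem all_av2 : T_AV2.{u} := t_av2 all_dep
theorem all_a9 : T_A9.{u} := t_a9 t_av1 all_av2 all_d1
theorem all_pdim : T_PDIM.{u} := t_pdim all_a9 all_perf all_d1 t_dimr
theorem all_case2 : T_CASE2.{u} := t_case2 all_sigma t_c2a all_c2b all_pdim all_n2 all_n3
theorem all_pair : T_PAIR.{u} := t_pair t_jd t_k1 t_k2
theorem all_lb : T_LB.{u} := t_lb t_dimr
theorem all_ub : T_UB.{u} := t_ub t_k1 t_dimr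
theorem all_case3 : T_CASE3.{u} := t_case3 all_pair t_gen all_lb all_ub all_nodiv all_sigma
theorem all_trunc : T_TRUNC.{u} := t_trunc t_av1 all_av2 t_monci t_jd
theorem all_triv : T_TRIV.{u} := t_triv all_av2 t_jd t_dimr
theorem all_dual : T_DUAL.{u} := t_dual t_dimr all_orth all_d1 n_ex all_n4
theorem all_bc2 : T_BC2.{u} := t_bc2 t_jd t_dimr
theorem all_asm : T_ASM.{u} := t_asm all_d1 n_ex n_ch n_shs t_dimr
theorem all_core : T_CORE.{u} :=
  t_core t_dimr all_d1 all_orth (t_bas t_dimr) all_sigma (t_mac t_dimr) t_c1a (t_c1b t_jd t_dimr)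
    all_case2 all_case3 n_ex all_n1 all_n3 all_n4
theorem all_growth : T_GROWTH.{u} :=
  t_growth all_trunc all_triv all_core all_dual t_bc1 all_bc2

end Pool.Agent.EGH
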