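import Pool.Agent.EGH.Targets

set_option autoImplicit false
open MvPolynomial Matrix

namespace Pool.Agent.EGH

universe u

section
variable {K : Type u} [Field K]

/-- violating pair -/
structure Viol (f : Fin 3 → P K) (a : Fin 3 → ℕ) (d d' : ℕ) (W W' : Submodule K (P K)) : Prop where
  h1 : Jd f d ≤ W
  h2 : W ≤ Rd K d
  h3 : Jd f d' ≤ W'
  h4 : W' ≤ Rd K d'
  h5 : ∀ w ∈ W, ∀ w' ∈ W', w * w' ∈ J f
  h6 : ∃ S : Finset Mon, IsSeg (a 0) (a 1) (a 2) d S ∧
    S.card + Module.finrank K (Jd f d) = Module.finrank K W ∧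
    (Std (a 0) (a 1) (a 2) (d + 1)).card + Module.finrank K (Jd f d') <
      (shadow (a 0) (a 1) (a 2) d S).card + Module.finrank K W'

/-- maximal violating pair -/
def MaxViol (f : Fin 3 → P K) (a : Fin 3 → ℕ) (d d' : ℕ) (W W' : Submodule K (P K)) : Prop :=
  Viol f a d d' W W' ∧ ∀ W1 W1', Viol f a d d' W1 W1' →
    Module.finrank K W1 + Module.finrank K W1' ≤ Module.finrank K W + Module.finrank K W'

lemma orth_le (f : Fin 3 → P K) (e : ℕ) (W : Submodule K (P K)) : orth f e W ≤ Rd K e :=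
  fun _ h => h.1

lemma Jd_le (f : Fin 3 → P K) (e : ℕ) : Jd f e ≤ Rd K e := inf_le_left

lemma le_orth (f : Fin 3 → P K) (e : ℕ) (W : Submodule K (P K)) : Jd f e ≤ orth f e W := by
  intro x hx
  refine ⟨hx.1, fun w _ => ?_⟩
  exact Ideal.mul_mem_right _ _ hx.2

lemma up_le (f : Fin 3 → P K) (d : ℕ) (W : Submodule K (P K)) (hW : W ≤ Rd K d) :
    up f d W ≤ Rd K (d + 1) := by
  refine sup_le ?_ (Jd_le f _)
  refine (mul_le_mul' le_rfl hW).trans ?_
  have := homogeneousSubmodule_mul (σ := Fin 3) (R := K) 1 d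
  rwa [add_comm] at this

lemma finR (hfin : T_DIMR.{u}) (d : ℕ) : Module.Finite K (Rd K d) := (hfin K d).1

lemma fin_le (hfin : T_DIMR.{u}) {d : ℕ} {W : Submodule K (P K)} (hW : W ≤ Rd K d) :
    Module.Finite K W := by
  have := finR (K := K) hfin d
  exact Submodule.finiteDimensional_of_le hW

lemma rank_mono (hfin : T_DIMR.{u}) {d : ℕ} {W W' : Submodule K (P K)} (h : W ≤ W')
    (hW : W' ≤ Rd K d) : Module.finrank K W ≤ Module.finrank K W' := by
  have := fin_le hfin hW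
  exact Submodule.finrank_mono h

/-- symmetry of violating pairs -/
lemma Viol.symm (hfin : T_DIMR.{u}) (hd1 : T_D1.{u}) (hex : N_EX) (h4 : N4)
    {f : Fin 3 → P K} {a : Fin 3 → ℕ} (hf : CI f a) {d d' : ℕ}
    (hdd : d + d' + 4 = a 0 + a 1 + a 2) {W W' : Submodule K (P K)}
    (h : Viol f a d d' W W') : Viol f a d' d W' W := by
  obtain ⟨S, hS, hc, hlt⟩ := h.h6
  have hJ' : Module.finrank K (Jd f d') ≤ Module.finrank K W' := rank_mono hfin h.h3 h.h4
  have hW'R : Module.finrank K W' ≤ Module.finrank K (Rd K d') := rank_mono hfin h.h4 le_rfl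
  have hD := hd1 K f a hf d'
  obtain ⟨S', hS', hc'⟩ := hex (a 0) (a 1) (a 2) d'
    (Module.finrank K W' - Module.finrank K (Jd f d')) (by omega)
  refine ⟨h.h3, h.h4, h.h1, h.h2, ?_, S', hS', by omega, ?_⟩
  · intro w' hw' w hw
    rw [mul_comm]
    exact h.h5 w hw w' hw'
  · by_contra hcon
    push Not at hcon
    have := h4 (a 0) (a 1) (a 2) d' d (by omega) S' S hS' hS (by omega)
    omega

lemma MaxViol.symm (hfin : T_DIMR.{u}) (hd1 : T_D1.{u}) (hex : N_EX) (h4 : N4)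
    {f : Fin 3 → P K} {a : Fin 3 → ℕ} (hf : CI f a) {d d' : ℕ}
    (hdd : d + d' + 4 = a 0 + a 1 + a 2) {W W' : Submodule K (P K)}
    (h : MaxViol f a d d' W W') : MaxViol f a d' d W' W := by
  refine ⟨h.1.symm hfin hd1 hex h4 hf hdd, fun W1 W1' hv => ?_⟩
  have := h.2 _ _ (hv.symm hfin hd1 hex h4 hf (by omega))
  omega

/-- in a maximal violating pair the second member is the dual of the first -/
lemma MaxViol.dual (hfin : T_DIMR.{u}) (hor : T_ORTH.{u})
    {f : Fin 3 → P K} {a : Fin 3 → ℕ} (hf : CI f a) {d d' : ℕ}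
    (hdd : d + d' + 4 = a 0 + a 1 + a 2) {W W' : Submodule K (P K)}
    (h : MaxViol f a d d' W W') :
    Module.finrank K W' + Module.finrank K (up f d W) =
      Module.finrank K (Jd f d') + Module.finrank K (Rd K (d + 1)) := by
  have hO := hor K f a hf d d' hdd W h.1.h1 h.1.h2
  have hle : W' ≤ orth f d' W := by
    intro x hx
    refine ⟨h.1.h4 hx, fun w hw => ?_⟩
    rw [mul_comm]
    exact h.1.h5 w hw x hx
  have h1 : Module.finrank K W' ≤ Module.finrank K (orth f d' W) :=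
    rank_mono hfin hle (orth_le _ _ _)
  have hv : Viol f a d d' W (orth f d' W) := by
    obtain ⟨S, hS, hc, hlt⟩ := h.1.h6
    refine ⟨h.1.h1, h.1.h2, le_orth _ _ _, orth_le _ _ _, ?_, S, hS, hc, by omega⟩
    intro w hw w' hw'
    rw [mul_comm]
    exact hw'.2 w hw
  have h2 := h.2 _ _ hv
  omega

/-- full rank in a maximal violating pair -/
lemma MaxViol.tor (hfin : T_DIMR.{u}) (hor : T_ORTH.{u}) (hmac : T_MAC.{u})
    (hc1a : T_C1a.{u}) (hc1b : T_C1b.{u}) (hex : N_EX) (hn1 : N1)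
    {f : Fin 3 → P K} {a : Fin 3 → ℕ} (hf : CI f a) (h01 : a 0 ≤ a 1) (h12 : a 1 ≤ a 2)
    {d d' : ℕ} (hda : a 2 ≤ d + 2) (hdb : d + 2 ≤ a 0 + a 1)
    (hdd : d + d' + 4 = a 0 + a 1 + a 2) {W W' : Submodule K (P K)}
    (h : MaxViol f a d d' W W') {v : ℕ} {g : Fin v → P K} (hg : BasisMod f d W g) :
    Tor f a d g := by
  by_contra hT
  obtain ⟨m, α, hα, hα0, hrel⟩ := hc1a K f a d v g hT
  obtain ⟨W0, V, hW0, hW0W, hVm, hV0, hdim, hup⟩ := hc1b K f a hf d v g W hg m α hα hα0 hrel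
  obtain ⟨γ, hγ, hγ2⟩ := hmac K m V hVm hV0
  have : Module.Finite K V := fin_le hfin hVm
  have hu : 1 ≤ Module.finrank K V := by
    rcases Nat.eq_zero_or_pos (Module.finrank K V) with h0 | h0
    · exact absurd (Submodule.finrank_eq_zero.mp h0) hV0
    · exact h0
  have hγ1 : 1 ≤ γ := by
    rcases Nat.eq_zero_or_pos γ with h0 | h0
    · subst h0; simp only [Nat.zero_mul] at hγ2; omega
    · exact h0
  obtain ⟨S, hS, hc, hlt⟩ := h.1.h6
  have hdual := h.dual hfin hor hf hdd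
  have hJW0 : Module.finrank K (Jd f d) ≤ Module.finrank K W0 :=
    rank_mono hfin hW0 (hW0W.trans h.1.h2)
  have hScard : S.card ≤ (Std (a 0) (a 1) (a 2) d).card := Finset.card_le_card hS.1
  obtain ⟨S0, hS0, hc0⟩ := hex (a 0) (a 1) (a 2) d
    (Module.finrank K W0 - Module.finrank K (Jd f d)) (by omega)
  have hN := hn1 (a 0) (a 1) (a 2) d (hf.pos 0) h01 h12 hda hdb S0 S hS0 hS
    (Module.finrank K V) γ (by omega) hu hγ2
  have hO := hor K f a hf d d' hdd W0 hW0 (hW0W.trans h.1.h2)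
  have hv : Viol f a d d' W0 (orth f d' W0) := by
    refine ⟨hW0, hW0W.trans h.1.h2, le_orth _ _ _, orth_le _ _ _, ?_, S0, hS0, by omega,
      by omega⟩
    intro w hw w' hw'
    rw [mul_comm]
    exact hw'.2 w hw
  have h2 := h.2 _ _ hv
  omega

end

theorem t_core (hfin : T_DIMR.{u}) (hd1 : T_D1.{u}) (hor : T_ORTH.{u}) (hbas : T_BAS.{u})
    (hsig : T_SIGMA.{u}) (hmac : T_MAC.{u}) (hc1a : T_C1a.{u}) (hc1b : T_C1b.{u})
    (hc2 : T_CASE2.{u}) (hc3 : T_CASE3.{u}) (hex : N_EX) (hn1 : N1) (hn3 : N3) (hn4 : N4) :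
    T_CORE.{u} := by
  intro K _ _ f a hf h01 h12 d hda hdb hdA W hJW hWR S hS hc
  by_contra hcon
  push Not at hcon
  obtain ⟨d', hdd⟩ : ∃ d', d + d' + 4 = a 0 + a 1 + a 2 := ⟨a 0 + a 1 + a 2 - (d + 4), by omega⟩
  have hD1 := hd1 K f a hf (d + 1)
  have hv0 : Viol f a d d' W (orth f d' W) := by
    have hO := hor K f a hf d d' hdd W hJW hWR
    refine ⟨hJW, hWR, le_orth _ _ _, orth_le _ _ _, ?_, S, hS, hc, by omega⟩
    intro w hw w' hw'
    rw [mul_comm]
    exact hw'.2 w hw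
  -- a maximal violating pair
  obtain ⟨W1, W1', hmax⟩ : ∃ W1 W1', MaxViol f a d d' W1 W1' := by
    let p : ℕ → Prop := fun n => ∃ W1 W1', Viol f a d d' W1 W1' ∧
      Module.finrank K W1 + Module.finrank K W1' = n
    have hb : ∀ n, p n → n ≤ Module.finrank K (Rd K d) + Module.finrank K (Rd K d') := by
      rintro n ⟨W1, W1', hv, rfl⟩
      exact add_le_add (rank_mono hfin hv.h2 le_rfl) (rank_mono hfin hv.h4 le_rfl)
    classical
    have hp0 : p _ := ⟨W, orth f d' W, hv0, rfl⟩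
    have hsp := Nat.findGreatest_spec (P := p) (hb _ hp0) hp0
    obtain ⟨W1, W1', hv, he⟩ := hsp
    refine ⟨W1, W1', hv, fun W2 W2' hv2 => ?_⟩
    rw [he]
    exact Nat.le_findGreatest (hb _ ⟨W2, W2', hv2, rfl⟩) ⟨W2, W2', hv2, rfl⟩
  have hmax' := hmax.symm hfin hd1 hex hn4 hf hdd
  have hdd' : d' + d + 4 = a 0 + a 1 + a 2 := by omega
  obtain ⟨v, g, hg, hgv⟩ := hbas K f d W1 hmax.1.h1 hmax.1.h2
  obtain ⟨v', g', hg', hgv'⟩ := hbas K f d' W1' hmax'.1.h1 hmax'.1.h2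
  have hT := hmax.tor hfin hor hmac hc1a hc1b hex hn1 hf h01 h12 hda hdb hdd hg
  have hT' := hmax'.tor hfin hor hmac hc1a hc1b hex hn1 hf h01 h12 (by omega) (by omega) hdd' hg'
  have hdual := hmax.dual hfin hor hf hdd
  have hdual' := hmax'.dual hfin hor hf hdd'
  have hD1' := hd1 K f a hf (d' + 1)
  obtain ⟨S1, hS1, hc1, hlt1⟩ := hmax.1.h6
  obtain ⟨S1', hS1', hc1', hlt1'⟩ := hmax'.1.h6
  have hnv : ¬ NV0 f a d g := by
    intro hNV
    have := hc2 K f a hf h01 h12 d hda hdb hdA v g W1 hg hT hNV S1 hS1 (by omega)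
    omega
  have hnv' : ¬ NV0 f a d' g' := by
    intro hNV
    have := hc2 K f a hf h01 h12 d' (by omega) (by omega) (by omega) v' g' W1' hg' hT' hNV
      S1' hS1' (by omega)
    omega
  have hgg : ∀ j i, g j * g' i ∈ J f := by
    intro j i
    refine hmax.1.h5 _ ?_ _ ?_
    · rw [hg.span]
      exact Submodule.mem_sup_right (Submodule.subset_span ⟨j, rfl⟩)
    · rw [hg'.span]
      exact Submodule.mem_sup_right (Submodule.subset_span ⟨i, rfl⟩)
  have h3 := hc3 K f a hf h01 h12 d d' hdb hdd v v' g g' W1 W1' hg hg' hgg hT hnv hnv'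
  have hs := (hsig K f a hf h01 h12 d hdb v g W1 hg).2
  have hn := hn3 (a 0) (a 1) (a 2) d (hf.pos 0) h01 h12 hda hdb S1 hS1
  omega

end Pool.Agent.EGH
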