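import Mathlib

set_option autoImplicit false
open MvPolynomial

/-!
Definitions for the Eisenbud-Green-Harris project in three variables (MP_e5dae2_al).
-/

namespace Pool.Agent.EGH

universe u

noncomputable section

/-- The polynomial ring in three variables. -/
abbrev P (K : Type u) [Field K] : Type u := MvPolynomial (Fin 3) K

/-- Homogeneous polynomials of degree `d` (with zero). -/
abbrev Rd (K : Type u) [Field K] (d : ℕ) : Submodule K (P K) :=
  homogeneousSubmodule (Fin 3) K d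

/-- Homogeneous polynomials of degree `m - k`; only zero if `m < k`. -/
def Rm (K : Type u) [Field K] (m k : ℕ) : Submodule K (P K) :=
  if k ≤ m then Rd K (m - k) else ⊥

section
variable {K : Type u} [Field K]

/-- `f` is a homogeneous regular sequence of degrees `a` (all `a i ≥ 1`). -/
structure CI (f : Fin 3 → P K) (a : Fin 3 → ℕ) : Prop where
  pos : ∀ i, 1 ≤ a i
  hom : ∀ i, (f i).IsHomogeneous (a i)
  ne : f 0 ≠ 0
  reg1 : ∀ p q : P K, p * f 1 = q * f 0 → ∃ r, p = r * f 0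
  reg2 : ∀ p q r : P K, p * f 2 = q * f 0 + r * f 1 → ∃ q' r', p = q' * f 0 + r' * f 1

/-- The ideal of the sequence. -/
def J (f : Fin 3 → P K) : Ideal (P K) := Ideal.span (Set.range f)

/-- Its part of degree `d`. -/
def Jd (f : Fin 3 → P K) (d : ℕ) : Submodule K (P K) :=
  Rd K d ⊓ (J f).restrictScalars K

/-- `R_1 W + J_{d+1}`. -/
def up (f : Fin 3 → P K) (d : ℕ) (W : Submodule K (P K)) : Submodule K (P K) :=
  Rd K 1 * W ⊔ Jd f (d + 1)

/-- Forms `h` of degree `e` with `h W ⊆ J`. -/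
def orth (f : Fin 3 → P K) (e : ℕ) (W : Submodule K (P K)) : Submodule K (P K) where
  carrier := {h | h ∈ Rd K e ∧ ∀ w ∈ W, h * w ∈ J f}
  add_mem' := by
    rintro x y ⟨hx, hx'⟩ ⟨hy, hy'⟩
    refine ⟨Submodule.add_mem _ hx hy, fun w hw => ?_⟩
    rw [add_mul]
    exact Ideal.add_mem _ (hx' w hw) (hy' w hw)
  zero_mem' := ⟨Submodule.zero_mem _, fun w _ => by rw [zero_mul]; exact Ideal.zero_mem _⟩
  smul_mem' := by
    rintro c x ⟨hx, hx'⟩
    refine ⟨Submodule.smul_mem _ c hx, fun w hw => ?_⟩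
    rw [smul_mul_assoc]
    exact (((J f).restrictScalars K).smul_mem c (hx' w hw))

/-- `g` is a family of forms of degree `d`, independent modulo `J`, which together with
`J_d` spans `W`. -/
structure BasisMod (f : Fin 3 → P K) (d : ℕ) (W : Submodule K (P K)) {v : ℕ}
    (g : Fin v → P K) : Prop where
  mem : ∀ j, g j ∈ Rd K d
  ind : ∀ c : Fin v → K, (∑ j, c j • g j) ∈ J f → c = 0
  span : W = Jd f d ⊔ Submodule.span K (Set.range g)

/-- Pairs `(r, q)`: `r` has `v` entries, `q` has three. -/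
abbrev Mv (K : Type u) [Field K] (v : ℕ) : Type u := (Fin v → P K) × (Fin 3 → P K)

/-- Linear syzygies of `g` modulo `J`, with the coefficients of `f` recorded:
pairs `(r, q)`, `r j` linear forms, `q k` a form of degree `d + 1 - a k`,
`∑ r j * g j = ∑ q k * f k`. -/
def Sig (f : Fin 3 → P K) (a : Fin 3 → ℕ) (d : ℕ) {v : ℕ} (g : Fin v → P K) :
    Submodule K (Mv K v) where
  carrier := {x | (∀ j, x.1 j ∈ Rd K 1) ∧ (∀ k, x.2 k ∈ Rm K (d + 1) (a k)) ∧
    ∑ j, x.1 j * g j = ∑ k, x.2 k * f k}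
  add_mem' := by
    rintro x y ⟨h1, h2, h3⟩ ⟨h1', h2', h3'⟩
    refine ⟨fun j => Submodule.add_mem _ (h1 j) (h1' j),
      fun k => Submodule.add_mem _ (h2 k) (h2' k), ?_⟩
    simp only [Prod.fst_add, Prod.snd_add, Pi.add_apply, add_mul, Finset.sum_add_distrib, h3, h3']
  zero_mem' := by
    refine ⟨fun j => Submodule.zero_mem _, fun k => Submodule.zero_mem _, ?_⟩
    simp
  smul_mem' := by
    rintro c x ⟨h1, h2, h3⟩
    refine ⟨fun j => Submodule.smul_mem _ c (h1 j), fun k => Submodule.smul_mem _ c (h2 k), ?_⟩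
    simp only [Prod.smul_fst, Prod.smul_snd, Pi.smul_apply, smul_mul_assoc, ← Finset.smul_sum, h3]

/-- The matrix of linear parts has full rank `v`. -/
def Tor (f : Fin 3 → P K) (a : Fin 3 → ℕ) (d : ℕ) {v : ℕ} (g : Fin v → P K) : Prop :=
  ∃ t : Fin v → Mv K v, (∀ k, t k ∈ Sig f a d g) ∧ (Matrix.of fun k j => (t k).1 j).det ≠ 0

/-- No vertical element in the `R`-span of `Sig`. -/
def NV0 (f : Fin 3 → P K) (a : Fin 3 → ℕ) (d : ℕ) {v : ℕ} (g : Fin v → P K) : Prop :=
  ∀ x ∈ Submodule.span (P K) (Sig f a d g : Set (Mv K v)), x.1 = 0 → x.2 = 0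

/-- Evaluation at a point. -/
def evp (v : ℕ) (p : Fin 3 → K) : Mv K v →ₗ[K] (Fin v → K) × (Fin 3 → K) :=
  LinearMap.prodMap
    (LinearMap.pi fun j => (MvPolynomial.aeval p).toLinearMap ∘ₗ LinearMap.proj j)
    (LinearMap.pi fun j => (MvPolynomial.aeval p).toLinearMap ∘ₗ LinearMap.proj j)

/-- `R_i T`. -/
def Mi {v : ℕ} (i : ℕ) (T : Submodule K (Mv K v)) : Submodule K (Mv K v) :=
  Submodule.span K {x | ∃ u ∈ Rd K i, ∃ τ ∈ T, x = u • τ}

end

/-! ### Monomials of three variables as exponent triples -/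

/-- exponent triples -/
abbrev Mon : Type := ℕ × ℕ × ℕ

/-- Standard monomials of degree `d` for the exponents `a, b, c`. -/
def Std (a b c d : ℕ) : Finset Mon :=
  (Finset.range a ×ˢ Finset.range b ×ˢ Finset.range c).filter
    (fun m => m.1 + m.2.1 + m.2.2 = d)

/-- `m ≥ m'` in the lexicographic order (used for monomials of the same degree). -/
def lexge (m m' : Mon) : Prop := m'.1 < m.1 ∨ (m.1 = m'.1 ∧ m'.2.1 ≤ m.2.1)

/-- Initial lex segment of `Std a b c d`. -/
def IsSeg (a b c d : ℕ) (S : Finset Mon) : Prop :=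
  S ⊆ Std a b c d ∧ ∀ m ∈ S, ∀ m' ∈ Std a b c d, lexge m' m → m' ∈ S

/-- The shadow: standard monomials of degree `d + 1` divisible by an element of `S`. -/
def shadow (a b c d : ℕ) (S : Finset Mon) : Finset Mon :=
  (Std a b c (d + 1)).filter (fun m => ∃ n ∈ S, n ≤ m)

/-- Length of row `i` of `Std a b c d`. -/
def hh (b c d i : ℕ) : ℕ :=
  ((Finset.range b ×ˢ Finset.range c).filter (fun m => i + m.1 + m.2 = d)).card

/-- The growth inequality in degree `d`. -/
def Growth {K : Type u} [Field K] (f : Fin 3 → P K) (a : Fin 3 → ℕ) (d : ℕ) : Prop :=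
  ∀ W : Submodule K (P K), Jd f d ≤ W → W ≤ Rd K d →
  ∀ S : Finset Mon, IsSeg (a 0) (a 1) (a 2) d S →
    S.card + Module.finrank K (Jd f d) = Module.finrank K W →
    (shadow (a 0) (a 1) (a 2) d S).card + Module.finrank K (Jd f (d + 1)) ≤
      Module.finrank K (up f d W)

end

end Pool.Agent.EGH
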