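import Pool.Agent.EGH.Core
import Pool.Agent.EGH.PD1

set_option autoImplicit false
open MvPolynomial Matrix

namespace Pool.Agent.EGH

universe u

section
variable {K : Type u} [Field K]

/-- growth only depends on the truncated data -/
lemma growth_trunc {f f' : Fin 3 → P K} {a : Fin 3 → ℕ} {d : ℕ}
    (h1 : Jd f' d = Jd f d) (h2 : Jd f' (d + 1) = Jd f (d + 1))
    (h : Growth f' (fun i => min (a i) (d + 2)) d) : Growth f a d := by
  intro W hJ hW S hS hc
  have hN := n_trunc (a 0) (a 1) (a 2) d
  have h3 := h W (by rw [h1]; exact hJ) hW S ((hN.2.1 S).mpr hS) (by rw [h1]; exact hc)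
  have h4 := hN.2.2 S
  have hup : up f' d W = up f d W := by rw [up, up, h2]
  rw [hup, h2] at h3
  change (shadow (min (a 0) (d + 2)) (min (a 1) (d + 2)) (min (a 2) (d + 2)) d S).card + _ ≤ _ at h3
  have h5 : (shadow (min (a 0) (d + 2)) (min (a 1) (d + 2)) (min (a 2) (d + 2)) d S).card =
    (shadow (a 0) (a 1) (a 2) d S).card := by rw [h4]
  omega

end

theorem growth_inf (htr : T_TRUNC.{u}) (htriv : T_TRIV.{u}) (hcore : T_CORE.{u})
    (hdual : T_DUAL.{u}) (K : Type u) [Field K] [Infinite K] (f : Fin 3 → P K)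
    (a : Fin 3 → ℕ) (hf : CI f a) (h01 : a 0 ≤ a 1) (h12 : a 1 ≤ a 2) (d : ℕ) :
    Growth f a d := by
  -- top range
  by_cases htop : a 0 + a 1 + a 2 < d + 4
  · intro W hJ hW S hS hc
    have hemp : shadow (a 0) (a 1) (a 2) d S = ∅ := by
      rw [Finset.eq_empty_iff_forall_notMem]
      rintro ⟨i, j, k⟩ hx
      simp only [shadow, Std, Finset.mem_filter, Finset.mem_product, Finset.mem_range] at hx
      omega
    rw [hemp, Finset.card_empty, zero_add]
    have hle : Jd f (d + 1) ≤ up f d W := le_sup_right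
    have h1 : up f d W ≤ Rd K (d + 1) := up_le f d W hW
    have : Module.Finite K (Rd K (d + 1)) :=
      Module.Finite.of_fg (homogeneousSubmodule_fg (Fin 3) K (d + 1))
    have : Module.Finite K (up f d W) := Submodule.finiteDimensional_of_le h1
    exact Submodule.finrank_mono hle
  push Not at htop
  -- the range where at most truncation is needed
  have key : ∀ e : ℕ, e + 4 ≤ a 0 + a 1 + a 2 → (a 2 ≥ e + 2 ∨ e + 2 ≤ a 0 + a 1) →
      Growth f a e := by
    intro e he hcase
    obtain ⟨f', hf', hJ1, hJ2⟩ := htr K f a hf h01 h12 e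
    have h01' : min (a 0) (e + 2) ≤ min (a 1) (e + 2) := by omega
    have h12' : min (a 1) (e + 2) ≤ min (a 2) (e + 2) := by omega
    have hp0 := hf.pos 0
    have hp1 := hf.pos 1
    have hp2 := hf.pos 2
    refine growth_trunc hJ1 hJ2 ?_
    by_cases hc : e + 2 ≤ min (a 0) (e + 2) + min (a 1) (e + 2)
    · by_cases hc4 : e + 4 ≤ min (a 0) (e + 2) + min (a 1) (e + 2) + min (a 2) (e + 2)
      · exact hcore K f' _ hf' h01' h12' e (by omega) hc hc4
      · -- the truncated degrees are too small: the top range for `f'`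
        intro W hJ hW S hS hcc
        have hemp : shadow (min (a 0) (e + 2)) (min (a 1) (e + 2)) (min (a 2) (e + 2)) e S = ∅ := by
          rw [Finset.eq_empty_iff_forall_notMem]
          rintro ⟨i, j, k⟩ hx
          simp only [shadow, Std, Finset.mem_filter, Finset.mem_product, Finset.mem_range] at hx
          omega
        rw [hemp, Finset.card_empty, zero_add]
        have hle : Jd f' (e + 1) ≤ up f' e W := le_sup_right
        have h1 : up f' e W ≤ Rd K (e + 1) := up_le f' e W hW
        have : Module.Finite K (Rd K (e + 1)) :=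
          Module.Finite.of_fg (homogeneousSubmodule_fg (Fin 3) K (e + 1))
        have : Module.Finite K (up f' e W) := Submodule.finiteDimensional_of_le h1
        exact Submodule.finrank_mono hle
    · -- trivial range
      have ha2 : min (a 2) (e + 2) = e + 2 := by omega
      intro W hJ hW S hS hcc
      have ht := htriv K f' _ hf' h01' h12' e ha2 W hJ hW
      have hn := n5 (min (a 0) (e + 2)) (min (a 1) (e + 2)) (min (a 2) (e + 2)) e (by omega)
        ha2 S hS
      change (shadow (min (a 0) (e + 2)) (min (a 1) (e + 2)) (min (a 2) (e + 2)) e S).card + _ ≤ _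
      omega
  by_cases hgood : a 2 ≥ d + 2 ∨ d + 2 ≤ a 0 + a 1
  · exact key d htop hgood
  · push Not at hgood
    obtain ⟨d', hdd⟩ : ∃ d', d + d' + 4 = a 0 + a 1 + a 2 :=
      ⟨a 0 + a 1 + a 2 - (d + 4), by omega⟩
    exact hdual K f a hf d d' hdd (key d' (by omega) (by omega))

theorem t_growth (htr : T_TRUNC.{u}) (htriv : T_TRIV.{u}) (hcore : T_CORE.{u})
    (hdual : T_DUAL.{u}) (hbc1 : T_BC1.{u}) (hbc2 : T_BC2.{u}) : T_GROWTH.{u} := by
  intro K _ f a hf h01 h12 d
  let L := AlgebraicClosure K
  have : Infinite L := IsAlgClosed.instInfinite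
  have h1 := hbc1 K L f a hf
  exact hbc2 K L f a hf d (growth_inf htr htriv hcore hdual L _ a h1 h01 h12 d)

end Pool.Agent.EGH
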