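import Pool.Agent.EGH.Targets

set_option autoImplicit false
open MvPolynomial Matrix

namespace Pool.Agent.EGH

universe u

namespace PA9

variable {K : Type u} [Field K]

theorem X_not_dvd {i k : Fin 3} (h : i ≠ k) : ¬ (X i : P K) ∣ X k := by
  intro hd
  rw [MvPolynomial.X_dvd_X] at hd
  exact h hd

theorem prime_X (i : Fin 3) : Prime (X i : P K) := MvPolynomial.X_prime

/-- a prime cannot divide powers of two different variables -/
theorem not_dvd_both {π : P K} (hπ : Prime π) (k : ℕ) (h0 : π ∣ (X 0 : P K) ^ k)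
    (h1 : π ∣ (X 1 : P K) ^ k) : False := by
  have h0' : π ∣ (X 0 : P K) := hπ.dvd_of_dvd_pow h0
  have h1' : π ∣ (X 1 : P K) := hπ.dvd_of_dvd_pow h1
  have ha : Associated π (X 0 : P K) :=
    (hπ.irreducible.dvd_irreducible_iff_associated (prime_X 0).irreducible).1 h0'
  have : (X 0 : P K) ∣ X 1 := (ha.symm.dvd).trans h1'
  exact X_not_dvd (by decide) this

theorem f_mem_J (f : Fin 3 → P K) (i : Fin 3) : f i ∈ J f :=
  Ideal.subset_span ⟨i, rfl⟩

/-- `f_k X_i^(m - a_k)` lies in `J_m` -/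
theorem mem_Jd {f : Fin 3 → P K} {a : Fin 3 → ℕ} (hf : CI f a) (k i : Fin 3) {m : ℕ}
    (h : a k ≤ m) : f k * (X i : P K) ^ (m - a k) ∈ Jd f m := by
  refine ⟨?_, ?_⟩
  · have h1 : (f k * (X i : P K) ^ (m - a k)).IsHomogeneous (a k + (m - a k)) :=
      (hf.hom k).mul (by simpa using (isHomogeneous_X K i).pow (m - a k))
    rw [show a k + (m - a k) = m by omega] at h1
    exact h1
  · exact Ideal.mul_mem_right _ _ (f_mem_J f k)

theorem self_mem_Jd {f : Fin 3 → P K} {a : Fin 3 → ℕ} (hf : CI f a) (k : Fin 3) :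
    f k ∈ Jd f (a k) := by
  have := mem_Jd hf k 0 (le_refl (a k))
  simpa using this

theorem not_all_dvd {f : Fin 3 → P K} {a : Fin 3 → ℕ} (hf : CI f a) (h01 : a 0 ≤ a 1)
    {π : P K} (hπ : Irreducible π) : ∃ h ∈ Jd f (a 1), ¬ π ∣ h := by
  by_contra hcon
  push Not at hcon
  have hp : Prime π := hπ.prime
  have h1 : π ∣ f 1 := hcon _ (self_mem_Jd hf 1)
  have h0 : π ∣ f 0 := by
    by_contra hn
    have e0 := hcon _ (mem_Jd hf 0 0 h01)
    have e1 := hcon _ (mem_Jd hf 0 1 h01)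
    rcases hp.dvd_or_dvd e0 with h | h
    · exact hn h
    rcases hp.dvd_or_dvd e1 with h' | h'
    · exact hn h'
    exact not_dvd_both hp _ h h'
  obtain ⟨u, hu⟩ := h0
  obtain ⟨w, hw⟩ := h1
  obtain ⟨r, hr⟩ := hf.reg1 u w (by rw [hw, hu]; ring)
  have h3 : f 0 * 1 = f 0 * (π * r) := by
    calc f 0 * 1 = π * u := by rw [mul_one, ← hu]
      _ = π * (r * f 0) := by rw [← hr]
      _ = f 0 * (π * r) := by ring
  have h4 := mul_left_cancel₀ hf.ne h3
  exact hπ.not_isUnit (IsUnit.of_mul_eq_one r h4.symm)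

theorem std_empty (a : Fin 3 → ℕ) : Std (a 0) (a 1) (a 2) (a 0 + a 1 + a 2) = ∅ := by
  rw [Finset.eq_empty_iff_forall_notMem]
  rintro ⟨i, j, k⟩ hm
  simp only [Std, Finset.mem_filter, Finset.mem_product, Finset.mem_range] at hm
  omega

theorem finite_Rd (d : ℕ) : Module.Finite K (Rd K d) := by
  rw [Module.Finite.iff_fg]
  exact homogeneousSubmodule_fg (Fin 3) K d

/-- all forms of degree `a 0 + a 1 + a 2` lie in `J` -/
theorem Jd_top (hD1 : T_D1.{u}) {f : Fin 3 → P K} {a : Fin 3 → ℕ} (hf : CI f a) :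
    Jd f (a 0 + a 1 + a 2) = Rd K (a 0 + a 1 + a 2) := by
  have h := hD1 K f a hf (a 0 + a 1 + a 2)
  rw [std_empty, Finset.card_empty, add_zero] at h
  have := finite_Rd (K := K) (a 0 + a 1 + a 2)
  exact Submodule.eq_of_le_of_finrank_eq inf_le_left h

theorem not_all_mem (hD1 : T_D1.{u}) {f : Fin 3 → P K} {a : Fin 3 → ℕ} (hf : CI f a)
    (h01 : a 0 ≤ a 1) (h12 : a 1 ≤ a 2) {Q : Ideal (P K)} (hQ : Q.IsPrime)
    (hX : ∃ i, (X i : P K) ∉ Q) : ∃ h ∈ Jd f (a 2), h ∉ Q := by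
  by_contra hcon
  push Not at hcon
  obtain ⟨i, hi⟩ := hX
  have key : ∀ k, a k ≤ a 2 → f k ∈ Q := by
    intro k hk
    rcases hQ.mem_or_mem (hcon _ (mem_Jd hf k i hk)) with h | h
    · exact h
    · exact absurd (hQ.mem_of_pow_mem _ h) hi
  have hJ : J f ≤ Q := by
    rw [J, Ideal.span_le]
    rintro _ ⟨k, rfl⟩
    apply key
    fin_cases k
    · exact h01.trans h12
    · exact h12
    · exact le_refl _
  have hmem : (X i : P K) ^ (a 0 + a 1 + a 2) ∈ Jd f (a 0 + a 1 + a 2) := by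
    rw [Jd_top hD1 hf]
    have : ((X i : P K) ^ (a 0 + a 1 + a 2)).IsHomogeneous (1 * (a 0 + a 1 + a 2)) :=
      (isHomogeneous_X K i).pow _
    rw [one_mul] at this
    exact this
  exact hi (hQ.mem_of_pow_mem _ (hJ hmem.2))

end PA9

/-- A regular sequence inside `(g0) + J`. -/
theorem t_a9 (hAV1 : T_AV1.{u}) (hAV2 : T_AV2.{u}) (hD1 : T_D1.{u}) : T_A9.{u} := by
  intro K _ _ f a hf h01 h12 j g0 hj hg0 hg0j
  obtain ⟨f1, hf1, hr1⟩ := hAV1 K g0 hg0 (Jd f (a 1))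
    (fun π hπ _ => PA9.not_all_dvd hf h01 hπ)
  obtain ⟨f2, hf2, hr2⟩ := hAV2 K g0 f1 j (a 1) hj (hf.pos 1) hg0j hf1.1 hg0 hr1 (Jd f (a 2))
    (fun Q hQ _ _ hX => PA9.not_all_mem hD1 hf h01 h12 hQ hX)
  refine ⟨f1, f2, hf1.2, hf2.2, ?_, ?_, ?_, ?_, ?_⟩
  · intro i
    fin_cases i
    · exact hj
    · exact hf.pos 1
    · exact hf.pos 2
  · intro i
    fin_cases i
    · exact hg0j
    · exact hf1.1
    · exact hf2.1
  · exact hg0
  · exact hr1
  · exact hr2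

end Pool.Agent.EGH
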