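import Pool.Agent.EGH.Core

set_option autoImplicit false
open MvPolynomial Matrix

namespace Pool.Agent.EGH

universe u

theorem t_dual (hfin : T_DIMR.{u}) (hor : T_ORTH.{u}) (hd1 : T_D1.{u}) (hex : N_EX)
    (hn4 : N4) : T_DUAL.{u} := by
  intro K _ f a hf d d' hdd hG W hJW hWR S hS hc
  have hdd' : d' + d + 4 = a 0 + a 1 + a 2 := by omega
  have hO := hor K f a hf d d' hdd W hJW hWR
  have hO' := hor K f a hf d' d hdd' (orth f d' W) (le_orth _ _ _) (orth_le _ _ _)
  have hD := hd1 K f a hf (d + 1)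
  have hD' := hd1 K f a hf (d' + 1)
  have hDd' := hd1 K f a hf d'
  have h1 : Module.finrank K (Jd f d') ≤ Module.finrank K (orth f d' W) :=
    rank_mono hfin (le_orth _ _ _) (orth_le _ _ _)
  have h2 : Module.finrank K (orth f d' W) ≤ Module.finrank K (Rd K d') :=
    rank_mono hfin (orth_le _ _ _) le_rfl
  obtain ⟨S', hS', hc'⟩ := hex (a 0) (a 1) (a 2) d'
    (Module.finrank K (orth f d' W) - Module.finrank K (Jd f d')) (by omega)
  have hg := hG (orth f d' W) (le_orth _ _ _) (orth_le _ _ _) S' hS' (by omega)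
  have hle : W ≤ orth f d (orth f d' W) := by
    intro x hx
    refine ⟨hWR hx, fun w hw => ?_⟩
    rw [mul_comm]
    exact hw.2 x hx
  have h3 : Module.finrank K W ≤ Module.finrank K (orth f d (orth f d' W)) :=
    rank_mono hfin hle (orth_le _ _ _)
  have h4 := hn4 (a 0) (a 1) (a 2) d' d hdd' S' S hS' hS (by omega)
  omega

end Pool.Agent.EGH
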