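import Pool.Agent.EGH.Defs

set_option autoImplicit false
open MvPolynomial Matrix

namespace Pool.Agent.EGH

universe u

/-! ## A. Algebra of a complete intersection in three variables -/

/-- A1. finite dimension and dimension of `R_d`. -/
def T_DIMR : Prop := ∀ (K : Type u) [Field K] (d : ℕ),
  Module.Finite K (Rd K d) ∧ 2 * Module.finrank K (Rd K d) = (d + 1) * (d + 2)

/-- A2. powers of the variables. -/
def T_MONCI : Prop := ∀ (K : Type u) [Field K] (a : Fin 3 → ℕ), (∀ i, 1 ≤ a i) →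
  CI (fun i => (X i : P K) ^ a i) a

/-- A3. the degree `d` part of `J`. -/
def T_JD : Prop := ∀ (K : Type u) [Field K] (f : Fin 3 → P K) (a : Fin 3 → ℕ),
  (∀ i, (f i).IsHomogeneous (a i)) → ∀ (d : ℕ) (p : P K),
  p ∈ Jd f d ↔ ∃ y : Fin 3 → P K, (∀ k, y k ∈ Rm K d (a k)) ∧ p = ∑ k, y k * f k

/-- A4. Koszul, first syzygies. -/
def T_K1 : Prop := ∀ (K : Type u) [Field K] (f : Fin 3 → P K) (a : Fin 3 → ℕ), CI f a →
  (∀ y : Fin 3 → P K, ∑ k, y k * f k = 0 → ∃ h : Fin 3 → P K, y = f ⨯₃ h) ∧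
  ∀ (m : ℕ) (y : Fin 3 → P K), (∀ k, y k ∈ Rm K m (a k)) → ∑ k, y k * f k = 0 →
    ∃ h : Fin 3 → P K, (∀ k, h k ∈ Rm K (m + a k) (a 0 + a 1 + a 2)) ∧ y = f ⨯₃ h

/-- A5. Koszul, second syzygies. -/
def T_K2 : Prop := ∀ (K : Type u) [Field K] (f : Fin 3 → P K) (a : Fin 3 → ℕ), CI f a →
  (∀ z : Fin 3 → P K, f ⨯₃ z = 0 → ∃ w : P K, z = w • f) ∧
  ∀ (m A : ℕ) (z : Fin 3 → P K), (∀ k, z k ∈ Rm K (m + a k) A) → f ⨯₃ z = 0 →
    ∃ w ∈ Rm K m A, z = w • f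

/-- A6. Koszul count. -/
def T_KOSZ : Prop := ∀ (K : Type u) [Field K] (f : Fin 3 → P K) (a : Fin 3 → ℕ), CI f a →
  ∀ d : ℕ, Module.finrank K (Jd f d) +
      ∑ k, Module.finrank K (Rm K (d + a k) (a 0 + a 1 + a 2)) =
    ∑ k, Module.finrank K (Rm K d (a k)) + Module.finrank K (Rm K d (a 0 + a 1 + a 2))

/-- A7. monomial complete intersections. -/
def T_MONDIM : Prop := ∀ (K : Type u) [Field K] (a : Fin 3 → ℕ) (d : ℕ),
  Module.finrank K (Jd (fun i => (X i : P K) ^ a i) d) + (Std (a 0) (a 1) (a 2) d).card =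
    Module.finrank K (Rd K d)

/-- A8. Hilbert function of a complete intersection. -/
def T_D1 : Prop := ∀ (K : Type u) [Field K] (f : Fin 3 → P K) (a : Fin 3 → ℕ), CI f a →
  ∀ d : ℕ, Module.finrank K (Jd f d) + (Std (a 0) (a 1) (a 2) d).card =
    Module.finrank K (Rd K d)

/-- A9. socle lemma. -/
def T_SOC : Prop := ∀ (K : Type u) [Field K] (f : Fin 3 → P K) (a : Fin 3 → ℕ), CI f a →
  ∀ (m : ℕ) (p : P K), p ∈ Rd K m → m + 4 ≤ a 0 + a 1 + a 2 →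
    (∀ k, X k * p ∈ J f) → p ∈ J f

/-- A10. perfect pairing. -/
def T_PERF : Prop := ∀ (K : Type u) [Field K] (f : Fin 3 → P K) (a : Fin 3 → ℕ), CI f a →
  ∀ (e e' : ℕ), e + e' + 3 = a 0 + a 1 + a 2 → ∀ U : Submodule K (P K), Jd f e ≤ U →
    U ≤ Rd K e →
    Module.finrank K (orth f e' U) + Module.finrank K U =
      Module.finrank K (Jd f e') + Module.finrank K (Rd K e)

/-- A11. dimension of the linkage dual. -/
def T_ORTH : Prop := ∀ (K : Type u) [Field K] (f : Fin 3 → P K) (a : Fin 3 → ℕ), CI f a →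
  ∀ (d d' : ℕ), d + d' + 4 = a 0 + a 1 + a 2 → ∀ W : Submodule K (P K), Jd f d ≤ W →
    W ≤ Rd K d →
    Module.finrank K (orth f d' W) + Module.finrank K (up f d W) =
      Module.finrank K (Jd f d') + Module.finrank K (Rd K (d + 1))

/-! ## B. Bases, linear syzygies -/

/-- B1. existence of a basis modulo `J_d`. -/
def T_BAS : Prop := ∀ (K : Type u) [Field K] (f : Fin 3 → P K) (d : ℕ)
  (W : Submodule K (P K)), Jd f d ≤ W → W ≤ Rd K d →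
  ∃ (v : ℕ) (g : Fin v → P K), BasisMod f d W g ∧
    v + Module.finrank K (Jd f d) = Module.finrank K W

/-- B2. dimension of `Sig`. -/
def T_SIGMA : Prop := ∀ (K : Type u) [Field K] (f : Fin 3 → P K) (a : Fin 3 → ℕ), CI f a →
  a 0 ≤ a 1 → a 1 ≤ a 2 → ∀ d : ℕ, d + 2 ≤ a 0 + a 1 → ∀ (v : ℕ) (g : Fin v → P K)
  (W : Submodule K (P K)), BasisMod f d W g →
  Module.Finite K (Sig f a d g) ∧
  Module.finrank K (Sig f a d g) + Module.finrank K (up f d W) =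
    3 * v + Module.finrank K (Jd f (d + 1))

/-- B3. no nonzero element of `Sig` is divisible by a linear form. -/
def T_NODIV : Prop := ∀ (K : Type u) [Field K] (f : Fin 3 → P K) (a : Fin 3 → ℕ), CI f a →
  a 0 ≤ a 1 → a 1 ≤ a 2 → ∀ d : ℕ, d + 2 ≤ a 0 + a 1 → ∀ (v : ℕ) (g : Fin v → P K)
  (W : Submodule K (P K)), BasisMod f d W g →
  ∀ τ ∈ Sig f a d g, ∀ l ∈ Rd K 1, l ≠ 0 → (∀ j, l ∣ τ.1 j) → (∀ k, l ∣ τ.2 k) → τ = 0

/-! ## C. Case 1: rank of the linear parts smaller than `v` -/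

/-- C1. Macaulay type inequality. -/
def T_MAC : Prop := ∀ (K : Type u) [Field K] (m : ℕ) (V : Submodule K (P K)),
  V ≤ Rd K m → V ≠ ⊥ → ∃ γ : ℕ,
    Module.finrank K (Rd K 1 * V : Submodule K (P K)) = Module.finrank K V + γ ∧
    2 * Module.finrank K V ≤ γ * (γ - 1)

/-- C2. the homogeneous relation. -/
def T_C1a : Prop := ∀ (K : Type u) [Field K] (f : Fin 3 → P K) (a : Fin 3 → ℕ) (d v : ℕ)
  (g : Fin v → P K), ¬ Tor f a d g →
  ∃ (m : ℕ) (α : Fin v → P K), (∀ j, α j ∈ Rd K m) ∧ α ≠ 0 ∧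
    ∀ τ ∈ Sig f a d g, ∑ j, τ.1 j * α j = 0

/-- C3. splitting. -/
def T_C1b : Prop := ∀ (K : Type u) [Field K] (f : Fin 3 → P K) (a : Fin 3 → ℕ), CI f a →
  ∀ (d v : ℕ) (g : Fin v → P K) (W : Submodule K (P K)), BasisMod f d W g →
  ∀ (m : ℕ) (α : Fin v → P K), (∀ j, α j ∈ Rd K m) → α ≠ 0 →
    (∀ τ ∈ Sig f a d g, ∑ j, τ.1 j * α j = 0) →
  ∃ (W0 V : Submodule K (P K)), Jd f d ≤ W0 ∧ W0 ≤ W ∧ V ≤ Rd K m ∧ V ≠ ⊥ ∧
    Module.finrank K W0 + Module.finrank K V = Module.finrank K W ∧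
    Module.finrank K (up f d W0) + Module.finrank K (Rd K 1 * V : Submodule K (P K)) ≤
      Module.finrank K (up f d W)

/-! ## D. Case 2: full rank and no vertical element -/

/-- D1. the common divisor `g0`. -/
def T_C2a : Prop := ∀ (K : Type u) [Field K] (f : Fin 3 → P K) (a : Fin 3 → ℕ), CI f a →
  ∀ (d v : ℕ) (g : Fin v → P K) (W : Submodule K (P K)), BasisMod f d W g → 1 ≤ v →
  Tor f a d g → NV0 f a d g →
  ∃ (j : ℕ) (g0 : P K) (Q : Fin v → Fin 3 → P K), 1 ≤ j ∧ g0 ≠ 0 ∧ g0 ∈ Rd K j ∧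
    (∀ i, g0 * g i = ∑ k, Q i k * f k) ∧
    (∀ τ ∈ Sig f a d g, ∀ k, g0 * τ.2 k = ∑ i, τ.1 i * Q i k) ∧
    (∀ t : Fin v → Mv K v, (∀ k, t k ∈ Sig f a d g) →
      g0 ∣ (Matrix.of fun k i => (t k).1 i).det)

/-- D2. the lemma over a principal ideal domain. -/
def T_PID : Prop := ∀ (K : Type u) [Field K] (v : ℕ)
  (S : Submodule K (Fin v → Polynomial K)) (γ : Polynomial K), γ ≠ 0 →
  (∀ s ∈ S, ∀ i, (s i).natDegree ≤ 1) →
  (∀ c : Fin v → K, ∃ s ∈ S, ∀ i, (s i).eval 0 = c i) →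
  (∀ t : Fin v → Fin v → Polynomial K, (∀ k, t k ∈ S) → γ ∣ (Matrix.of t).det) →
  γ.natDegree + Module.finrank K S ≤ 2 * v

/-- D3. restriction to a line. -/
def T_C2b : Prop := ∀ (K : Type u) [Field K] [Infinite K] (f : Fin 3 → P K)
  (a : Fin 3 → ℕ), CI f a → a 0 ≤ a 1 → a 1 ≤ a 2 → ∀ (d : ℕ), d + 2 ≤ a 0 + a 1 →
  ∀ (v : ℕ) (g : Fin v → P K) (W : Submodule K (P K)), BasisMod f d W g → 1 ≤ v →
  Tor f a d g →
  ∀ (j : ℕ) (g0 : P K) (Q : Fin v → Fin 3 → P K), g0 ≠ 0 → g0 ∈ Rd K j →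
    (∀ τ ∈ Sig f a d g, ∀ k, g0 * τ.2 k = ∑ i, τ.1 i * Q i k) →
    (∀ t : Fin v → Mv K v, (∀ k, t k ∈ Sig f a d g) →
      g0 ∣ (Matrix.of fun k i => (t k).1 i).det) →
    j + Module.finrank K (Sig f a d g) ≤ 2 * v

/-- D4. prime avoidance modulo one form. -/
def T_AV1 : Prop := ∀ (K : Type u) [Field K] [Infinite K] (f0 : P K), f0 ≠ 0 →
  ∀ V : Submodule K (P K), (∀ π : P K, Irreducible π → π ∣ f0 → ∃ h ∈ V, ¬ π ∣ h) →
  ∃ h ∈ V, ∀ p q : P K, p * h = q * f0 → ∃ r, p = r * f0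

/-- D5. prime avoidance modulo two coprime forms. -/
def T_AV2 : Prop := ∀ (K : Type u) [Field K] [Infinite K] (f0 f1 : P K) (e0 e1 : ℕ),
  1 ≤ e0 → 1 ≤ e1 → f0 ∈ Rd K e0 → f1 ∈ Rd K e1 → f0 ≠ 0 →
  (∀ p q : P K, p * f1 = q * f0 → ∃ r, p = r * f0) →
  ∀ V : Submodule K (P K),
    (∀ Q : Ideal (P K), Q.IsPrime → f0 ∈ Q → f1 ∈ Q → (∃ i, (X i : P K) ∉ Q) →
      ∃ h ∈ V, h ∉ Q) →
  ∃ h ∈ V, ∀ p q r : P K, p * h = q * f0 + r * f1 → ∃ q' r', p = q' * f0 + r' * f1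

/-- D5'. depth lemma for two coprime forms. -/
def T_DEP : Prop := ∀ (K : Type u) [Field K] (f0 f1 : P K), f0 ≠ 0 →
  (∀ p q : P K, p * f1 = q * f0 → ∃ r, p = r * f0) →
  ∀ p : P K, (∀ i, X i * p ∈ Ideal.span {f0, f1}) → p ∈ Ideal.span {f0, f1}

/-- D6. a regular sequence inside `(g0) + J`. -/
def T_A9 : Prop := ∀ (K : Type u) [Field K] [Infinite K] (f : Fin 3 → P K)
  (a : Fin 3 → ℕ), CI f a → a 0 ≤ a 1 → a 1 ≤ a 2 → ∀ (j : ℕ) (g0 : P K), 1 ≤ j →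
  g0 ≠ 0 → g0 ∈ Rd K j →
  ∃ f1 f2 : P K, f1 ∈ J f ∧ f2 ∈ J f ∧ CI ![g0, f1, f2] ![j, a 1, a 2]

/-- D7. bound for the annihilator of `g0`. -/
def T_PDIM : Prop := ∀ (K : Type u) [Field K] [Infinite K] (f : Fin 3 → P K)
  (a : Fin 3 → ℕ), CI f a → a 0 ≤ a 1 → a 1 ≤ a 2 → ∀ (d e : ℕ),
  d + e + 3 = a 0 + a 1 + a 2 → ∀ (v : ℕ) (g : Fin v → P K) (W : Submodule K (P K)),
  BasisMod f d W g → ∀ (j : ℕ) (g0 : P K), 1 ≤ j → g0 ≠ 0 → g0 ∈ Rd K j →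
  (∀ i, g0 * g i ∈ J f) → v ≤ (Std j (a 1) (a 2) e).card

/-- D8. Case 2. -/
def T_CASE2 : Prop := ∀ (K : Type u) [Field K] [Infinite K] (f : Fin 3 → P K)
  (a : Fin 3 → ℕ), CI f a → a 0 ≤ a 1 → a 1 ≤ a 2 → ∀ (d : ℕ), a 2 ≤ d + 2 →
  d + 2 ≤ a 0 + a 1 → d + 4 ≤ a 0 + a 1 + a 2 →
  ∀ (v : ℕ) (g : Fin v → P K) (W : Submodule K (P K)), BasisMod f d W g →
  Tor f a d g → NV0 f a d g →
  ∀ S : Finset Mon, IsSeg (a 0) (a 1) (a 2) d S → S.card = v →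
    (shadow (a 0) (a 1) (a 2) d S).card + Module.finrank K (Jd f (d + 1)) ≤
      Module.finrank K (up f d W)

/-! ## E. Case 3: vertical elements on both sides -/

/-- E1. the pairing. -/
def T_PAIR : Prop := ∀ (K : Type u) [Field K] (f : Fin 3 → P K) (a : Fin 3 → ℕ), CI f a →
  ∀ (d d' : ℕ), d + d' + 4 = a 0 + a 1 + a 2 → ∀ (v v' : ℕ) (g : Fin v → P K)
  (g' : Fin v' → P K), (∀ j, g j ∈ Rd K d) → (∀ i, g' i ∈ Rd K d') →
  (∀ j i, g j * g' i ∈ J f) →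
  ∀ x ∈ Submodule.span (P K) (Sig f a d g : Set (Mv K v)), x.1 = 0 →
  ∀ x' ∈ Submodule.span (P K) (Sig f a d' g' : Set (Mv K v')), x'.1 = 0 →
    x.2 ⨯₃ x'.2 = 0

/-- E2. a point where the rank is at least `v + 1`. -/
def T_GEN : Prop := ∀ (K : Type u) [Field K] [Infinite K] (f : Fin 3 → P K)
  (a : Fin 3 → ℕ) (d v : ℕ) (g : Fin v → P K), Module.Finite K (Sig f a d g) →
  Tor f a d g → ¬ NV0 f a d g →
  ∃ p : Fin 3 → K, p ≠ 0 ∧ v + 1 ≤ Module.finrank K ((Sig f a d g).map (evp v p))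

/-- E3. lower bound for `dim R_i T`. -/
def T_LB : Prop := ∀ (K : Type u) [Field K] (v : ℕ) (T : Submodule K (Mv K v)),
  Module.Finite K T → ∀ p : Fin 3 → K, p ≠ 0 →
  (∀ τ ∈ T, ∀ l ∈ Rd K 1, l ≠ 0 → (∀ j, l ∣ τ.1 j) → (∀ k, l ∣ τ.2 k) → τ = 0) →
  ∀ i : ℕ, 2 * (i + 1) * Module.finrank K T +
      Module.finrank K (T.map (evp v p)) * (i * (i + 1)) ≤ 2 * Module.finrank K (Mi i T)

/-- E4. upper bound. -/
def T_UB : Prop := ∀ (K : Type u) [Field K] (f : Fin 3 → P K) (a : Fin 3 → ℕ), CI f a →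
  a 0 ≤ a 1 → a 1 ≤ a 2 → ∀ (v i m N : ℕ), N + a 0 + a 1 = m →
  ∀ U : Submodule K (Mv K v), (∀ x ∈ U, ∀ j, x.1 j ∈ Rd K (i + 1)) →
  (∀ x ∈ U, ∀ k, x.2 k ∈ Rm K m (a k)) →
  ∀ ν : Fin 3 → P K, ν ≠ 0 →
  (∀ x ∈ U, x.1 = 0 → ∑ k, x.2 k * f k = 0 ∧ x.2 ⨯₃ ν = 0) →
  2 * Module.finrank K U ≤ v * ((i + 2) * (i + 3)) + (N + 1) * (N + 2)

/-- E5. Case 3. -/
def T_CASE3 : Prop := ∀ (K : Type u) [Field K] [Infinite K] (f : Fin 3 → P K)
  (a : Fin 3 → ℕ), CI f a → a 0 ≤ a 1 → a 1 ≤ a 2 → ∀ (d d' : ℕ),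
  d + 2 ≤ a 0 + a 1 → d + d' + 4 = a 0 + a 1 + a 2 →
  ∀ (v v' : ℕ) (g : Fin v → P K) (g' : Fin v' → P K) (W W' : Submodule K (P K)),
  BasisMod f d W g → BasisMod f d' W' g' → (∀ j i, g j * g' i ∈ J f) →
  Tor f a d g → ¬ NV0 f a d g → ¬ NV0 f a d' g' →
  Module.finrank K (Sig f a d g) + a 0 + a 1 ≤ 2 * v + d + 2

/-! ## F. Numerical lemmas -/

/-- F0. row lengths. -/
def N_ROW : Prop := ∀ b c d i : ℕ, b ≤ c → 1 ≤ b →
  hh b c d i = if i ≤ d then min (d - i + 1) (min b (b + c - 1 - (d - i))) else 0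

/-- F1. description of a nonempty segment and its shadow. -/
def N_SEG : Prop := ∀ a b c d : ℕ, 1 ≤ a → a ≤ b → b ≤ c → ∀ S : Finset Mon,
  IsSeg a b c d S → S.Nonempty →
  ∃ i0 t : ℕ, i0 < a ∧ i0 ≤ d ∧ 1 ≤ t ∧ t ≤ hh b c d i0 ∧
    S.card = ∑ i ∈ Finset.Ioo i0 a, hh b c d i + t ∧
    (shadow a b c d S).card + (if c ≤ d - i0 + 1 ∧ t = hh b c d i0 then 1 else 0) =
      ∑ i ∈ Finset.Ioo i0 a, hh b c (d + 1) i + t + (if d - i0 + 2 ≤ b then 1 else 0)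

/-- F2. shadows of segments are segments. -/
def N_SHS : Prop := ∀ a b c d : ℕ, ∀ S : Finset Mon, IsSeg a b c d S →
  IsSeg a b c (d + 1) (shadow a b c d S)

/-- F3. segments are totally ordered by inclusion. -/
def N_CH : Prop := ∀ a b c d : ℕ, ∀ S T : Finset Mon, IsSeg a b c d S → IsSeg a b c d T →
  S.card ≤ T.card → S ⊆ T

/-- F4. existence of segments. -/
def N_EX : Prop := ∀ a b c d k : ℕ, k ≤ (Std a b c d).card →
  ∃ S : Finset Mon, IsSeg a b c d S ∧ S.card = k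

/-- F5. symmetry of `Std`. -/
def N_SYM : Prop := ∀ a b c d e : ℕ, d + e + 3 = a + b + c →
  (Std a b c d).card = (Std a b c e).card

/-- F6. the Macaulay step. -/
def N1 : Prop := ∀ a b c d : ℕ, 1 ≤ a → a ≤ b → b ≤ c → c ≤ d + 2 → d + 2 ≤ a + b →
  ∀ S0 S : Finset Mon, IsSeg a b c d S0 → IsSeg a b c d S → ∀ u γ : ℕ,
  S.card = S0.card + u → 1 ≤ u → 2 * u ≤ γ * (γ - 1) →
  (shadow a b c d S).card ≤ (shadow a b c d S0).card + u + γ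

/-- F7. -/
def N2 : Prop := ∀ a b c d e j : ℕ, 1 ≤ a → a ≤ b → b ≤ c → c ≤ d + 2 → d + 2 ≤ a + b →
  d + e + 3 = a + b + c → j < a →
  ∀ S : Finset Mon, IsSeg a b c d S → S.card ≤ (Std j b c e).card →
  (shadow a b c d S).card ≤ S.card + j

/-- F8. -/
def N3 : Prop := ∀ a b c d : ℕ, 1 ≤ a → a ≤ b → b ≤ c → c ≤ d + 2 → d + 2 ≤ a + b →
  ∀ S : Finset Mon, IsSeg a b c d S →
  (shadow a b c d S).card + (d + 2) ≤ S.card + (a + b)

/-- F9. duality. -/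
def N4 : Prop := ∀ a b c d d' : ℕ, d + d' + 4 = a + b + c →
  ∀ S S' : Finset Mon, IsSeg a b c d S → IsSeg a b c d' S' →
  (shadow a b c d S).card + S'.card ≤ (Std a b c (d + 1)).card →
  (shadow a b c d' S').card + S.card ≤ (Std a b c (d' + 1)).card

/-- F10. -/
def N5 : Prop := ∀ a b c d : ℕ, a + b + 1 ≤ d + 2 → c = d + 2 →
  ∀ S : Finset Mon, IsSeg a b c d S → (shadow a b c d S).card ≤ S.card

/-! ## G. Reductions and assembly -/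

/-- G1. truncation of the degrees. -/
def T_TRUNC : Prop := ∀ (K : Type u) [Field K] [Infinite K] (f : Fin 3 → P K)
  (a : Fin 3 → ℕ), CI f a → a 0 ≤ a 1 → a 1 ≤ a 2 → ∀ (d : ℕ),
  ∃ f' : Fin 3 → P K, CI f' (fun i => min (a i) (d + 2)) ∧
    Jd f' d = Jd f d ∧ Jd f' (d + 1) = Jd f (d + 1)

/-- G2. truncation of `Std`, segments and shadows. -/
def N_TRUNC : Prop := ∀ a b c d : ℕ,
  (∀ e ≤ d + 1, Std (min a (d + 2)) (min b (d + 2)) (min c (d + 2)) e = Std a b c e) ∧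
  (∀ S : Finset Mon, IsSeg (min a (d + 2)) (min b (d + 2)) (min c (d + 2)) d S ↔
    IsSeg a b c d S) ∧
  (∀ S : Finset Mon, shadow (min a (d + 2)) (min b (d + 2)) (min c (d + 2)) d S =
    shadow a b c d S)

/-- G3. the trivial range. -/
def T_TRIV : Prop := ∀ (K : Type u) [Field K] [Infinite K] (f : Fin 3 → P K)
  (a : Fin 3 → ℕ), CI f a → a 0 ≤ a 1 → a 1 ≤ a 2 → ∀ (d : ℕ), a 2 = d + 2 →
  ∀ W : Submodule K (P K), Jd f d ≤ W → W ≤ Rd K d →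
  Module.finrank K W + Module.finrank K (Jd f (d + 1)) ≤
    Module.finrank K (up f d W) + Module.finrank K (Jd f d)

/-- G4. duality of growth. -/
def T_DUAL : Prop := ∀ (K : Type u) [Field K] (f : Fin 3 → P K)
  (a : Fin 3 → ℕ), CI f a → ∀ (d d' : ℕ), d + d' + 4 = a 0 + a 1 + a 2 →
  Growth f a d' → Growth f a d

/-- G5. base change of a regular sequence. -/
def T_BC1 : Prop := ∀ (K L : Type u) [Field K] [Field L] [Algebra K L] (f : Fin 3 → P K)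
  (a : Fin 3 → ℕ), CI f a → CI (fun i => MvPolynomial.map (algebraMap K L) (f i)) a

/-- G6. base change of growth. -/
def T_BC2 : Prop := ∀ (K L : Type u) [Field K] [Field L] [Algebra K L] (f : Fin 3 → P K)
  (a : Fin 3 → ℕ), CI f a → ∀ d : ℕ,
  Growth (fun i => MvPolynomial.map (algebraMap K L) (f i)) a d → Growth f a d

/-- G7. translation of Mathlib's regular sequences. -/
def T_REG : Prop := ∀ (K : Type u) [Field K] (f : Fin 3 → P K) (a : Fin 3 → ℕ),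
  (∀ i, 2 ≤ a i) → (∀ i, (f i).IsHomogeneous (a i)) →
  RingTheory.Sequence.IsRegular (P K) (List.ofFn f) → CI f a

/-- G8. growth in all degrees gives the lex-plus-powers ideal. -/
def T_ASM : Prop := ∀ (K : Type u) [Field K] (f : Fin 3 → P K) (a : Fin 3 → ℕ), CI f a →
  a 0 ≤ a 1 → a 1 ≤ a 2 → (∀ d, Growth f a d) →
  ∀ I : Ideal (P K), (∀ p ∈ I, ∀ d : ℕ, MvPolynomial.homogeneousComponent d p ∈ I) →
  (∀ i, f i ∈ I) →
  ∃ L : Ideal (P K),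
    (∃ S : Set (Fin 3 →₀ ℕ), L = Ideal.span ((fun s => (MvPolynomial.monomial s (1 : K))) '' S)) ∧
    (∀ m m' : Fin 3 →₀ ℕ, (∑ i, m i) = (∑ i, m' i) →
        (∃ j : Fin 3, (∀ k, k < j → m k = m' k) ∧ m j < m' j) →
        MvPolynomial.monomial m (1 : K) ∈ L → MvPolynomial.monomial m' (1 : K) ∈ L) ∧
    ∀ d : ℕ,
      Module.finrank K ↥(MvPolynomial.homogeneousSubmodule (Fin 3) K d ⊓
          Submodule.restrictScalars K I) =
      Module.finrank K ↥(MvPolynomial.homogeneousSubmodule (Fin 3) K d ⊓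
          Submodule.restrictScalars K
            (Ideal.span (Set.range fun i : Fin 3 =>
                (MvPolynomial.X i : MvPolynomial (Fin 3) K) ^ a i) ⊔ L))

/-- H1. growth in the core range. -/
def T_CORE : Prop := ∀ (K : Type u) [Field K] [Infinite K] (f : Fin 3 → P K)
  (a : Fin 3 → ℕ), CI f a → a 0 ≤ a 1 → a 1 ≤ a 2 → ∀ (d : ℕ), a 2 ≤ d + 2 →
  d + 2 ≤ a 0 + a 1 → d + 4 ≤ a 0 + a 1 + a 2 → Growth f a d

/-- H2. growth for all degrees. -/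
def T_GROWTH : Prop := ∀ (K : Type u) [Field K] (f : Fin 3 → P K)
  (a : Fin 3 → ℕ), CI f a → a 0 ≤ a 1 → a 1 ≤ a 2 → ∀ (d : ℕ), Growth f a d

end Pool.Agent.EGH
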